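import Pool.Agent.HB.M.Sys

/-!
# HB.M.Pis: Pisier iterates

`Ps W s n x`: `Ps 0 = W²`, `Ps (n+1) x = sup_h (½(Ps n (x + s h) + Ps n (x - s h)) - W(h)²)`.

PROOF of `ps_bound`.  (`W` a real seminorm, `s ≥ 0`, and `s² Ex T (W(sum)²) ≤ Ex T (var W)` for all trees.)
`s = 0`: by induction `Ps 0-case n x = W x ²` (`sup_h (c - W(h)²) = c`), bounded; the inequality is trivial.
`s > 0`: for a tree `T` let `val x T = Ex T (W(x + sum)²) - s^{-2} Ex T (var W)`.
(A) `val x T ≤ s^{-2} W(x)²`: apply the hypothesis to `node x T T⁻` with `T⁻` the tree with all increments negated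
(`Ex T⁻ f = Ex T (f ∘ map Neg)`; `W(-x - y) = W(x+y)`): `s² Ex T (W(x+sum)²) ≤ W(x)² + Ex T (var W)`.
(B) For all `n, x, ε > 0` there is `T` with `Ps n x ≤ val x T + ε`, and the set in the definition of `Ps (n+1) x` is bounded above:
induction; `n = 0`: `T = leaf`.  For `n+1` and any `h`: with `T₁, T₂` for `x ± s h`, `T = node (s•h) T₁ T₂`:
`½(Ps n (x+sh) + Ps n (x-sh)) - W(h)² ≤ ½(val (x+sh) T₁ + val (x-sh) T₂) + ε - W(h)² = val x T + ε ≤ s^{-2} W(x)² + ε`
(`s^{-2} W(s h)² = W(h)²`).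
PROOF of `mt_main`: `W = WW p H 0 t`, `s = κ ‖1 - zz t‖^5`.  If `zz t = 1`, `s = 0`.  If `zz t` is on no arc: `WW = Lf` and
`Ex (L²) ≤ 5 Ex var L`, `s² 5 ≤ κ² 2^{10} 5 ≤ 1`.  On the arc `j`: `Ex (nrm²) ≤ C2 N_{lc j}⁴ Ex var`, and
`N_{lc j} = N_{2j+2} = 4 N_{2j+1} 2^{20 N_{2j+1}}`, `‖1 - zz t‖ ≤ 2 · 2^{-10 N_{2j+1}}`: with `N = N_{2j+1}`,
`s² C2 N_{lc}⁴ ≤ κ² C2 2^{10} 2^{-100N} · 4⁴ N⁴ 2^{80N} ≤ κ² C2 2^{18} ≤ 1` (`N⁴ ≤ 2^{20N}`) for `κ` small depending only on `C2`.
-/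

open Finset Real

noncomputable section

namespace Pool.Agent.HB

def Ps {V : Type} [AddCommGroup V] [Module ℝ V] (W : V → ℝ) (s : ℝ) : ℕ → V → ℝ
  | 0, x => W x ^ 2
  | n + 1, x => ⨆ h : V, ((Ps W s n (x + s • h) + Ps W s n (x - s • h)) / 2 - W h ^ 2)

/-- the boundedness statement for the Pisier iterates -/
def PsB {V : Type} [AddCommGroup V] [Module ℝ V] (W : V → ℝ) (s : ℝ) : Prop :=
  (∀ n x, BddAbove (Set.range fun h : V =>
    ((Ps W s n (x + s • h) + Ps W s n (x - s • h)) / 2 - W h ^ 2))) ∧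
  (∀ n x, s ^ 2 * Ps W s n x ≤ W x ^ 2) ∧ ∃ A : V → ℝ, ∀ n x, Ps W s n x ≤ A x

section aux

variable {V : Type}

/-- the tree with all the increments negated -/
private def ng [Neg V] : Tr V → Tr V
  | .leaf => .leaf
  | .node h l r => .node (-h) (ng l) (ng r)

private theorem ex_ng [Neg V] (T : Tr V) (f : List V → ℝ) :
    Ex (ng T) f = Ex T (fun w => f (w.map Neg.neg)) := by
  induction T generalizing f with
  | leaf => rfl
  | node h l r ihl ihr =>
    simp only [ng, Ex, ihl, ihr, List.map_cons]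

private theorem var_map_neg [Neg V] (W : V → ℝ) (hW : ∀ x, W (-x) = W x) (w : List V) :
    var W (w.map Neg.neg) = var W w := by
  induction w with
  | nil => rfl
  | cons d w ih =>
    simp only [var, List.map_cons, List.sum_cons] at ih ⊢
    rw [ih, hW]

private theorem sum_map_neg [AddCommGroup V] (w : List V) : (w.map Neg.neg).sum = -w.sum := by
  induction w with
  | nil => simp
  | cons d w ih =>
    simp only [List.map_cons, List.sum_cons]
    rw [ih]
    abel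

private theorem pisVar_cons (W : V → ℝ) (d : V) (w : List V) : var W (d :: w) = W d ^ 2 + var W w := by
  simp [var]

variable [AddCommGroup V]

private def vl (W : V → ℝ) (s : ℝ) (x : V) (T : Tr V) : ℝ :=
  Ex T (fun w => W (x + w.sum) ^ 2) - (s ^ 2)⁻¹ * Ex T (var W)

private theorem vl_le (W : V → ℝ) (s : ℝ) (hs : 0 < s) (hW : ∀ x, W (-x) = W x)
    (hM : ∀ T : Tr V, s ^ 2 * Ex T (fun w => W w.sum ^ 2) ≤ Ex T (var W)) (x : V) (T : Tr V) :
    vl W s x T ≤ (s ^ 2)⁻¹ * W x ^ 2 := by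
  have h1 := hM (.node x T (ng T))
  simp only [Ex, ex_ng, List.sum_cons, sum_map_neg, pisVar_cons, var_map_neg W hW, hW,
    Ex_add, Ex_const] at h1
  have h2 : ∀ w : List V, W (-x + -w.sum) = W (x + w.sum) := by
    intro w
    rw [← hW (x + w.sum)]
    congr 1
    abel
  simp only [h2] at h1
  have h3 : Ex T (fun w => var W w) = Ex T (var W) := rfl
  rw [h3] at h1
  have hs2 : 0 < s ^ 2 := by positivity
  have h4 : s ^ 2 * Ex T (fun w => W (x + w.sum) ^ 2) ≤ W x ^ 2 + Ex T (var W) := by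
    linarith
  have h5 : Ex T (fun w => W (x + w.sum) ^ 2) ≤ (s ^ 2)⁻¹ * (W x ^ 2 + Ex T (var W)) := by
    rw [inv_mul_eq_div, le_div_iff₀ hs2]
    linarith
  rw [vl]
  linarith

private theorem vl_node [Module ℝ V] (W : V → ℝ) (s : ℝ) (hs : 0 < s) (hW : ∀ x, W (-x) = W x)
    (h1 : ∀ (a : ℝ) x, W (a • x) = |a| * W x) (x h : V) (T₁ T₂ : Tr V) :
    vl W s x (.node (s • h) T₁ T₂) = (vl W s (x + s • h) T₁ + vl W s (x - s • h) T₂) / 2 -
      W h ^ 2 := by
  have hs2 : s ^ 2 ≠ 0 := by positivity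
  have e1 : ∀ w : List V, x + (s • h + w.sum) = x + s • h + w.sum := fun w => by abel
  have e2 : ∀ w : List V, x + (-(s • h) + w.sum) = x - s • h + w.sum := fun w => by abel
  simp only [vl, Ex, List.sum_cons, pisVar_cons, hW, Ex_add, Ex_const, e1, e2]
  rw [h1, mul_pow, sq_abs]
  field_simp
  ring

end aux

theorem ps_bound {V : Type} [AddCommGroup V] [Module ℝ V] (W : V → ℝ) (s : ℝ) (hs : 0 ≤ s)
    (h0 : ∀ x, 0 ≤ W x) (h1 : ∀ (a : ℝ) x, W (a • x) = |a| * W x)
    (h2 : ∀ x y, W (x + y) ≤ W x + W y)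
    (hM : ∀ T : Tr V, s ^ 2 * Ex T (fun w => W w.sum ^ 2) ≤ Ex T (var W)) : PsB W s := by
  have hW0 : W 0 = 0 := by
    have := h1 0 0
    simpa using this
  have hWn : ∀ x, W (-x) = W x := by
    intro x
    have := h1 (-1) x
    simpa using this
  rcases hs.eq_or_lt with rfl | hs
  · have hsup : ∀ c : ℝ, (⨆ h : V, ((c + c) / 2 - W h ^ 2)) = c := by
      intro c
      refine le_antisymm (ciSup_le fun h => ?_) ?_
      · have := sq_nonneg (W h)
        linarith
      · have hb : BddAbove (Set.range fun h : V => (c + c) / 2 - W h ^ 2) := by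
          refine ⟨c, ?_⟩
          rintro _ ⟨h, rfl⟩
          have := sq_nonneg (W h)
          simp only
          linarith
        have := le_ciSup hb 0
        simp only [hW0] at this
        linarith
    have hPs : ∀ n x, Ps W 0 n x = W x ^ 2 := by
      intro n
      induction n with
      | zero => intro x; rfl
      | succ n ih =>
        intro x
        simp only [Ps, zero_smul, add_zero, sub_zero, ih]
        exact hsup _
    refine ⟨fun n x => ⟨W x ^ 2, ?_⟩, fun n x => ?_, fun x => W x ^ 2, fun n x => (hPs n x).le⟩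
    · rintro _ ⟨h, rfl⟩
      simp only [zero_smul, add_zero, sub_zero, hPs]
      have := sq_nonneg (W h)
      linarith
    · rw [zero_pow two_ne_zero, zero_mul]
      exact sq_nonneg _
  · have hs2 : 0 < s ^ 2 := by positivity
    have hA := vl_le W s hs hWn hM
    have hval : ∀ n x h, (∀ y, ∀ ε : ℝ, 0 < ε → ∃ T, Ps W s n y ≤ vl W s y T + ε) →
        ∀ ε : ℝ, 0 < ε → ∃ T, (Ps W s n (x + s • h) + Ps W s n (x - s • h)) / 2 - W h ^ 2 ≤
          vl W s x T + ε := by
      intro n x h ih ε hε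
      obtain ⟨T₁, hT₁⟩ := ih (x + s • h) ε hε
      obtain ⟨T₂, hT₂⟩ := ih (x - s • h) ε hε
      refine ⟨.node (s • h) T₁ T₂, ?_⟩
      rw [vl_node W s hs hWn h1]
      linarith
    have hB : ∀ n x, ∀ ε : ℝ, 0 < ε → ∃ T, Ps W s n x ≤ vl W s x T + ε := by
      intro n
      induction n with
      | zero =>
        intro x ε hε
        refine ⟨.leaf, ?_⟩
        simp only [Ps, vl, Ex, var, List.sum_nil, add_zero, List.map_nil, mul_zero, sub_zero]
        linarith
      | succ n ih =>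
        intro x ε hε
        obtain ⟨h, hh⟩ := exists_lt_of_lt_ciSup (b := Ps W s (n + 1) x - ε / 2)
          (f := fun h : V => (Ps W s n (x + s • h) + Ps W s n (x - s • h)) / 2 - W h ^ 2)
          (by
            have : Ps W s (n + 1) x =
              ⨆ h : V, ((Ps W s n (x + s • h) + Ps W s n (x - s • h)) / 2 - W h ^ 2) := rfl
            rw [← this]
            linarith)
        obtain ⟨T, hT⟩ := hval n x h ih (ε / 2) (by linarith)
        refine ⟨T, ?_⟩
        linarith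
    have hle : ∀ n x, Ps W s n x ≤ (s ^ 2)⁻¹ * W x ^ 2 := by
      intro n x
      refine le_of_forall_pos_le_add fun ε hε => ?_
      obtain ⟨T, hT⟩ := hB n x ε hε
      exact hT.trans (by have := hA x T; linarith)
    refine ⟨fun n x => ⟨(s ^ 2)⁻¹ * W x ^ 2 + 1, ?_⟩, fun n x => ?_, _, hle⟩
    · rintro _ ⟨h, rfl⟩
      obtain ⟨T, hT⟩ := hval n x h (hB n) 1 one_pos
      exact hT.trans (by have := hA x T; linarith)
    · have h3 := mul_le_mul_of_nonneg_left (hle n x) hs2.le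
      rwa [mul_inv_cancel_left₀ hs2.ne'] at h3

/-- the scale of the renorming -/
def sc (κ : ℝ) (t : TC) : ℝ := κ * ‖1 - zz t‖ ^ 5

theorem mt_main : ∃ κ : ℝ, 0 < κ ∧ κ ≤ 1 / 100 ∧ ∀ (p : Par) (H : ℕ → Pol) (t : TC),
    PsB (WW p H 0 t) (sc κ t) := by
  obtain ⟨C2, hC2, hnrm⟩ := nrm_two
  have hD : (0 : ℝ) < 100 + C2 * 2 ^ 18 := by positivity
  refine ⟨1 / (100 + C2 * 2 ^ 18), one_div_pos.2 hD,
    one_div_le_one_div_of_le (by norm_num) (by nlinarith), fun p H t => ?_⟩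
  set κ : ℝ := 1 / (100 + C2 * 2 ^ 18) with hκ
  have hκ0 : 0 < κ := one_div_pos.2 hD
  have hκ1 : κ ≤ 1 / 100 := one_div_le_one_div_of_le (by norm_num) (by nlinarith)
  have hκC : κ * (C2 * 2 ^ 18) ≤ 1 := by
    rw [hκ, one_div, inv_mul_le_iff₀ hD]
    linarith
  have hF := fam_WW p H 0
  have hz1 : ‖zz t‖ = 1 := by
    rw [zz]
    exact Circle.norm_coe _
  have hz2 : ‖1 - zz t‖ ≤ 2 := by
    have := norm_sub_le (1 : ℂ) (zz t)
    rw [hz1, norm_one] at this
    linarith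
  have hz0 : 0 ≤ ‖1 - zz t‖ := norm_nonneg _
  refine ps_bound (WW p H 0 t) (sc κ t) (mul_nonneg hκ0.le (pow_nonneg hz0 5)) (hF.nn t) ?_
    (hF.add t) ?_
  · intro a x
    have h1 := hF.smul t (a : ℂ) x
    have h2 : ((a : ℂ) • x : CV) = a • x := by
      ext i
      simp
    rw [h2, Complex.norm_real, Real.norm_eq_abs] at h1
    exact h1
  · intro T
    have hvar : 0 ≤ Ex T (var (WW p H 0 t)) := by
      rw [← Ex_const T 0]
      exact Ex_mono T (AllP_of T fun w => var_nonneg _ w)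
    by_cases hj : ∃ j, Arc p j (zz t)
    · obtain ⟨j, hj⟩ := hj
      have h3 : Ex T (fun w => WW p H 0 t w.sum ^ 2) ≤
          C2 * (p.N (lc j) : ℝ) ^ 4 * Ex T (var (WW p H 0 t)) := hnrm p H 0 j (zz t) hj T
      -- the numbers
      set N : ℕ := p.N (2 * j + 1) with hN
      set q : ℝ := (1 / 2 : ℝ) ^ N with hq
      set r : ℝ := (2 : ℝ) ^ N with hr
      have hq0 : 0 < q := by positivity
      have hq1 : q ≤ 1 := pow_le_one₀ (by norm_num) (by norm_num)
      have hqr : q * r = 1 := by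
        rw [hq, hr, ← mul_pow]
        norm_num
      have hNr : (N : ℝ) ≤ r := by
        rw [hr]
        exact_mod_cast (Nat.lt_two_pow_self).le
      have hNq : (N : ℝ) * q ≤ 1 := by
        calc (N : ℝ) * q ≤ r * q := mul_le_mul_of_nonneg_right hNr hq0.le
          _ = 1 := by rw [mul_comm, hqr]
      have hNlc : (p.N (lc j) : ℝ) = 4 * N * r ^ 20 := by
        have h4 : p.N (lc j) = 4 * p.N (2 * j + 1) * p.M (2 * j + 1 + 1) := p.hN (2 * j + 1)
        rw [h4, p.hM (2 * j + 1), hr, ← hN]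
        push_cast
        rw [← pow_mul, mul_comm 20 N]
      have hdd : dd p j = q ^ 10 := by
        rw [dd, hq, ← pow_mul, mul_comm N 10]
      have hz3 : ‖1 - zz t‖ ≤ 2 * q ^ 10 := by
        have := hj.2.2
        rwa [hdd] at this
      have hz4 : ‖1 - zz t‖ ^ 10 ≤ (2 * q ^ 10) ^ 10 := pow_le_pow_left₀ hz0 hz3 10
      have hkey : (sc κ t) ^ 2 * (C2 * (p.N (lc j) : ℝ) ^ 4) ≤ 1 := by
        have h5 : (sc κ t) ^ 2 = κ ^ 2 * ‖1 - zz t‖ ^ 10 := by
          rw [sc]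
          ring
        have hN0 : (0 : ℝ) ≤ N := Nat.cast_nonneg _
        calc (sc κ t) ^ 2 * (C2 * (p.N (lc j) : ℝ) ^ 4)
            = κ ^ 2 * ‖1 - zz t‖ ^ 10 * (C2 * (4 * N * r ^ 20) ^ 4) := by rw [h5, hNlc]
          _ ≤ κ ^ 2 * (2 * q ^ 10) ^ 10 * (C2 * (4 * N * r ^ 20) ^ 4) := by
              refine mul_le_mul_of_nonneg_right ?_ (by positivity)
              exact mul_le_mul_of_nonneg_left hz4 (by positivity)
          _ = κ * (κ * (C2 * 2 ^ 18)) * (N * q) ^ 4 * q ^ 16 * (q * r) ^ 80 := by ring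
          _ = κ * (κ * (C2 * 2 ^ 18)) * (N * q) ^ 4 * q ^ 16 := by rw [hqr, one_pow, mul_one]
          _ ≤ 1 * 1 * 1 * 1 := by
              have e1 : (N * q) ^ 4 ≤ 1 := pow_le_one₀ (by positivity) hNq
              have e2 : q ^ 16 ≤ 1 := pow_le_one₀ hq0.le hq1
              have e3 : κ ≤ 1 := by linarith
              have e4 : 0 ≤ κ * (C2 * 2 ^ 18) := by positivity
              exact mul_le_mul (mul_le_mul (mul_le_mul e3 hκC e4 zero_le_one) e1 (by positivity)
                (by norm_num)) e2 (by positivity) (by norm_num)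
          _ = 1 := by norm_num
      have h6 : 0 ≤ (sc κ t) ^ 2 := sq_nonneg _
      calc (sc κ t) ^ 2 * Ex T (fun w => WW p H 0 t w.sum ^ 2)
          ≤ (sc κ t) ^ 2 * (C2 * (p.N (lc j) : ℝ) ^ 4 * Ex T (var (WW p H 0 t))) :=
            mul_le_mul_of_nonneg_left h3 h6
        _ = (sc κ t) ^ 2 * (C2 * (p.N (lc j) : ℝ) ^ 4) * Ex T (var (WW p H 0 t)) := by ring
        _ ≤ 1 * Ex T (var (WW p H 0 t)) := mul_le_mul_of_nonneg_right hkey hvar
        _ = _ := one_mul _
    · push Not at hj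
      have hWL : WW p H 0 t = Lf p := by
        funext x
        exact nrm_off hz1 (fun j _ => hj j) x
      rw [hWL] at hvar ⊢
      have h3 := sm_two (sm_Lf p) T
      have h4 : (sc κ t) ^ 2 * 5 ≤ 1 := by
        have h5 : sc κ t ≤ 1 / 100 * 2 ^ 5 := by
          rw [sc]
          exact mul_le_mul hκ1 (pow_le_pow_left₀ hz0 hz2 5) (pow_nonneg hz0 5) (by norm_num)
        have h6 : 0 ≤ sc κ t := mul_nonneg hκ0.le (pow_nonneg hz0 5)
        have h7 : (sc κ t) ^ 2 ≤ (1 / 100 * 2 ^ 5) ^ 2 := pow_le_pow_left₀ h6 h5 2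
        norm_num at h7
        linarith
      calc (sc κ t) ^ 2 * Ex T (fun w => Lf p w.sum ^ 2)
          ≤ (sc κ t) ^ 2 * (5 * Ex T (var (Lf p))) :=
            mul_le_mul_of_nonneg_left h3 (sq_nonneg _)
        _ = (sc κ t) ^ 2 * 5 * Ex T (var (Lf p)) := by ring
        _ ≤ 1 * Ex T (var (Lf p)) := mul_le_mul_of_nonneg_right h4 hvar
        _ = _ := one_mul _

end Pool.Agent.HB
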