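import Pool.Agent.HB.M.Defs

/-!
# HB.M.Basic: elementary lemmas on trees

PROOFS.  Inductions on the tree (generalizing `f`, `P`, `u`).  `Ex_super`: induction on `T` generalizing `s`:
`Ex (node h l r) (Φ ∘ foldl step s) = ½ (Ex l (Φ ∘ foldl step (step s h)) + Ex r (... (step s (-h)))) ≤ ½(Φ(step s h) + Φ(step s (-h))) ≤ Φ s`.
`trT_eq`: in the right branch the increment is `-(if .. then h else 0) = if .. then -h else 0`, and `N (-h) = N h`.
`trl_var`: the cumulative variation of the kept increments is at most `β - u` if `u ≤ β`... precisely: if `0 ≤ u` and some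
increment is kept then all kept increments `d` have cumulative value `≤ β`, so `var (trl ..) + u ≤ β` or `var (trl ..) = 0`.
-/

open Finset

namespace Pool.Agent.HB

variable {V : Type}

theorem Ex_const [Neg V] (T : Tr V) (a : ℝ) : Ex T (fun _ => a) = a := by
  induction T with
  | leaf => rfl
  | node h l r hl hr =>
    simp only [Ex, hl, hr]; ring

theorem Ex_add [Neg V] (T : Tr V) (f g : List V → ℝ) :
    Ex T (fun w => f w + g w) = Ex T f + Ex T g := by
  induction T generalizing f g with
  | leaf => rfl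
  | node h l r hl hr =>
    simp only [Ex]
    rw [hl (fun w => f (h :: w)) (fun w => g (h :: w)),
      hr (fun w => f (-h :: w)) (fun w => g (-h :: w))]
    ring

theorem Ex_smul [Neg V] (T : Tr V) (a : ℝ) (f : List V → ℝ) :
    Ex T (fun w => a * f w) = a * Ex T f := by
  induction T generalizing f with
  | leaf => rfl
  | node h l r hl hr =>
    simp only [Ex]
    rw [hl (fun w => f (h :: w)), hr (fun w => f (-h :: w))]
    ring

theorem Ex_sum [Neg V] {ι : Type} (T : Tr V) (s : Finset ι) (f : ι → List V → ℝ) :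
    Ex T (fun w => ∑ i ∈ s, f i w) = ∑ i ∈ s, Ex T (f i) := by
  classical
  induction s using Finset.induction_on with
  | empty => simpa using Ex_const T 0
  | insert i s hi ih =>
    rw [Finset.sum_insert hi, ← ih, ← Ex_add]
    simp only [Finset.sum_insert hi]

theorem Ex_mono [Neg V] (T : Tr V) {f g : List V → ℝ} (h : AllP T (fun w => f w ≤ g w)) :
    Ex T f ≤ Ex T g := by
  induction T generalizing f g with
  | leaf => exact h
  | node x l r hl hr =>
    simp only [Ex]
    have h1 := hl h.1
    have h2 := hr h.2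
    linarith

theorem AllP_of [Neg V] (T : Tr V) {P : List V → Prop} (h : ∀ w, P w) : AllP T P := by
  induction T generalizing P with
  | leaf => exact h _
  | node x l r hl hr => exact ⟨hl fun w => h _, hr fun w => h _⟩

theorem AllP_and [Neg V] (T : Tr V) {P Q : List V → Prop} (h : AllP T P) (h' : AllP T Q) :
    AllP T (fun w => P w ∧ Q w) := by
  induction T generalizing P Q with
  | leaf => exact ⟨h, h'⟩
  | node x l r hl hr => exact ⟨hl h.1 h'.1, hr h.2 h'.2⟩

theorem AllP_mono [Neg V] (T : Tr V) {P Q : List V → Prop} (h : AllP T P) (h' : ∀ w, P w → Q w) :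
    AllP T Q := by
  induction T generalizing P Q with
  | leaf => exact h' _ h
  | node x l r hl hr => exact ⟨hl h.1 fun w => h' _, hr h.2 fun w => h' _⟩

/-- a function on paths is bounded -/
theorem AllP_bdd [Neg V] (T : Tr V) (f : List V → ℝ) : ∃ B, AllP T (fun w => f w ≤ B) := by
  induction T generalizing f with
  | leaf => exact ⟨f [], le_rfl⟩
  | node x l r hl hr =>
    obtain ⟨B1, h1⟩ := hl fun w => f (x :: w)
    obtain ⟨B2, h2⟩ := hr fun w => f (-x :: w)
    exact ⟨max B1 B2, AllP_mono _ h1 fun w hw => hw.trans (le_max_left _ _),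
      AllP_mono _ h2 fun w hw => hw.trans (le_max_right _ _)⟩

/-- the paths form a finite set -/
theorem AllP_fin [Neg V] (T : Tr V) : ∃ s : Set (List V), s.Finite ∧ AllP T (fun w => w ∈ s) := by
  induction T with
  | leaf => exact ⟨{[]}, Set.finite_singleton _, rfl⟩
  | node x l r hl hr =>
    obtain ⟨s1, f1, h1⟩ := hl
    obtain ⟨s2, f2, h2⟩ := hr
    refine ⟨(fun w => x :: w) '' s1 ∪ (fun w => -x :: w) '' s2, (f1.image _).union (f2.image _),
      ?_, ?_⟩
    · exact AllP_mono _ h1 fun w hw => Or.inl ⟨w, hw, rfl⟩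
    · exact AllP_mono _ h2 fun w hw => Or.inr ⟨w, hw, rfl⟩

theorem Ex_super [Neg V] {S : Type} (step : S → V → S) (Φ : S → ℝ)
    (hΦ : ∀ s h, (Φ (step s h) + Φ (step s (-h))) / 2 ≤ Φ s) (T : Tr V) (s : S) :
    Ex T (fun w => Φ (w.foldl step s)) ≤ Φ s := by
  induction T generalizing s with
  | leaf => exact le_rfl
  | node x l r hl hr =>
    simp only [Ex, List.foldl_cons]
    have h1 := hl (step s x)
    have h2 := hr (step s (-x))
    have h3 := hΦ s x
    linarith

theorem trT_eq [AddCommGroup V] (N : V → ℝ) (hN : ∀ x, N (-x) = N x) (α β u : ℝ) (T : Tr V)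
    (f : List V → ℝ) : Ex (trT N α β u T) f = Ex T (fun w => f (trl N α β u w)) := by
  classical
  induction T generalizing f u with
  | leaf => rfl
  | node x l r hl hr =>
    simp only [trT, Ex, trl, hN]
    rw [hl, hr]
    congr 3
    funext w
    congr 2
    split_ifs <;> simp

theorem trT_all [AddCommGroup V] (N : V → ℝ) (hN : ∀ x, N (-x) = N x) (α β u : ℝ) (T : Tr V)
    (P : List V → Prop) : AllP (trT N α β u T) P ↔ AllP T (fun w => P (trl N α β u w)) := by
  classical
  induction T generalizing P u with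
  | leaf => rfl
  | node x l r hl hr =>
    simp only [trT, AllP, trl, hN]
    rw [hl, hr]
    have : (fun w => P ((-if α < u + N x ^ 2 ∧ u + N x ^ 2 ≤ β then x else 0) ::
        trl N α β (u + N x ^ 2) w)) =
        fun w => P ((if α < u + N x ^ 2 ∧ u + N x ^ 2 ≤ β then -x else 0) ::
        trl N α β (u + N x ^ 2) w) := by
      funext w
      congr 2
      split_ifs <;> simp
    rw [this]

theorem var_nonneg (N : V → ℝ) (w : List V) : 0 ≤ var N w := by
  induction w with
  | nil => simp [var]
  | cons d w ih =>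
    simp only [var, List.map_cons, List.sum_cons] at ih ⊢
    positivity

theorem var_cons (N : V → ℝ) (d : V) (w : List V) : var N (d :: w) = N d ^ 2 + var N w := by
  simp [var]

theorem trl_var_aux [AddCommGroup V] (N : V → ℝ) (h0 : N 0 = 0) (α β : ℝ) (w : List V) (u : ℝ) :
    var N (trl N α β u w) = 0 ∨ var N (trl N α β u w) + u ≤ β := by
  classical
  induction w generalizing u with
  | nil => left; simp [trl, var]
  | cons d w ih =>
    simp only [trl, var_cons]
    have hd : 0 ≤ N d ^ 2 := sq_nonneg _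
    by_cases h : α < u + N d ^ 2 ∧ u + N d ^ 2 ≤ β
    · rw [if_pos h]
      right
      rcases ih (u + N d ^ 2) with h1 | h1
      · rw [h1]; linarith [h.2]
      · linarith
    · rw [if_neg h, h0]
      rcases ih (u + N d ^ 2) with h1 | h1
      · left; rw [h1]; ring
      · right; nlinarith

theorem trl_var_le [AddCommGroup V] (N : V → ℝ) (h0 : N 0 = 0) (α β : ℝ) (hβ : 0 ≤ β)
    (w : List V) : var N (trl N α β 0 w) ≤ β := by
  rcases trl_var_aux N h0 α β w 0 with h | h
  · rw [h]; exact hβ
  · linarith

theorem trl_var_pos_aux [AddCommGroup V] (N : V → ℝ) (h0 : N 0 = 0) (α β : ℝ)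
    (w : List V) (u : ℝ) (h : 0 < var N (trl N α β u w)) : α < u + var N w := by
  classical
  induction w generalizing u with
  | nil => simp [trl, var] at h
  | cons d w ih =>
    simp only [trl, var_cons] at h ⊢
    by_cases h1 : α < u + N d ^ 2 ∧ u + N d ^ 2 ≤ β
    · linarith [h1.1, var_nonneg N w]
    · rw [if_neg h1, h0] at h
      have := ih (u + N d ^ 2) (by linarith)
      linarith

/-- if something is kept then the total variation exceeds `α` -/
theorem trl_var_pos [AddCommGroup V] (N : V → ℝ) (h0 : N 0 = 0) (α β : ℝ)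
    (w : List V) (h : 0 < var N (trl N α β 0 w)) : α < var N w := by
  have := trl_var_pos_aux N h0 α β w 0 h
  linarith

theorem sum_levels_aux [AddCommGroup V] (N : V → ℝ) (β0 : ℝ) (hβ : 0 ≤ β0) (l : ℕ) (w : List V)
    (u : ℝ) (hu : 0 ≤ u) (hw : u + var N w ≤ 4 ^ l * β0) :
    w.sum = (trl N (-1) β0 u w).sum +
      ∑ i ∈ range l, (trl N (4 ^ i * β0) (4 ^ (i + 1) * β0) u w).sum := by
  classical
  induction w generalizing u with
  | nil => simp [trl]
  | cons d w ih =>
    rw [var_cons] at hw
    have hd : 0 ≤ N d ^ 2 := sq_nonneg _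
    have hv := var_nonneg N w
    have h1 := ih (u + N d ^ 2) (by linarith) (by linarith)
    simp only [trl, List.sum_cons, Finset.sum_add_distrib]
    set t := u + N d ^ 2 with ht
    have ht0 : 0 ≤ t := by linarith
    have htl : t ≤ 4 ^ l * β0 := by linarith
    have key : d = (if -1 < t ∧ t ≤ β0 then d else 0) +
        ∑ i ∈ range l, (if 4 ^ i * β0 < t ∧ t ≤ 4 ^ (i + 1) * β0 then d else 0) := by
      by_cases h2 : t ≤ β0
      · rw [if_pos ⟨by linarith, h2⟩, Finset.sum_eq_zero, add_zero]
        intro i _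
        rw [if_neg]
        rintro ⟨h3, _⟩
        have : β0 ≤ 4 ^ i * β0 := le_mul_of_one_le_left hβ (one_le_pow₀ (by norm_num))
        linarith
      · rw [if_neg (fun h => h2 h.2), zero_add]
        push Not at h2
        -- the least i with t ≤ 4^(i+1) β0
        have hex : ∃ n, t ≤ 4 ^ n * β0 := ⟨l, htl⟩
        obtain ⟨hn1, hn2⟩ := (⟨Nat.find_spec hex, fun m hm => Nat.find_min hex hm⟩ :
          t ≤ 4 ^ (Nat.find hex) * β0 ∧ ∀ m, m < Nat.find hex → ¬ t ≤ 4 ^ m * β0)
        set n := Nat.find hex
        have hn0 : n ≠ 0 := by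
          intro h; rw [h] at hn1; simp at hn1; linarith
        obtain ⟨k, hk⟩ := Nat.exists_eq_succ_of_ne_zero hn0
        have hkl : k < l := by
          by_contra hcon
          push Not at hcon
          exact hn2 l (by omega) htl
        rw [Finset.sum_eq_single_of_mem k (Finset.mem_range.2 hkl)]
        · rw [if_pos]
          refine ⟨?_, ?_⟩
          · exact not_le.1 (hn2 k (by omega))
          · rw [hk] at hn1; exact hn1
        · intro i hi hik
          rw [if_neg]
          rintro ⟨h3, h4⟩
          rcases lt_or_gt_of_ne hik with h5 | h5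
          · exact hn2 (i + 1) (by omega) h4
          · have h6 : (4:ℝ) ^ (k + 1) * β0 ≤ 4 ^ i * β0 :=
              mul_le_mul_of_nonneg_right (pow_le_pow_right₀ (by norm_num) (by omega)) hβ
            rw [hk] at hn1
            exact absurd (hn1.trans h6) (not_le.2 h3)
    rw [h1]
    nth_rewrite 1 [key]
    abel

/-- decomposition into levels: level `0` is `(-1, β0]`, level `l ≥ 1` is `(4^(l-1) β0, 4^l β0]`. -/
theorem sum_levels [AddCommGroup V] (N : V → ℝ) (β0 : ℝ) (hβ : 0 ≤ β0) (l : ℕ) (w : List V)
    (hw : var N w ≤ 4 ^ l * β0) :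
    w.sum = (trl N (-1) β0 0 w).sum +
      ∑ i ∈ range l, (trl N (4 ^ i * β0) (4 ^ (i + 1) * β0) 0 w).sum :=
  sum_levels_aux N β0 hβ l w 0 le_rfl (by linarith)

/-- scaling a tree -/
theorem Ex_scale [AddCommGroup V] [Module ℝ V] (a : ℝ) (T : Tr V) :
    ∃ T' : Tr V, (∀ f : List V → ℝ, Ex T' f = Ex T (fun w => f (w.map (fun d => a • d)))) ∧
      ∀ P : List V → Prop, AllP T' P ↔ AllP T (fun w => P (w.map (fun d => a • d))) := by
  induction T with
  | leaf => exact ⟨.leaf, fun f => rfl, fun P => Iff.rfl⟩
  | node x l r hl hr =>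
    obtain ⟨l', h1, h2⟩ := hl
    obtain ⟨r', h3, h4⟩ := hr
    refine ⟨.node (a • x) l' r', fun f => ?_, fun P => ?_⟩
    · simp only [Ex, h1, h3, List.map_cons, smul_neg]
    · simp only [AllP, h2, h4, List.map_cons, smul_neg]

end Pool.Agent.HB
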