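import Pool.Agent.HB.M.Defs

/-!
# HB.M.Cosh: the exponential inequality for 2-smooth seminorms

PROOF.  `u± = B (x ± h)`, `u = B x`, `b = B h`.  `cosh(λu₊)+cosh(λu₋) = 2 cosh(λ(u₊+u₋)/2) cosh(λ(u₊-u₋)/2)`; `|u₊-u₋| ≤ B(2h) = 2b`, so the
second factor is `≤ cosh(λb) ≤ e^{λ²b²/2}` (`Real.cosh_le_exp_half_sq`).  `s = (u₊+u₋)/2`, `s² ≤ ½(u₊²+u₋²) ≤ u² + 5b²`, and
`cosh(λ s) ≤ cosh √(λ²u² + 5λ²b²) ≤ cosh(λu) cosh(√5 λ b) ≤ cosh(λu) e^{5λ²b²/2}`.
Here `cosh √(α²+β²) ≤ cosh α cosh β` for `α, β ≥ 0`: `cosh α cosh β = ½(cosh(α+β) + cosh(α-β)) = ½(g((α+β)²) + g((α-β)²))` with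
`g y = cosh √y` convex on `[0,∞)` (power series `∑ y^k/(2k)!`, or: `g` convex because `2 g'(y) = sinh √y/√y` is increasing), and
`½((α+β)²+(α-β)²) = α²+β²`.
(Alternative: for fixed `α`, `φ(β) = log cosh α + β²/2 - log cosh √(α²+β²)` has `φ(0) = 0`, `φ' = β - tanh(r) β/r ≥ 0`, which gives
directly `cosh √(α²+β²) ≤ cosh α e^{β²/2}`.)
-/

open Finset Real

namespace Pool.Agent.HB

private theorem sinh_le_mul_cosh {s : ℝ} (hs : 0 ≤ s) : sinh s ≤ s * cosh s := by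
  have hd : ∀ x : ℝ, HasDerivAt (fun s : ℝ => s * cosh s - sinh s)
      (1 * cosh x + x * sinh x - cosh x) x := fun x =>
    ((hasDerivAt_id x).mul (Real.hasDerivAt_cosh x)).sub (Real.hasDerivAt_sinh x)
  have hm : MonotoneOn (fun s : ℝ => s * cosh s - sinh s) (Set.Ici 0) := by
    refine monotoneOn_of_deriv_nonneg (convex_Ici 0)
      (fun x _ => (hd x).continuousAt.continuousWithinAt)
      (fun x _ => (hd x).differentiableAt.differentiableWithinAt) fun x hx => ?_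
    rw [interior_Ici] at hx
    have hx : 0 < x := hx
    rw [(hd x).deriv]
    have := mul_nonneg hx.le (Real.sinh_nonneg_iff.2 hx.le)
    linarith
  have h1 := hm (Set.mem_Ici.2 le_rfl) (Set.mem_Ici.2 hs) hs
  simp only [zero_mul, sinh_zero, sub_zero] at h1
  linarith

private theorem gauss_cosh_anti :
    AntitoneOn (fun s : ℝ => exp (-(s ^ 2 / 2)) * cosh s) (Set.Ici 0) := by
  have hd : ∀ x : ℝ, HasDerivAt (fun s : ℝ => exp (-(s ^ 2 / 2)) * cosh s)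
      (exp (-(x ^ 2 / 2)) * (-x) * cosh x + exp (-(x ^ 2 / 2)) * sinh x) x := by
    intro x
    have h1 : HasDerivAt (fun s : ℝ => -(s ^ 2 / 2)) (-x) x := by
      have h2 : HasDerivAt (fun s : ℝ => -(s ^ 2 / 2)) (-((2 : ℕ) * x ^ (2 - 1) / 2)) x :=
        ((hasDerivAt_pow 2 x).div_const 2).neg
      have e : -((2 : ℕ) * x ^ (2 - 1) / 2) = -x := by
        norm_num
      rwa [e] at h2
    exact h1.exp.mul (Real.hasDerivAt_cosh x)
  refine antitoneOn_of_deriv_nonpos (convex_Ici 0)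
    (fun x _ => (hd x).continuousAt.continuousWithinAt)
    (fun x _ => (hd x).differentiableAt.differentiableWithinAt) fun x hx => ?_
  rw [interior_Ici] at hx
  have hx : 0 < x := hx
  rw [(hd x).deriv]
  have h1 := sinh_le_mul_cosh hx.le
  have h2 := mul_le_mul_of_nonneg_left h1 (exp_pos (-(x ^ 2 / 2))).le
  linarith

theorem cosh_sqrt_le (α β : ℝ) : cosh (√(α ^ 2 + β ^ 2)) ≤ cosh α * exp (β ^ 2 / 2) := by
  have h0 : |α| ≤ √(α ^ 2 + β ^ 2) := by
    apply Real.le_sqrt_of_sq_le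
    rw [sq_abs]
    have := sq_nonneg β
    linarith
  have h1 := gauss_cosh_anti (Set.mem_Ici.2 (abs_nonneg α)) (Set.mem_Ici.2 (Real.sqrt_nonneg _)) h0
  simp only at h1
  rw [Real.sq_sqrt (by positivity), sq_abs, cosh_abs] at h1
  have h2 : exp (-((α ^ 2 + β ^ 2) / 2)) = exp (-(α ^ 2 / 2)) * (exp (β ^ 2 / 2))⁻¹ := by
    rw [← Real.exp_neg, ← Real.exp_add]
    congr 1
    ring
  rw [h2, mul_assoc] at h1
  have h3 := le_of_mul_le_mul_left h1 (exp_pos _)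
  rwa [← div_eq_inv_mul, div_le_iff₀ (exp_pos _)] at h3

theorem cosh_step {V : Type} [AddCommGroup V] [Module ℝ V] {B : V → ℝ} (hB : Sm B) (l : ℝ)
    (x h : V) :
    (cosh (l * B (x + h)) + cosh (l * B (x - h))) / 2 ≤
      exp (3 * l ^ 2 * B h ^ 2) * cosh (l * B x) := by
  set u1 := B (x + h) with hu1
  set u2 := B (x - h) with hu2
  set u := B x with hu
  set b := B h with hb
  have hu10 : 0 ≤ u1 := hB.nn _
  have hu20 : 0 ≤ u2 := hB.nn _
  have hb0 : 0 ≤ b := hB.nn _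
  have h2h : B ((2 : ℝ) • h) = 2 * b := by
    rw [hB.smul, abs_of_pos (by norm_num : (0 : ℝ) < 2)]
  have hneg : B (-((2 : ℝ) • h)) = 2 * b := by
    have : -((2 : ℝ) • h) = (-2 : ℝ) • h := by module
    rw [this, hB.smul, abs_neg, abs_of_pos (by norm_num : (0 : ℝ) < 2)]
  have d1 : u1 ≤ u2 + 2 * b := by
    have h1 := hB.add (x - h) ((2 : ℝ) • h)
    have e : x - h + (2 : ℝ) • h = x + h := by module
    rw [e, h2h] at h1
    exact h1
  have d2 : u2 ≤ u1 + 2 * b := by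
    have h1 := hB.add (x + h) (-((2 : ℝ) • h))
    have e : x + h + -((2 : ℝ) • h) = x - h := by module
    rw [e, hneg] at h1
    exact h1
  have hsm := hB.sm x h
  have e0 : (cosh (l * u1) + cosh (l * u2)) / 2 =
      cosh (l * ((u1 + u2) / 2)) * cosh (l * ((u1 - u2) / 2)) := by
    have a1 : l * u1 = l * ((u1 + u2) / 2) + l * ((u1 - u2) / 2) := by ring
    have a2 : l * u2 = l * ((u1 + u2) / 2) - l * ((u1 - u2) / 2) := by ring
    rw [a1, a2, Real.cosh_add, Real.cosh_sub]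
    ring
  rw [e0]
  have c2 : cosh (l * ((u1 - u2) / 2)) ≤ exp (l ^ 2 * b ^ 2 / 2) := by
    have h1 : cosh (l * ((u1 - u2) / 2)) ≤ cosh (l * b) := by
      rw [Real.cosh_le_cosh, abs_mul, abs_mul]
      refine mul_le_mul_of_nonneg_left ?_ (abs_nonneg l)
      rw [abs_of_nonneg hb0, abs_le]
      constructor <;> linarith
    refine h1.trans ((Real.cosh_le_exp_half_sq _).trans (le_of_eq ?_))
    congr 1
    ring
  have c1 : cosh (l * ((u1 + u2) / 2)) ≤ cosh (l * u) * exp (5 * l ^ 2 * b ^ 2 / 2) := by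
    have h1 : cosh (l * ((u1 + u2) / 2)) ≤ cosh (√((l * u) ^ 2 + (√5 * (l * b)) ^ 2)) := by
      rw [Real.cosh_le_cosh, abs_of_nonneg (Real.sqrt_nonneg _)]
      apply Real.le_sqrt_of_sq_le
      rw [sq_abs, mul_pow √5, Real.sq_sqrt (by norm_num : (0 : ℝ) ≤ 5)]
      have h2 : ((u1 + u2) / 2) ^ 2 ≤ u ^ 2 + 5 * b ^ 2 := by
        nlinarith [sq_nonneg (u1 - u2)]
      have h3 := mul_le_mul_of_nonneg_left h2 (sq_nonneg l)
      calc (l * ((u1 + u2) / 2)) ^ 2 = l ^ 2 * ((u1 + u2) / 2) ^ 2 := by ring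
        _ ≤ l ^ 2 * (u ^ 2 + 5 * b ^ 2) := h3
        _ = (l * u) ^ 2 + 5 * (l * b) ^ 2 := by ring
    refine h1.trans ((cosh_sqrt_le _ _).trans (le_of_eq ?_))
    congr 2
    rw [mul_pow √5, Real.sq_sqrt (by norm_num : (0 : ℝ) ≤ 5)]
    ring
  calc cosh (l * ((u1 + u2) / 2)) * cosh (l * ((u1 - u2) / 2))
      ≤ (cosh (l * u) * exp (5 * l ^ 2 * b ^ 2 / 2)) * exp (l ^ 2 * b ^ 2 / 2) :=
        mul_le_mul c1 c2 (Real.cosh_pos _).le
          (mul_nonneg (Real.cosh_pos _).le (exp_pos _).le)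
    _ = exp (3 * l ^ 2 * b ^ 2) * cosh (l * u) := by
        rw [mul_assoc, ← Real.exp_add, mul_comm]
        congr 2
        ring

end Pool.Agent.HB
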