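import Mathlib

/-!
# HB part M: dyadic martingales as trees

`Tr V`: at a node with increment `h` go left with `+h`, right with `-h`, each with probability `1/2`.
`Ex T f`: expectation of `f`(list of increments, chronological).
-/

open Finset

noncomputable section

namespace Pool.Agent.HB

inductive Tr (V : Type) : Type
  | leaf : Tr V
  | node (h : V) (l r : Tr V) : Tr V

/-- Expectation over the paths. -/
def Ex {V : Type} [Neg V] : Tr V → (List V → ℝ) → ℝ
  | .leaf, f => f []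
  | .node h l r, f => (Ex l (fun w => f (h :: w)) + Ex r (fun w => f ((-h) :: w))) / 2

/-- All paths of the tree satisfy `P`. -/
def AllP {V : Type} [Neg V] : Tr V → (List V → Prop) → Prop
  | .leaf, P => P []
  | .node h l r, P => AllP l (fun w => P (h :: w)) ∧ AllP r (fun w => P ((-h) :: w))

/-- Quadratic variation. -/
def var {V : Type} (N : V → ℝ) (w : List V) : ℝ := (w.map fun d => N d ^ 2).sum

open Classical in
/-- Indicator. -/
def ind {V : Type} (P : List V → Prop) (w : List V) : ℝ := if P w then 1 else 0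

/-- 2-smooth real seminorms. -/
structure Sm {V : Type} [AddCommGroup V] [Module ℝ V] (B : V → ℝ) : Prop where
  nn : ∀ x, 0 ≤ B x
  smul : ∀ (a : ℝ) x, B (a • x) = |a| * B x
  add : ∀ x y, B (x + y) ≤ B x + B y
  sm : ∀ x h, B (x + h) ^ 2 + B (x - h) ^ 2 ≤ 2 * B x ^ 2 + 10 * B h ^ 2

/-- Activation: some partial sum has `v > δ`. -/
def Act {V : Type} [AddCommGroup V] (v : V → ℝ) (δ : ℝ) (w : List V) : Prop :=
  ∃ w1 w2, w = w1 ++ w2 ∧ δ < v w1.sum

/-- `w1` is the first prefix (of itself) with `v > δ`. -/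
def First {V : Type} [AddCommGroup V] (v : V → ℝ) (δ : ℝ) (w1 : List V) : Prop :=
  δ < v w1.sum ∧ ∀ u s, w1 = u ++ s → s ≠ [] → v u.sum ≤ δ

/-- After the activation the seminorm `B` of the increment exceeds `th * lam` while the variation since the
activation is still at most `lam ^ 2`. -/
def Bad {V : Type} [AddCommGroup V] (B N : V → ℝ) (v : V → ℝ) (δ lam th : ℝ) (w : List V) : Prop :=
  ∃ w1 w2 w3, w = w1 ++ w2 ++ w3 ∧ First v δ w1 ∧ var N w2 ≤ lam ^ 2 ∧ th * lam < B w2.sum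

/-- Truncation of a path: keep the increments at which the cumulative variation is in `(α, β]`. -/
def trl {V : Type} [Zero V] (N : V → ℝ) (α β : ℝ) : ℝ → List V → List V
  | _, [] => []
  | u, d :: w =>
    (open Classical in if α < u + N d ^ 2 ∧ u + N d ^ 2 ≤ β then d else 0) ::
      trl N α β (u + N d ^ 2) w

/-- Truncation of a tree. -/
def trT {V : Type} [Zero V] (N : V → ℝ) (α β : ℝ) : ℝ → Tr V → Tr V
  | _, .leaf => .leaf
  | u, .node h l r =>
    .node (open Classical in if α < u + N h ^ 2 ∧ u + N h ^ 2 ≤ β then h else 0)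
      (trT N α β (u + N h ^ 2) l) (trT N α β (u + N h ^ 2) r)

/-- Sum of the cubes of the pair functionals over the even suffixes. -/
def ZP {V : Type} [AddCommGroup V] [Module ℝ V] (q : List ℕ → V →ₗ[ℝ] ℂ) (x : V) : List ℕ → ℝ
  | n :: m :: σ => ‖q (n :: m :: σ) x‖ ^ 3 + ZP q x σ
  | _ => 0

/-- the even part of a list (drop the head if the length is odd) -/
def evp (σ : List ℕ) : List ℕ := if Even σ.length then σ else σ.tail

/-- A finite tree of codes with pair functionals. -/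
structure TS (V : Type) [AddCommGroup V] [Module ℝ V] where
  Nd : Finset (List ℕ)
  nil : [] ∈ Nd
  tail : ∀ n σ, (n :: σ) ∈ Nd → σ ∈ Nd
  h : ℕ
  h1 : 1 ≤ h
  len : ∀ σ ∈ Nd, σ.length ≤ 2 ^ h
  L : V → ℝ
  hL : Sm L
  v : List ℕ → V → ℝ
  vnn : ∀ ρ x, 0 ≤ v ρ x
  vsmul : ∀ ρ (a : ℝ) x, v ρ (a • x) = |a| * v ρ x
  vadd : ∀ ρ x y, v ρ (x + y) ≤ v ρ x + v ρ y
  v12 : ∀ x, ∑ ρ ∈ Nd, v ρ x ^ 12 ≤ L x ^ 12
  q : List ℕ → V →ₗ[ℝ] ℂ
  q1 : ∀ n m σ, (n :: m :: σ) ∈ Nd → ∀ x, ‖q (n :: m :: σ) x‖ ≤ v σ x + v (m :: σ) x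
  q2 : ∀ n m σ, (n :: m :: σ) ∈ Nd → ∀ x, ‖q (n :: m :: σ) x‖ ≤ 2 * L x
  N : V → ℝ
  Nnn : ∀ x, 0 ≤ N x
  Nsmul : ∀ (a : ℝ) x, N (a • x) = |a| * N x
  LN : ∀ x, L x ≤ N x
  ZN : ∀ σ ∈ Nd, Even σ.length → ∀ x, ZP q x σ ≤ N x ^ 3

variable {V : Type} [AddCommGroup V] [Module ℝ V]

/-- `max` over the even nodes of `(ZP q x σ)^{1/3}`. -/
def TS.Z (S : TS V) (x : V) : ℝ :=
  (sSup {r | ∃ σ ∈ S.Nd, Even σ.length ∧ r = ZP S.q x σ}) ^ ((1 : ℝ) / 3)

/-- the seminorm of the pairs of a node (of any parity) -/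
def TS.B (S : TS V) (ρ : List ℕ) (x : V) : ℝ := (ZP S.q x (evp ρ)) ^ ((1 : ℝ) / 3)

end Pool.Agent.HB
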