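import Mathlib

/-!
# HB.M.Det: the deterministic lemma

Data: increments `d u` (`u < n`), `M t = ∑_{u<t} d u`; `P ≤ 2^h` pairs with additive `q i`; seminorm-like functions `v l` (`l < 2P`);
`b l ≤ n` = index of the activation step of node `l` (`b l = n`: never): `v l (M t) ≤ δ` for `t ≤ b l`.

PROOF.  `τ i = min ({n} ∪ {b l | 2i ≤ l < 2P})` for `i ≤ P`; `τ` is monotone, `τ P = n`, `τ i ≤ b (2i), b (2i+1)`, and if `τ i < n` then
`τ i = b l` for some `l`, `2i ≤ l < 2P`.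
For `i < P`: `q i (M n) = q i (M (τ i)) + q i (∑_{[τ i, τ (i+1))} d) + q i (∑_{[τ (i+1), n)} d)`.
(1) `|q i (M (τ i))| ≤ v (2i) + v (2i+1) ≤ 2δ`.  `ℓ₃`-norm `≤ 2δ P^{1/3}`.
(2) If `τ i = τ (i+1)` the second term is `0`.  Otherwise `τ i = b l` with `l ∈ {2i, 2i+1}`, `b l < n`, so it is
   `≤ 2 L(∑_{[b l, τ(i+1))} d) ≤ 2D √(∑_{[τ i, τ(i+1))} s + κ)`.  Sum of squares `≤ 4D²(1 + Pκ)`, `ℓ₃ ≤ ℓ₂`.
(3) Let `θ i = τ (i+1)`, `i < P`.  *Key*: for `m < P` and `t ∈ [θ m, n]`: `(∑_{i≤m} |q i (∑_{[θ m, t)} d)|³)^{1/3} ≤ D √(∑_{[θ m,t)} s + κ)`: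
   if `θ m = n` the sums are empty; otherwise `θ m = b l` with `l ≥ 2m+2` and hypothesis `hinc` covers all `i` with `2i+2 ≤ l`.
   *Claim(k)*: for `a < b ≤ P`, `b - a ≤ 2^k`, `e ∈ [θ (b-1), n]`:
   `(∑_{a≤i<b} |q i (∑_{[θ i, e)} d)|³)^{1/3} ≤ D (k+1) √(∑_{[θ a, e)} s + (b-a) κ)`.
   `k = 0`: `b = a+1`, key with `m = a`.  Step: choose `m`, `a < m < b` (if `b = a+1` use claim(0)), `m-a, b-m ≤ 2^{k-1}`.  For `i ∈ [a,m)`:
   `∑_{[θ i, e)} = ∑_{[θ i, θ m)} + ∑_{[θ m, e)}`; claim(k-1) for `[a,m)` with `e = θ m`, key for `m`, claim(k-1) for `[m,b)` with `e`;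
   Minkowski in `ℓ₃` and `ℓ₃ ≤ ℓ₂`:
   `≤ √((Dk)²(∑_{[θ a,θ m)} s + (m-a)κ) + (Dk)²(∑_{[θ m,e)} s + (b-m)κ)) + D √(∑_{[θ m,e)} s + κ) ≤ D(k+1) √(∑_{[θ a,e)} s + (b-a)κ)`.
   Take `a = 0`, `b = P`, `k = h`, `e = n`.
Total by Minkowski in `ℓ₃`.
-/

open Finset

namespace Pool.Agent.HB

/-- Minkowski's inequality in `ℓ₃` -/
theorem mink3 {ι : Type*} (I : Finset ι) (a b c : ι → ℝ) {A B : ℝ} (ha : ∀ i ∈ I, 0 ≤ a i)
    (hb : ∀ i ∈ I, 0 ≤ b i) (hA : 0 ≤ A) (hB : 0 ≤ B) (h1 : ∑ i ∈ I, a i ^ 3 ≤ A ^ 3)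
    (h2 : ∑ i ∈ I, b i ^ 3 ≤ B ^ 3) (hc : ∀ i ∈ I, 0 ≤ c i) (hcab : ∀ i ∈ I, c i ≤ a i + b i) :
    ∑ i ∈ I, c i ^ 3 ≤ (A + B) ^ 3 := by
  have key := Real.Lp_add_le_of_nonneg I (p := 3) (by norm_num) ha hb
  have e : ∀ x : ℝ, x ^ (3 : ℝ) = x ^ (3 : ℕ) := fun x => by
    rw [← Real.rpow_natCast]
    norm_num
  simp only [e] at key
  have e1 : ∀ x y : ℝ, 0 ≤ x → 0 ≤ y → x ≤ y ^ 3 → x ^ (1 / (3 : ℝ)) ≤ y := by
    intro x y hx hy h
    have h3 : (y ^ 3) ^ (1 / (3 : ℝ)) = y := by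
      rw [← Real.rpow_natCast, ← Real.rpow_mul hy]
      norm_num
    calc x ^ (1 / (3 : ℝ)) ≤ (y ^ 3) ^ (1 / (3 : ℝ)) := Real.rpow_le_rpow hx h (by norm_num)
      _ = y := h3
  have hA' := e1 _ A (Finset.sum_nonneg fun i hi => pow_nonneg (ha i hi) 3) hA h1
  have hB' := e1 _ B (Finset.sum_nonneg fun i hi => pow_nonneg (hb i hi) 3) hB h2
  have h4 : (∑ i ∈ I, (a i + b i) ^ 3) ^ (1 / (3 : ℝ)) ≤ A + B := by linarith
  have h5 : 0 ≤ ∑ i ∈ I, (a i + b i) ^ 3 :=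
    Finset.sum_nonneg fun i hi => pow_nonneg (add_nonneg (ha i hi) (hb i hi)) 3
  have h6 : ∑ i ∈ I, (a i + b i) ^ 3 ≤ (A + B) ^ 3 := by
    have h7 : ((∑ i ∈ I, (a i + b i) ^ 3) ^ (1 / (3 : ℝ))) ^ 3 = ∑ i ∈ I, (a i + b i) ^ 3 := by
      rw [← Real.rpow_natCast, ← Real.rpow_mul h5]
      norm_num
    rw [← h7]
    exact pow_le_pow_left₀ (Real.rpow_nonneg h5 _) h4 3
  exact (Finset.sum_le_sum fun i hi => pow_le_pow_left₀ (hc i hi) (hcab i hi) 3).trans h6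

/-- `ℓ₃ ≤ ℓ₂` -/
theorem l3_le_l2 {ι : Type*} (I : Finset ι) (a : ι → ℝ) {A : ℝ} (_ : ∀ i ∈ I, 0 ≤ a i)
    (hA : 0 ≤ A) (h : ∑ i ∈ I, a i ^ 2 ≤ A ^ 2) : ∑ i ∈ I, a i ^ 3 ≤ A ^ 3 := by
  have h1 : ∀ i ∈ I, a i ≤ A := by
    intro i hi
    have h2 := Finset.single_le_sum (f := fun i => a i ^ 2) (fun i _ => sq_nonneg _) hi
    exact le_of_sq_le_sq (h2.trans h) hA
  calc ∑ i ∈ I, a i ^ 3 ≤ ∑ i ∈ I, A * a i ^ 2 := by
        refine Finset.sum_le_sum fun i hi => ?_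
        rw [pow_succ, mul_comm]
        exact mul_le_mul_of_nonneg_right (h1 i hi) (sq_nonneg _)
    _ = A * ∑ i ∈ I, a i ^ 2 := by rw [Finset.mul_sum]
    _ ≤ A * A ^ 2 := mul_le_mul_of_nonneg_left h hA
    _ = A ^ 3 := by ring

theorem cube_add_le {X Y : ℝ} (hX : 0 ≤ X) (hY : 0 ≤ Y) :
    X ^ 3 + Y ^ 3 ≤ (√(X ^ 2 + Y ^ 2)) ^ 3 := by
  have h := l3_le_l2 (Finset.univ : Finset (Fin 2)) ![X, Y] (A := √(X ^ 2 + Y ^ 2))
    (by intro i _; fin_cases i <;> simp [hX, hY]) (Real.sqrt_nonneg _) (by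
      rw [Real.sq_sqrt (by positivity)]
      simp [Fin.sum_univ_two])
  simpa [Fin.sum_univ_two] using h

set_option linter.unusedVariables false in
theorem det_lemma {V : Type} [AddCommGroup V] (n P h : ℕ) (hP : P ≤ 2 ^ h)
    (d : ℕ → V) (s : ℕ → ℝ) (hs : ∀ u, 0 ≤ s u) (hs1 : ∑ u ∈ range n, s u ≤ 1)
    (q : ℕ → V →+ ℂ) (v : ℕ → V → ℝ) (L : V → ℝ) (δ D κ : ℝ) (hδ : 0 ≤ δ) (hD : 0 ≤ D)
    (hκ : 0 ≤ κ) (b : ℕ → ℕ) (hb : ∀ l, b l ≤ n)
    (hq1 : ∀ i < P, ∀ x, ‖q i x‖ ≤ v (2 * i) x + v (2 * i + 1) x)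
    (hq2 : ∀ i < P, ∀ x, ‖q i x‖ ≤ 2 * L x)
    (hin : ∀ l < 2 * P, ∀ t ≤ b l, v l (∑ u ∈ range t, d u) ≤ δ)
    (hinc : ∀ l < 2 * P, b l < n → ∀ t ≤ n, b l ≤ t →
      ∑ i ∈ range (l / 2), ‖q i (∑ u ∈ Ico (b l) t, d u)‖ ^ 3 ≤
        (D * √(∑ u ∈ Ico (b l) t, s u + κ)) ^ 3)
    (hincL : ∀ l < 2 * P, b l < n → ∀ t ≤ n, b l ≤ t →
      L (∑ u ∈ Ico (b l) t, d u) ≤ D * √(∑ u ∈ Ico (b l) t, s u + κ)) :
    ∑ i ∈ range P, ‖q i (∑ u ∈ range n, d u)‖ ^ 3 ≤
      (2 * δ * (P : ℝ) ^ ((1 : ℝ) / 3) + (h + 3) * D * √(1 + P * κ)) ^ 3 := by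
  -- the times
  set τ : ℕ → ℕ := fun i => sInf {t | t = n ∨ ∃ l, 2 * i ≤ l ∧ l < 2 * P ∧ b l = t} with hτ
  have τmem : ∀ i, τ i = n ∨ ∃ l, 2 * i ≤ l ∧ l < 2 * P ∧ b l = τ i := fun i =>
    Nat.sInf_mem (s := {t | t = n ∨ ∃ l, 2 * i ≤ l ∧ l < 2 * P ∧ b l = t}) ⟨n, Or.inl rfl⟩
  have τn : ∀ i, τ i ≤ n := fun i => Nat.sInf_le (Or.inl rfl)
  have τb : ∀ i l, 2 * i ≤ l → l < 2 * P → τ i ≤ b l := fun i l h1 h2 =>
    Nat.sInf_le (Or.inr ⟨l, h1, h2, rfl⟩)
  have τmono : ∀ i j, i ≤ j → τ i ≤ τ j := by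
    intro i j hij
    rcases τmem j with h1 | ⟨l, h1, h2, h3⟩
    · rw [h1]; exact τn i
    · rw [← h3]; exact τb i l (by omega) h2
  have τP : τ P = n := by
    rcases τmem P with h1 | ⟨l, h1, h2, h3⟩
    · exact h1
    · omega
  -- sums
  have σ0 : ∀ x y, 0 ≤ ∑ u ∈ Ico x y, s u := fun x y => Finset.sum_nonneg fun u _ => hs u
  have σadd : ∀ x y z, x ≤ y → y ≤ z →
      ∑ u ∈ Ico x y, s u + ∑ u ∈ Ico y z, s u = ∑ u ∈ Ico x z, s u := fun x y z h1 h2 =>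
    Finset.sum_Ico_consecutive _ h1 h2
  have dadd : ∀ x y z, x ≤ y → y ≤ z →
      ∑ u ∈ Ico x y, d u + ∑ u ∈ Ico y z, d u = ∑ u ∈ Ico x z, d u := fun x y z h1 h2 =>
    Finset.sum_Ico_consecutive _ h1 h2
  have σ1 : ∀ x y, x ≤ y → y ≤ n → ∑ u ∈ Ico x y, s u ≤ 1 := by
    intro x y h1 h2
    refine le_trans (Finset.sum_le_sum_of_subset_of_nonneg ?_ (fun u _ _ => hs u)) hs1
    intro u hu
    rw [Finset.mem_Ico] at hu
    rw [Finset.mem_range]
    omega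
  have Qtri : ∀ i x y z, x ≤ y → y ≤ z → ‖q i (∑ u ∈ Ico x z, d u)‖ ≤
      ‖q i (∑ u ∈ Ico x y, d u)‖ + ‖q i (∑ u ∈ Ico y z, d u)‖ := by
    intro i x y z h1 h2
    rw [← dadd x y z h1 h2, map_add]
    exact norm_add_le _ _
  -- key estimate
  have key : ∀ m < P, ∀ t ≤ n, τ (m + 1) ≤ t →
      ∑ i ∈ range (m + 1), ‖q i (∑ u ∈ Ico (τ (m + 1)) t, d u)‖ ^ 3 ≤
        (D * √(∑ u ∈ Ico (τ (m + 1)) t, s u + κ)) ^ 3 := by
    intro m hm t ht1 ht2
    rcases (τn (m + 1)).eq_or_lt with h1 | h1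
    · have h2 : t = n := le_antisymm ht1 (h1 ▸ ht2)
      rw [h1, h2, Finset.Ico_self]
      simp only [Finset.sum_empty, map_zero, norm_zero]
      rw [Finset.sum_eq_zero (fun i _ => by norm_num)]
      positivity
    · rcases τmem (m + 1) with h2 | ⟨l, h2, h3, h4⟩
      · omega
      · have h5 := hinc l h3 (by omega) t ht1 (by omega)
        rw [h4] at h5
        refine le_trans (Finset.sum_le_sum_of_subset_of_nonneg ?_ (fun i _ _ => by positivity)) h5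
        intro i hi
        rw [Finset.mem_range] at hi ⊢
        omega
  -- the dyadic claim
  have claim : ∀ k a c : ℕ, a < c → c ≤ P → c - a ≤ 2 ^ k → ∀ e, τ c ≤ e → e ≤ n →
      ∑ i ∈ Ico a c, ‖q i (∑ u ∈ Ico (τ (i + 1)) e, d u)‖ ^ 3 ≤
        (D * (k + 1) * √(∑ u ∈ Ico (τ (a + 1)) e, s u + ((c - a : ℕ) : ℝ) * κ)) ^ 3 := by
    have base : ∀ a < P, ∀ e, τ (a + 1) ≤ e → e ≤ n →
        ∑ i ∈ Ico a (a + 1), ‖q i (∑ u ∈ Ico (τ (i + 1)) e, d u)‖ ^ 3 ≤
        (D * √(∑ u ∈ Ico (τ (a + 1)) e, s u + κ)) ^ 3 := by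
      intro a ha e he1 he2
      have h1 := key a ha e he2 he1
      rw [Nat.Ico_succ_singleton, Finset.sum_singleton]
      refine le_trans ?_ h1
      exact Finset.single_le_sum
        (f := fun i => ‖q i (∑ u ∈ Ico (τ (a + 1)) e, d u)‖ ^ 3) (fun i _ => by positivity)
        (Finset.mem_range.2 (Nat.lt_succ_self a))
    intro k
    induction k with
    | zero =>
      intro a c hac hc hk e he1 he2
      have h1 : c = a + 1 := by
        rw [pow_zero] at hk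
        omega
      subst h1
      have h2 := base a (by omega) e he1 he2
      have h3 : ((a + 1 - a : ℕ) : ℝ) = 1 := by
        rw [Nat.add_sub_cancel_left]
        norm_num
      rw [h3, one_mul]
      push_cast
      rw [zero_add, mul_one]
      exact h2
    | succ k ih =>
      intro a c hac hc hk e he1 he2
      have hτac : τ (a + 1) ≤ τ c := τmono _ _ (by omega)
      rcases Nat.lt_or_ge (a + 1) c with h1 | h1
      · -- split
        set m := a + (c - a) / 2 with hm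
        have hm1 : a < m := by omega
        have hm2 : m < c := by omega
        have hk1 : m - a ≤ 2 ^ k := by
          rw [pow_succ] at hk
          omega
        have hk2 : c - m ≤ 2 ^ k := by
          rw [pow_succ] at hk
          omega
        have hτ1 : τ (a + 1) ≤ τ (m + 1) := τmono _ _ (by omega)
        have hτ2 : τ (m + 1) ≤ e := (τmono _ _ (by omega)).trans he1
        have i1 := ih a m hm1 (by omega) hk1 (τ (m + 1)) (τmono _ _ (by omega)) (τn _)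
        have i2 := ih m c hm2 hc hk2 e he1 he2
        have i3 := key m (by omega) e he2 hτ2
        set SA := ∑ u ∈ Ico (τ (a + 1)) (τ (m + 1)), s u with hSA
        set SB := ∑ u ∈ Ico (τ (m + 1)) e, s u with hSB
        have hSAB : SA + SB = ∑ u ∈ Ico (τ (a + 1)) e, s u := σadd _ _ _ hτ1 hτ2
        have hSA0 : 0 ≤ SA := σ0 _ _
        have hSB0 : 0 ≤ SB := σ0 _ _
        have hca : ((m - a : ℕ) : ℝ) + ((c - m : ℕ) : ℝ) = ((c - a : ℕ) : ℝ) := by
          rw [← Nat.cast_add]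
          congr 1
          omega
        have hma0 : (0 : ℝ) ≤ ((m - a : ℕ) : ℝ) := Nat.cast_nonneg _
        have hcm1 : (1 : ℝ) ≤ ((c - m : ℕ) : ℝ) := by
          have : 1 ≤ c - m := by omega
          exact_mod_cast this
        set R := √(SA + SB + ((c - a : ℕ) : ℝ) * κ) with hR
        have hR2 : R ^ 2 = SA + SB + ((c - a : ℕ) : ℝ) * κ := Real.sq_sqrt (by positivity)
        have hR0 : 0 ≤ R := Real.sqrt_nonneg _
        rw [← hSAB]
        have e0 : D * (((k + 1 : ℕ) : ℝ) + 1) * R = D * ((k : ℝ) + 1) * R + D * R := by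
          push_cast
          ring
        rw [e0]
        refine mink3 (Ico a c)
          (fun i => if i < m then ‖q i (∑ u ∈ Ico (τ (i + 1)) (τ (m + 1)), d u)‖
            else ‖q i (∑ u ∈ Ico (τ (i + 1)) e, d u)‖)
          (fun i => if i < m then ‖q i (∑ u ∈ Ico (τ (m + 1)) e, d u)‖ else 0) _
          ?_ ?_ (by positivity) (by positivity) ?_ ?_ (fun i _ => norm_nonneg _) ?_
        · intro i _
          split_ifs <;> exact norm_nonneg _
        · intro i _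
          split_ifs
          · exact norm_nonneg _
          · exact le_rfl
        · rw [← Finset.sum_Ico_consecutive _ hm1.le hm2.le]
          have j1 : ∑ i ∈ Ico a m, (if i < m then ‖q i (∑ u ∈ Ico (τ (i + 1)) (τ (m + 1)), d u)‖
              else ‖q i (∑ u ∈ Ico (τ (i + 1)) e, d u)‖) ^ 3 =
              ∑ i ∈ Ico a m, ‖q i (∑ u ∈ Ico (τ (i + 1)) (τ (m + 1)), d u)‖ ^ 3 := by
            refine Finset.sum_congr rfl fun i hi => ?_
            rw [if_pos (Finset.mem_Ico.1 hi).2]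
          have j2 : ∑ i ∈ Ico m c, (if i < m then ‖q i (∑ u ∈ Ico (τ (i + 1)) (τ (m + 1)), d u)‖
              else ‖q i (∑ u ∈ Ico (τ (i + 1)) e, d u)‖) ^ 3 =
              ∑ i ∈ Ico m c, ‖q i (∑ u ∈ Ico (τ (i + 1)) e, d u)‖ ^ 3 := by
            refine Finset.sum_congr rfl fun i hi => ?_
            rw [if_neg (not_lt.2 (Finset.mem_Ico.1 hi).1)]
          rw [j1, j2]
          refine (add_le_add i1 i2).trans ?_
          refine (cube_add_le (by positivity) (by positivity)).trans (le_of_eq ?_)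
          congr 1
          rw [mul_pow, mul_pow (D * ((k : ℝ) + 1)), Real.sq_sqrt (by positivity),
            Real.sq_sqrt (by positivity), ← mul_add]
          have j3 : SA + ((m - a : ℕ) : ℝ) * κ + (SB + ((c - m : ℕ) : ℝ) * κ) = R ^ 2 := by
            rw [hR2, ← hca]
            ring
          rw [j3, ← mul_pow, Real.sqrt_sq (by positivity)]
        · have j1 : ∑ i ∈ Ico a c, (if i < m then ‖q i (∑ u ∈ Ico (τ (m + 1)) e, d u)‖
              else 0) ^ 3 ≤ ∑ i ∈ range (m + 1), ‖q i (∑ u ∈ Ico (τ (m + 1)) e, d u)‖ ^ 3 := by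
            rw [← Finset.sum_Ico_consecutive _ hm1.le hm2.le]
            have j2 : ∑ i ∈ Ico m c, (if i < m then ‖q i (∑ u ∈ Ico (τ (m + 1)) e, d u)‖
              else 0) ^ 3 = 0 := by
              refine Finset.sum_eq_zero fun i hi => ?_
              rw [if_neg (not_lt.2 (Finset.mem_Ico.1 hi).1)]
              norm_num
            rw [j2, add_zero]
            have j3 : ∑ i ∈ Ico a m, (if i < m then ‖q i (∑ u ∈ Ico (τ (m + 1)) e, d u)‖
              else 0) ^ 3 = ∑ i ∈ Ico a m, ‖q i (∑ u ∈ Ico (τ (m + 1)) e, d u)‖ ^ 3 := by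
              refine Finset.sum_congr rfl fun i hi => ?_
              rw [if_pos (Finset.mem_Ico.1 hi).2]
            rw [j3]
            refine Finset.sum_le_sum_of_subset_of_nonneg ?_ (fun i _ _ => by positivity)
            intro i hi
            rw [Finset.mem_Ico] at hi
            rw [Finset.mem_range]
            omega
          refine j1.trans (i3.trans ?_)
          refine pow_le_pow_left₀ (by positivity) (mul_le_mul_of_nonneg_left ?_ hD) 3
          refine Real.sqrt_le_sqrt ?_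
          have j4 : κ ≤ ((c - m : ℕ) : ℝ) * κ := le_mul_of_one_le_left hκ hcm1
          have j5 : 0 ≤ ((m - a : ℕ) : ℝ) * κ := by positivity
          rw [← hca]
          linarith
        · intro i hi
          split_ifs with j1
          · exact Qtri i _ _ _ (τmono _ _ (by omega)) hτ2
          · rw [add_zero]
      · have h2 : c = a + 1 := by omega
        subst h2
        have h3 := base a (by omega) e he1 he2
        refine h3.trans (pow_le_pow_left₀ (by positivity) ?_ 3)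
        have h4 : ((a + 1 - a : ℕ) : ℝ) = 1 := by
          rw [Nat.add_sub_cancel_left]
          norm_num
        rw [h4, one_mul]
        refine mul_le_mul_of_nonneg_right ?_ (Real.sqrt_nonneg _)
        refine le_mul_of_one_le_right hD ?_
        have : (0 : ℝ) ≤ ((k + 1 : ℕ) : ℝ) := Nat.cast_nonneg _
        linarith
  -- conclusion
  rcases Nat.eq_zero_or_pos P with hP0 | hP0
  · subst hP0
    simp only [Finset.range_zero, Finset.sum_empty]
    positivity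
  set R := √(1 + P * κ) with hR
  have hR0 : 0 ≤ R := Real.sqrt_nonneg _
  have hR2 : R ^ 2 = 1 + P * κ := Real.sq_sqrt (by positivity)
  have c1 : ∑ i ∈ range P, ‖q i (∑ u ∈ range (τ i), d u)‖ ^ 3 ≤
      (2 * δ * (P : ℝ) ^ ((1 : ℝ) / 3)) ^ 3 := by
    have h1 : ∀ i ∈ range P, ‖q i (∑ u ∈ range (τ i), d u)‖ ^ 3 ≤ (2 * δ) ^ 3 := by
      intro i hi
      rw [Finset.mem_range] at hi
      refine pow_le_pow_left₀ (norm_nonneg _) ?_ 3
      have h2 := hq1 i hi (∑ u ∈ range (τ i), d u)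
      have h3 := hin (2 * i) (by omega) (τ i) (τb i _ le_rfl (by omega))
      have h4 := hin (2 * i + 1) (by omega) (τ i) (τb i _ (by omega) (by omega))
      linarith
    refine (Finset.sum_le_sum h1).trans (le_of_eq ?_)
    rw [Finset.sum_const, Finset.card_range, nsmul_eq_mul, mul_pow (2 * δ), ← Real.rpow_natCast
      ((P : ℝ) ^ ((1 : ℝ) / 3)), ← Real.rpow_mul (Nat.cast_nonneg _)]
    norm_num
    ring
  have c2 : ∑ i ∈ range P, ‖q i (∑ u ∈ Ico (τ i) (τ (i + 1)), d u)‖ ^ 3 ≤ (2 * D * R) ^ 3 := by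
    refine l3_le_l2 _ _ (fun i _ => norm_nonneg _) (by positivity) ?_
    have h1 : ∀ i ∈ range P, ‖q i (∑ u ∈ Ico (τ i) (τ (i + 1)), d u)‖ ^ 2 ≤
        4 * D ^ 2 * (∑ u ∈ Ico (τ i) (τ (i + 1)), s u + κ) := by
      intro i hi
      rw [Finset.mem_range] at hi
      have h2 : ‖q i (∑ u ∈ Ico (τ i) (τ (i + 1)), d u)‖ ≤
          2 * (D * √(∑ u ∈ Ico (τ i) (τ (i + 1)), s u + κ)) := by
        rcases (τmono i (i + 1) (Nat.le_succ i)).eq_or_lt with h3 | h3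
        · rw [← h3, Finset.Ico_self]
          simp only [Finset.sum_empty, map_zero, norm_zero]
          positivity
        · have h4 := τn (i + 1)
          rcases τmem i with h5 | ⟨l, h5, h6, h7⟩
          · omega
          · have h8 := hincL l h6 (by omega) (τ (i + 1)) h4 (by omega)
            rw [h7] at h8
            exact (hq2 i hi _).trans (mul_le_mul_of_nonneg_left h8 (by norm_num))
      refine (pow_le_pow_left₀ (norm_nonneg _) h2 2).trans (le_of_eq ?_)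
      rw [mul_pow, mul_pow, Real.sq_sqrt (add_nonneg (σ0 _ _) hκ)]
      ring
    refine (Finset.sum_le_sum h1).trans ?_
    rw [← Finset.mul_sum, Finset.sum_add_distrib, Finset.sum_const, Finset.card_range,
      nsmul_eq_mul]
    have h2 : ∀ N, ∑ i ∈ range N, ∑ u ∈ Ico (τ i) (τ (i + 1)), s u =
        ∑ u ∈ Ico (τ 0) (τ N), s u := by
      intro N
      induction N with
      | zero => simp
      | succ N ih =>
        rw [Finset.sum_range_succ, ih]
        exact σadd _ _ _ (τmono _ _ (Nat.zero_le _)) (τmono _ _ (Nat.le_succ _))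
    rw [h2 P]
    have h3 := σ1 (τ 0) (τ P) (τmono _ _ (Nat.zero_le _)) (τn _)
    have h4 : (2 * D * R) ^ 2 = 4 * D ^ 2 * (1 + P * κ) := by
      rw [mul_pow, hR2]
      ring
    rw [h4]
    exact mul_le_mul_of_nonneg_left (by linarith) (by positivity)
  have c3 : ∑ i ∈ range P, ‖q i (∑ u ∈ Ico (τ (i + 1)) n, d u)‖ ^ 3 ≤
      (D * (h + 1) * R) ^ 3 := by
    have h1 := claim h 0 P hP0 le_rfl (by simpa using hP) n (τn _) le_rfl
    rw [← Finset.range_eq_Ico] at h1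
    refine h1.trans (pow_le_pow_left₀ (by positivity) (mul_le_mul_of_nonneg_left ?_
      (by positivity)) 3)
    refine Real.sqrt_le_sqrt ?_
    have h2 := σ1 (τ (0 + 1)) n (τn _) le_rfl
    rw [Nat.sub_zero]
    linarith
  have c4 : ∑ i ∈ range P, ‖q i (∑ u ∈ Ico (τ i) n, d u)‖ ^ 3 ≤
      (2 * D * R + D * (h + 1) * R) ^ 3 :=
    mink3 (range P) (fun i => ‖q i (∑ u ∈ Ico (τ i) (τ (i + 1)), d u)‖)
      (fun i => ‖q i (∑ u ∈ Ico (τ (i + 1)) n, d u)‖) _ (fun i _ => norm_nonneg _)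
      (fun i _ => norm_nonneg _) (by positivity) (by positivity) c2 c3 (fun i _ => norm_nonneg _)
      (fun i _ => Qtri i _ _ _ (τmono _ _ (Nat.le_succ i)) (τn _))
  have c5 := mink3 (range P) (fun i => ‖q i (∑ u ∈ range (τ i), d u)‖)
      (fun i => ‖q i (∑ u ∈ Ico (τ i) n, d u)‖) (fun i => ‖q i (∑ u ∈ range n, d u)‖)
      (fun i _ => norm_nonneg _) (fun i _ => norm_nonneg _) (by positivity) (by positivity) c1 c4
      (fun i _ => norm_nonneg _) (fun i _ => by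
        rw [Finset.range_eq_Ico, Finset.range_eq_Ico]
        exact Qtri i _ _ _ (Nat.zero_le _) (τn _))
  refine c5.trans (le_of_eq ?_)
  congr 1
  ring

end Pool.Agent.HB
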