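import Pool.Agent.HB.M.Uni

/-!
# HB.M.Ext: second moment of `Z` for all dyadic martingales

PROOF.  (0) *Scaling of `uni`*: if `AllP T (var N ≤ β)`, `β > 0`, then `Ex (Z(sum)⁴) ≤ C0 h⁸ β² Ex 1_{var>0}` (apply `uni` to the tree
scaled by `β^{-1/2}` (`Ex_scale`); `var N (w.map (a • ·)) = a² var N w`, `Z(a x) = |a| Z x`).
(1) Let `β0 = Ex (var N)`.  If `β0 = 0` then `var = 0` on all paths, so `N d = 0` and `Z(sum) = 0`.  Let `β0 > 0`, choose `l` with
`var N w ≤ 4^l β0` on all paths (`AllP_bdd`).  By `sum_levels`, `w.sum = x_0 + ∑_{i<l} x_{i+1}`, `x_j` = sums of the truncated paths.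
`a_j = Z(x_j)`, `Z(w.sum) ≤ ∑_{j≤l} a_j`.  `trT_eq`, `trT_all`, `trl_var_le`, `trl_var_pos` and (0):
`Ex a_j⁴ ≤ C0 h⁸ 16^j β0² P_j`, `P_0 = 1`, `P_j = P(var > 4^{j-1} β0)`, and `a_j = 0` unless `j = 0` or `var > 4^{j-1}β0`
(if the kept variation is `0` then `Z(x_j) ≤ ∑ N = 0`).
(2) `X = max 1 √(var/β0)`.  `a_j ≠ 0 ⟹ 2^j ≤ 2X`.  Cauchy-Schwarz:
`(∑ a_j)² ≤ (∑_{2^j ≤ 2X} 2^{j/2}) ∑_j 2^{-j/2} a_j² ≤ 5 X^{1/2} ∑_j 2^{-j/2} a_j²`.
With `T2 = √C0 h⁴` and AM-GM: `X^{1/2} 2^{-j/2} a_j² ≤ ½ (a_j⁴/(T2 4^j β0) + T2 4^j β0 · X 2^{-j} 1_{2^j≤2X})`.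
Expectation: `≤ ½ (T2 4^j β0 P_j + T2 2^j β0 Ex(X 1_{2^j≤2X}))`; `∑_j 4^j 1_{2^j≤2X} ≤ (4/3)(2X)² ≤ 6X²`, `∑_j 2^j 1_{2^j≤2X} ≤ 4X`,
`Ex X² ≤ 1 + Ex var/β0 = 2`.  Total `≤ 5 · ½ T2 β0 (12 + 8) = 50 T2 β0`.
-/

open Finset Real

namespace Pool.Agent.HB

/-- the numerical inequality for the levels -/
theorem levels_sq (a : ℕ → ℝ) (_ : ∀ j, 0 ≤ a j) {J l : ℕ} (hJ : J ≤ l)
    (h0 : ∀ j, J < j → a j = 0) {K : ℝ} (hK : 0 < K) :
    (∑ j ∈ range (l + 1), a j) ^ 2 ≤
      3 / 2 * (∑ j ∈ range (l + 1), a j ^ 4 / (K * 4 ^ j) + K * (16 / 7 * 4 ^ J)) := by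
  have h1 : ∑ j ∈ range (l + 1), a j = ∑ j ∈ range (J + 1), a j := by
    symm
    refine Finset.sum_subset (fun j hj => ?_) (fun j _ hj => h0 j ?_)
    · rw [Finset.mem_range] at hj ⊢
      omega
    · rw [Finset.mem_range] at hj
      omega
  have h2 : ∑ j ∈ range (J + 1), a j ^ 4 / (K * 4 ^ j) ≤
      ∑ j ∈ range (l + 1), a j ^ 4 / (K * 4 ^ j) := by
    refine Finset.sum_le_sum_of_subset_of_nonneg (fun j hj => ?_) (fun j _ _ => by positivity)
    rw [Finset.mem_range] at hj ⊢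
    omega
  have h3 : (∑ j ∈ range (J + 1), a j) ^ 2 ≤
      (∑ j ∈ range (J + 1), (3 / 2 : ℝ) ^ j) * ∑ j ∈ range (J + 1), a j ^ 2 / (3 / 2) ^ j := by
    refine Finset.sum_sq_le_sum_mul_sum_of_sq_le_mul _ (fun j _ => by positivity)
      (fun j _ => by positivity) (fun j _ => le_of_eq ?_)
    field_simp
  have h4 : ∀ J : ℕ, ∑ j ∈ range (J + 1), (3 / 2 : ℝ) ^ j ≤ 3 * (3 / 2) ^ J := by
    intro J
    induction J with
    | zero => norm_num
    | succ J ih =>
      rw [Finset.sum_range_succ, pow_succ]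
      linarith
  have h5 : ∀ J : ℕ, ∑ j ∈ range (J + 1), (4 : ℝ) ^ j * ((3 / 2) ^ J / (3 / 2) ^ j) ^ 2 ≤
      16 / 7 * 4 ^ J := by
    intro J
    induction J with
    | zero => norm_num
    | succ J ih =>
      rw [Finset.sum_range_succ, div_self (by positivity)]
      have e1 : ∑ j ∈ range (J + 1), (4 : ℝ) ^ j * ((3 / 2) ^ (J + 1) / (3 / 2) ^ j) ^ 2 =
          9 / 4 * ∑ j ∈ range (J + 1), (4 : ℝ) ^ j * ((3 / 2) ^ J / (3 / 2) ^ j) ^ 2 := by
        rw [Finset.mul_sum]
        refine Finset.sum_congr rfl fun j _ => ?_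
        rw [pow_succ]
        ring
      rw [e1, pow_succ]
      linarith
  have h6 : (∑ j ∈ range (J + 1), (3 / 2 : ℝ) ^ j) * ∑ j ∈ range (J + 1), a j ^ 2 / (3 / 2) ^ j ≤
      3 / 2 * (∑ j ∈ range (J + 1), a j ^ 4 / (K * 4 ^ j) + K * (16 / 7 * 4 ^ J)) := by
    have e0 : 0 ≤ ∑ j ∈ range (J + 1), a j ^ 2 / (3 / 2) ^ j :=
      Finset.sum_nonneg fun j _ => by positivity
    refine (mul_le_mul_of_nonneg_right (h4 J) e0).trans ?_
    rw [Finset.mul_sum]
    have e1 : ∀ j ∈ range (J + 1), 3 * (3 / 2 : ℝ) ^ J * (a j ^ 2 / (3 / 2) ^ j) ≤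
        3 / 2 * (a j ^ 4 / (K * 4 ^ j) + K * (4 ^ j * ((3 / 2) ^ J / (3 / 2) ^ j) ^ 2)) := by
      intro j _
      set r : ℝ := (3 / 2) ^ J / (3 / 2) ^ j with hr
      have e2 : 3 * (3 / 2 : ℝ) ^ J * (a j ^ 2 / (3 / 2) ^ j) = 3 * (r * a j ^ 2) := by
        rw [hr]
        ring
      rw [e2]
      set M : ℝ := K * 4 ^ j with hM
      have hM0 : 0 < M := by positivity
      have e3 : K * (4 ^ j * r ^ 2) = M * r ^ 2 := by
        rw [hM]
        ring
      rw [e3]
      have e4 : a j ^ 4 / M + M * r ^ 2 - 2 * (r * a j ^ 2) = (a j ^ 2 - M * r) ^ 2 / M := by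
        field_simp
        ring
      have e5 : 0 ≤ (a j ^ 2 - M * r) ^ 2 / M := by positivity
      linarith
    refine (Finset.sum_le_sum e1).trans ?_
    rw [← Finset.mul_sum, Finset.sum_add_distrib, ← Finset.mul_sum]
    have e6 := mul_le_mul_of_nonneg_left (h5 J) hK.le
    linarith
  rw [h1]
  refine (h3.trans h6).trans ?_
  linarith

section
variable {V : Type} [AddCommGroup V] [Module ℝ V]

theorem Z_sum_le (S : TS V) {ι : Type*} (s : Finset ι) (x : ι → V) :
    S.Z (∑ j ∈ s, x j) ≤ ∑ j ∈ s, S.Z (x j) := by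
  classical
  induction s using Finset.induction_on with
  | empty => rw [Finset.sum_empty, Finset.sum_empty, S.Z_zero]
  | insert i s hi ih =>
    rw [Finset.sum_insert hi, Finset.sum_insert hi]
    exact (Z_add S _ _).trans (by linarith)

theorem var_map_smul (S : TS V) (a : ℝ) (w : List V) :
    var S.N (w.map (fun d => a • d)) = a ^ 2 * var S.N w := by
  induction w with
  | nil => simp [var]
  | cons d w ih =>
    rw [List.map_cons, var_cons, var_cons, ih, S.Nsmul, mul_pow, sq_abs]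
    ring

theorem sum_map_smul (a : ℝ) (w : List V) : (w.map (fun d => a • d)).sum = a • w.sum := by
  induction w with
  | nil => simp
  | cons d w ih => rw [List.map_cons, List.sum_cons, List.sum_cons, ih, smul_add]

/-- lower end of the level `j` -/
noncomputable def lvl (β : ℝ) (j : ℕ) : ℝ := if j = 0 then -1 else 4 ^ (j - 1) * β

/-- the level `j` may be nonempty -/
def Pl (N : V → ℝ) (β : ℝ) (j : ℕ) (w : List V) : Prop := j = 0 ∨ 4 ^ j * β < 4 * var N w

omit [Module ℝ V] in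
theorem Pl_of_pos {N : V → ℝ} (h0 : N 0 = 0) {β : ℝ} {j : ℕ} {w : List V}
    (h : 0 < var N (trl N (lvl β j) (4 ^ j * β) 0 w)) : Pl N β j w := by
  have h1 := trl_var_pos N h0 _ _ w h
  unfold lvl at h1
  rcases Nat.eq_zero_or_pos j with hj | hj
  · exact Or.inl hj
  · right
    rw [if_neg hj.ne'] at h1
    have h2 : (4 : ℝ) ^ j = 4 ^ (j - 1) * 4 := by
      rw [← pow_succ]
      congr 1
      omega
    rw [h2]
    linarith

theorem TS.N_zero (S : TS V) : S.N 0 = 0 := by
  have h := S.Nsmul 0 0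
  rw [abs_zero, zero_mul, zero_smul] at h
  exact h

theorem level_zero (S : TS V) {β : ℝ} {j : ℕ} {w : List V} (h : ¬ Pl S.N β j w) :
    S.Z (trl S.N (lvl β j) (4 ^ j * β) 0 w).sum = 0 := by
  have h1 : var S.N (trl S.N (lvl β j) (4 ^ j * β) 0 w) ≤ 0 := by
    by_contra hcon
    exact h (Pl_of_pos S.N_zero (not_le.1 hcon))
  have h2 := semi_sum S.Z_zero.le (Z_add S) (Z_le_N S) (trl S.N (lvl β j) (4 ^ j * β) 0 w)
  rw [mapN_zero _ h1] at h2
  exact le_antisymm h2 (Z_nonneg S _)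

end

theorem ext_two : ∃ C1 : ℝ, 0 < C1 ∧ ∀ (V : Type) [AddCommGroup V] [Module ℝ V] (S : TS V)
    (T : Tr V), Ex T (fun w => S.Z w.sum ^ 2) ≤ C1 * (S.h : ℝ) ^ 4 * Ex T (var S.N) := by
  classical
  obtain ⟨C0, hC0, huni⟩ := uni
  refine ⟨28 * √C0, by positivity, ?_⟩
  intro V _ _ S T
  have hh : (1 : ℝ) ≤ S.h := by exact_mod_cast S.h1
  -- scaling
  have hscale : ∀ (T : Tr V) (β : ℝ), 0 < β → AllP T (fun w => var S.N w ≤ β) →
      Ex T (fun w => S.Z w.sum ^ 4) ≤
        C0 * (S.h : ℝ) ^ 8 * β ^ 2 * Ex T (ind (fun w => 0 < var S.N w)) := by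
    intro T β hβ hT
    set a : ℝ := (√β)⁻¹ with ha
    have hsβ : 0 < √β := Real.sqrt_pos.2 hβ
    have ha0 : 0 < a := by positivity
    have ha2 : a ^ 2 = β⁻¹ := by rw [ha, inv_pow, Real.sq_sqrt hβ.le]
    obtain ⟨T', h1, h2⟩ := Ex_scale a T
    have h3 : AllP T' (fun w => var S.N w ≤ 1) := by
      rw [h2]
      refine AllP_mono T hT fun w hw => ?_
      rw [var_map_smul, ha2, inv_mul_le_iff₀ hβ, mul_one]
      exact hw
    have h4 := huni V S T' h3
    rw [h1, h1] at h4
    have h5 : Ex T (fun w => S.Z (w.map (fun d => a • d)).sum ^ 4) =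
        a ^ 4 * Ex T (fun w => S.Z w.sum ^ 4) := by
      rw [← Ex_smul]
      congr 1
      funext w
      rw [sum_map_smul, Z_smul, abs_of_pos ha0, mul_pow]
    have h6 : Ex T (fun w => ind (fun w => 0 < var S.N w) (w.map (fun d => a • d))) =
        Ex T (ind (fun w => 0 < var S.N w)) := by
      congr 1
      funext w
      unfold ind
      have h7 : 0 < var S.N (w.map (fun d => a • d)) ↔ 0 < var S.N w := by
        rw [var_map_smul]
        exact mul_pos_iff_of_pos_left (by positivity)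
      simp only [h7]
    rw [h5, h6] at h4
    have h8 : a ^ 4 * β ^ 2 = 1 := by
      have : a ^ 4 = (a ^ 2) ^ 2 := by ring
      rw [this, ha2, ← mul_pow, inv_mul_cancel₀ hβ.ne', one_pow]
    calc Ex T (fun w => S.Z w.sum ^ 4) = β ^ 2 * (a ^ 4 * Ex T (fun w => S.Z w.sum ^ 4)) := by
          rw [← mul_assoc, mul_comm (β ^ 2), h8, one_mul]
      _ ≤ β ^ 2 * (C0 * (S.h : ℝ) ^ 8 * Ex T (ind (fun w => 0 < var S.N w))) :=
          mul_le_mul_of_nonneg_left h4 (by positivity)
      _ = _ := by ring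
  -- the main estimate
  have main : ∀ β : ℝ, 0 < β → Ex T (var S.N) ≤ β →
      Ex T (fun w => S.Z w.sum ^ 2) ≤ 28 * √C0 * (S.h : ℝ) ^ 4 * β := by
    intro β hβ hTβ
    set K : ℝ := √C0 * (S.h : ℝ) ^ 4 * β with hK
    have hsC : 0 < √C0 := Real.sqrt_pos.2 hC0
    have hK0 : 0 < K := by positivity
    have hK2 : K ^ 2 = C0 * (S.h : ℝ) ^ 8 * β ^ 2 := by
      rw [hK, mul_pow, mul_pow, Real.sq_sqrt hC0.le]
      ring
    obtain ⟨B, hB⟩ := AllP_bdd T (fun w => var S.N w)
    obtain ⟨l, hl⟩ : ∃ l : ℕ, B ≤ 4 ^ l * β := by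
      obtain ⟨l, hl⟩ := pow_unbounded_of_one_lt (B / β) (show (1 : ℝ) < 4 by norm_num)
      refine ⟨l, ?_⟩
      rw [div_lt_iff₀ hβ] at hl
      exact hl.le
    set A : ℕ → List V → ℝ := fun j w => S.Z (trl S.N (lvl β j) (4 ^ j * β) 0 w).sum with hA
    -- fourth moments
    have hA4 : ∀ j, Ex T (fun w => A j w ^ 4) ≤ K ^ 2 * 16 ^ j * Ex T (ind (Pl S.N β j)) := by
      intro j
      have e1 : Ex T (fun w => A j w ^ 4) =
          Ex (trT S.N (lvl β j) (4 ^ j * β) 0 T) (fun w => S.Z w.sum ^ 4) := by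
        rw [trT_eq S.N S.N_neg]
      have e2 : AllP (trT S.N (lvl β j) (4 ^ j * β) 0 T) (fun w => var S.N w ≤ 4 ^ j * β) := by
        rw [trT_all S.N S.N_neg]
        exact AllP_of T fun w => trl_var_le S.N S.N_zero _ _ (by positivity) w
      have e3 := hscale _ (4 ^ j * β) (by positivity) e2
      rw [trT_eq S.N S.N_neg _ _ _ _ (ind (fun w => 0 < var S.N w))] at e3
      rw [e1]
      refine e3.trans ?_
      have e4 : C0 * (S.h : ℝ) ^ 8 * (4 ^ j * β) ^ 2 = K ^ 2 * 16 ^ j := by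
        rw [hK2, mul_pow, ← pow_mul, mul_comm j 2, pow_mul]
        norm_num
        ring
      rw [e4]
      refine mul_le_mul_of_nonneg_left (Ex_mono T (AllP_of T fun w => ?_)) (by positivity)
      by_cases hp : 0 < var S.N (trl S.N (lvl β j) (4 ^ j * β) 0 w)
      · have e5 : ind (Pl S.N β j) w = 1 := by
          unfold ind
          rw [if_pos (Pl_of_pos S.N_zero hp)]
        rw [e5]
        unfold ind
        split_ifs <;> norm_num
      · have e5 : ind (fun w => 0 < var S.N w) (trl S.N (lvl β j) (4 ^ j * β) 0 w) = 0 := by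
          unfold ind
          rw [if_neg hp]
        rw [e5]
        exact ind_nonneg _ _
    -- pointwise
    have hJ : ∀ w, var S.N w ≤ 4 ^ l * β → ∃ J ≤ l, (∀ j, J < j → ¬ Pl S.N β j w) ∧
        (4 : ℝ) ^ J ≤ 1 + 4 * (var S.N w / β) := by
      intro w hw
      have hv0 := var_nonneg S.N w
      have hspec : Pl S.N β (Nat.findGreatest (fun j => Pl S.N β j w) l) w :=
        Nat.findGreatest_spec (P := fun j => Pl S.N β j w) (m := 0) (Nat.zero_le l) (Or.inl rfl)
      refine ⟨Nat.findGreatest (fun j => Pl S.N β j w) l, Nat.findGreatest_le l, ?_, ?_⟩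
      · intro j hj hPj
        rcases le_or_gt j l with h1 | h1
        · exact Nat.findGreatest_is_greatest hj h1 hPj
        · rcases hPj with h2 | h2
          · omega
          · have h3 : (4 : ℝ) ^ (l + 1) * β ≤ 4 ^ j * β :=
              mul_le_mul_of_nonneg_right (pow_le_pow_right₀ (by norm_num) h1) hβ.le
            rw [pow_succ] at h3
            linarith
      · have hvβ : 0 ≤ var S.N w / β := by positivity
        rcases hspec with h1 | h1
        · rw [h1, pow_zero]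
          linarith
        · have h2 : (4 : ℝ) ^ (Nat.findGreatest (fun j => Pl S.N β j w) l) <
              4 * var S.N w / β := by
            rw [lt_div_iff₀ hβ]
            exact h1
          rw [mul_div_assoc] at h2
          linarith
    have hgeo : ∀ J : ℕ, ∑ j ∈ range (J + 1), (4 : ℝ) ^ j ≤ 4 / 3 * 4 ^ J := by
      intro J
      induction J with
      | zero => norm_num
      | succ J ih =>
        rw [Finset.sum_range_succ, pow_succ]
        linarith
    have hallw : AllP T (fun w => var S.N w ≤ 4 ^ l * β) := AllP_mono T hB fun w hw => hw.trans hl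
    have hpt : AllP T (fun w => S.Z w.sum ^ 2 ≤ 3 / 2 * (∑ j ∈ range (l + 1),
        (1 / (K * 4 ^ j)) * A j w ^ 4 + K * (16 / 7) * (1 + 4 / β * var S.N w))) := by
      refine AllP_mono T hallw fun w hw => ?_
      obtain ⟨J, hJl, hJ0, hJ4⟩ := hJ w hw
      have e1 : w.sum = ∑ j ∈ range (l + 1), (trl S.N (lvl β j) (4 ^ j * β) 0 w).sum := by
        rw [Finset.sum_range_succ', add_comm]
        have := sum_levels S.N β hβ.le l w hw
        simpa [lvl] using this
      have e2 : S.Z w.sum ≤ ∑ j ∈ range (l + 1), A j w := by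
        nth_rewrite 1 [e1]
        exact Z_sum_le S _ _
      have e3 := levels_sq (fun j => A j w) (fun j => Z_nonneg S _) hJl
        (fun j hj => level_zero S (hJ0 j hj)) hK0
      refine (pow_le_pow_left₀ (Z_nonneg S _) e2 2).trans (e3.trans ?_)
      refine mul_le_mul_of_nonneg_left (add_le_add (Finset.sum_le_sum fun j _ => ?_) ?_)
        (by norm_num)
      · rw [div_mul_eq_mul_div, one_mul]
      · rw [mul_assoc K]
        refine mul_le_mul_of_nonneg_left (mul_le_mul_of_nonneg_left ?_ (by norm_num)) hK0.le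
        have : 4 * (var S.N w / β) = 4 / β * var S.N w := by ring
        linarith
    have h1 := Ex_mono T hpt
    rw [Ex_smul, Ex_add, Ex_sum, Ex_smul, Ex_add, Ex_const, Ex_smul] at h1
    have h2 : ∑ j ∈ range (l + 1), Ex T (fun w => 1 / (K * 4 ^ j) * A j w ^ 4) ≤
        K * (4 / 3 * 5) := by
      have e1 : ∀ j ∈ range (l + 1), Ex T (fun w => 1 / (K * 4 ^ j) * A j w ^ 4) ≤
          K * Ex T (fun w => 4 ^ j * ind (Pl S.N β j) w) := by
        intro j _
        rw [Ex_smul, Ex_smul]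
        refine (mul_le_mul_of_nonneg_left (hA4 j) (by positivity)).trans (le_of_eq ?_)
        have : (16 : ℝ) ^ j = 4 ^ j * 4 ^ j := by
          rw [← mul_pow]
          norm_num
        rw [this]
        field_simp
      refine (Finset.sum_le_sum e1).trans ?_
      rw [← Finset.mul_sum, ← Ex_sum T (range (l + 1)) (fun j w => 4 ^ j * ind (Pl S.N β j) w)]
      refine mul_le_mul_of_nonneg_left ?_ hK0.le
      have e2 : AllP T (fun w => ∑ j ∈ range (l + 1), 4 ^ j * ind (Pl S.N β j) w ≤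
          4 / 3 * (1 + 4 / β * var S.N w)) := by
        refine AllP_mono T hallw fun w hw => ?_
        obtain ⟨J, hJl, hJ0, hJ4⟩ := hJ w hw
        have e3 : ∑ j ∈ range (l + 1), 4 ^ j * ind (Pl S.N β j) w ≤
            ∑ j ∈ range (J + 1), (4 : ℝ) ^ j := by
          have e4 : ∑ j ∈ range (l + 1), 4 ^ j * ind (Pl S.N β j) w =
              ∑ j ∈ range (J + 1), 4 ^ j * ind (Pl S.N β j) w := by
            symm
            refine Finset.sum_subset (fun j hj => ?_) (fun j _ hj => ?_)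
            · rw [Finset.mem_range] at hj ⊢
              omega
            · rw [Finset.mem_range] at hj
              have e5 : ind (Pl S.N β j) w = 0 := by
                unfold ind
                rw [if_neg (hJ0 j (by omega))]
              rw [e5, mul_zero]
          rw [e4]
          refine Finset.sum_le_sum fun j _ => ?_
          have e6 : ind (Pl S.N β j) w ≤ 1 := by
            unfold ind
            split_ifs <;> norm_num
          have e7 : (0 : ℝ) < 4 ^ j := by positivity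
          nlinarith
        have e8 : 4 * (var S.N w / β) = 4 / β * var S.N w := by ring
        have e9 := hgeo J
        linarith
      refine (Ex_mono T e2).trans ?_
      rw [Ex_smul, Ex_add, Ex_const, Ex_smul]
      have e3 : 4 / β * Ex T (var S.N) ≤ 4 := by
        rw [div_mul_eq_mul_div, div_le_iff₀ hβ]
        linarith
      linarith
    have h3 : 4 / β * Ex T (var S.N) ≤ 4 := by
      rw [div_mul_eq_mul_div, div_le_iff₀ hβ]
      linarith
    have h4 : K * (16 / 7) * (1 + 4 / β * Ex T (var S.N)) ≤ K * (16 / 7) * 5 :=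
      mul_le_mul_of_nonneg_left (by linarith) (by positivity)
    have h5 : 28 * √C0 * (S.h : ℝ) ^ 4 * β = 28 * K := by
      rw [hK]
      ring
    rw [h5]
    refine h1.trans ?_
    nlinarith
  have hv0 : 0 ≤ Ex T (var S.N) := by
    rw [← Ex_const T 0]
    exact Ex_mono T (AllP_of T fun w => var_nonneg S.N w)
  refine le_of_forall_pos_le_add fun ε hε => ?_
  have hc : 0 < 28 * √C0 * (S.h : ℝ) ^ 4 := by
    have := Real.sqrt_pos.2 hC0
    positivity
  have h1 := main (Ex T (var S.N) + ε / (28 * √C0 * (S.h : ℝ) ^ 4)) (by positivity)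
    (by
      have : 0 < ε / (28 * √C0 * (S.h : ℝ) ^ 4) := by positivity
      linarith)
  rw [mul_add, mul_div_cancel₀ _ hc.ne'] at h1
  exact h1

end Pool.Agent.HB
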