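import Pool.Agent.HB.M.Defs
import Pool.Agent.HB.L.Smooth

/-!
# HB.M.L3: the seminorms `TS.B` are 2-smooth, `TS.Z` is a seminorm

PROOF.  `ZP q x σ` (for any list) `= ∑_{i<r} ‖q_i x‖³` for finitely many of the linear functionals `q`.  Put
`y_x ∈ CV`, `(y_x)_i = q_i x` for `i < r`, `0` otherwise (real linear in `x`), and `Γ1 = {γ | 0 ≤ γ ∧ ∀ i, γ i ≤ 1}`, a `GoodSet`.
`LG Γ1 y = (∑ ‖y_i‖³)^{1/3}` (the sup is attained at `γ = 1` on the support).  So `(ZP q x σ)^{1/3} = LG Γ1 (y_x)` and `Sm` follows from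
`LG_smul`, `LG_add_le`, `smooth_sq`.
`TS.Z x` is the maximum over the (finite, nonempty) set of even nodes of these seminorms (cube root of the max).
-/

open Finset

namespace Pool.Agent.HB

variable {V : Type} [AddCommGroup V] [Module ℝ V]

theorem ZP_nonneg (q : List ℕ → V →ₗ[ℝ] ℂ) (x : V) (σ : List ℕ) : 0 ≤ ZP q x σ := by
  match σ with
  | [] => exact le_rfl
  | [_] => exact le_rfl
  | n :: m :: σ =>
    simp only [ZP]
    have := ZP_nonneg q x σ
    positivity

/-- the unit ball of coordinates -/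
private def G1 : Set RV := {γ | 0 ≤ γ ∧ ∀ i, γ i ≤ 1}

private theorem good1 : GoodSet G1 where
  zero := ⟨le_rfl, fun i => by rw [Finsupp.zero_apply]; exact zero_le_one⟩
  nn := fun γ h => h.1
  le_one := fun γ h => h.2
  conv := by
    intro x hx y hy a b ha hb hab
    refine ⟨fun i => ?_, fun i => ?_⟩
    · show 0 ≤ (a • x + b • y) i
      rw [Finsupp.add_apply, Finsupp.smul_apply, Finsupp.smul_apply, smul_eq_mul, smul_eq_mul]
      have h1 : 0 ≤ x i := hx.1 i
      have h2 : 0 ≤ y i := hy.1 i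
      positivity
    · rw [Finsupp.add_apply, Finsupp.smul_apply, Finsupp.smul_apply, smul_eq_mul, smul_eq_mul]
      have h1 := hx.2 i
      have h2 := hy.2 i
      nlinarith
  res := by
    intro γ hγ E
    refine ⟨res_nonneg E hγ.1, fun i => ?_⟩
    classical
    rw [res_apply]
    split_ifs
    · exact hγ.2 i
    · exact zero_le_one

private theorem LG1 (y : CV) : LG G1 y ^ 3 = ∑ i ∈ y.support, ‖y i‖ ^ 3 := by
  apply le_antisymm (LG_le_sum good1 y)
  set γ : RV := Finsupp.indicator y.support (fun _ _ => (1 : ℝ)) with hγ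
  have hγm : γ ∈ G1 := by
    constructor
    · intro i
      rw [hγ, Finsupp.indicator_apply, Finsupp.zero_apply]
      split_ifs
      · exact zero_le_one
      · exact le_rfl
    · intro i
      rw [hγ, Finsupp.indicator_apply]
      split_ifs
      · exact le_rfl
      · exact zero_le_one
  have h1 := Phi_le_LG good1 hγm y
  refine le_trans (le_of_eq ?_) h1
  unfold Phi
  refine sum_congr rfl fun i hi => ?_
  rw [hγ, Finsupp.indicator_apply, dif_pos hi, Real.sqrt_one, mul_one]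

/-- the vector of the values of the functionals -/
private noncomputable def yv (q : List ℕ → V →ₗ[ℝ] ℂ) (x : V) : List ℕ → CV
  | n :: m :: σ => Finsupp.single σ.length (q (n :: m :: σ) x) + yv q x σ
  | _ => 0

private theorem yv_supp (q : List ℕ → V →ₗ[ℝ] ℂ) (x : V) (σ : List ℕ) :
    ∀ i, σ.length ≤ i → yv q x σ i = 0 := by
  match σ with
  | [] => intro i _; rfl
  | [_] => intro i _; rfl
  | n :: m :: σ =>
    intro i hi
    simp only [List.length_cons] at hi
    simp only [yv]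
    rw [Finsupp.add_apply, yv_supp q x σ i (by omega), Finsupp.single_apply,
      if_neg (by omega), add_zero]

private theorem yv_sum (q : List ℕ → V →ₗ[ℝ] ℂ) (x : V) (σ : List ℕ) :
    ∑ i ∈ (yv q x σ).support, ‖yv q x σ i‖ ^ 3 = ZP q x σ := by
  match σ with
  | [] => rfl
  | [_] => rfl
  | n :: m :: σ =>
    have ih := yv_sum q x σ
    have hd : Disjoint (Finsupp.single σ.length (q (n :: m :: σ) x)).support
        (yv q x σ).support := by
      rw [Finset.disjoint_left]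
      intro i h1 h2
      have h3 := Finsupp.support_single_subset h1
      rw [mem_singleton] at h3
      rw [Finsupp.mem_support_iff] at h2
      exact h2 (yv_supp q x σ i h3.ge)
    have h1 := Finsupp.sum_add_index_of_disjoint hd (fun _ a => ‖a‖ ^ 3)
    have h2 : (Finsupp.single σ.length (q (n :: m :: σ) x)).sum (fun _ a => ‖a‖ ^ 3) =
        ‖q (n :: m :: σ) x‖ ^ 3 := by
      rw [Finsupp.sum_single_index]
      rw [norm_zero]
      norm_num
    rw [h2] at h1
    simp only [yv, ZP]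
    rw [← ih]
    exact h1

private theorem yv_add (q : List ℕ → V →ₗ[ℝ] ℂ) (x z : V) (σ : List ℕ) :
    yv q (x + z) σ = yv q x σ + yv q z σ := by
  match σ with
  | [] => exact (add_zero _).symm
  | [_] => exact (add_zero _).symm
  | n :: m :: σ =>
    simp only [yv]
    rw [yv_add q x z σ, map_add, Finsupp.single_add]
    abel

private theorem yv_smul (q : List ℕ → V →ₗ[ℝ] ℂ) (a : ℝ) (x : V) (σ : List ℕ) :
    yv q (a • x) σ = (a : ℂ) • yv q x σ := by
  match σ with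
  | [] => exact (smul_zero _).symm
  | [_] => exact (smul_zero _).symm
  | n :: m :: σ =>
    simp only [yv]
    rw [yv_smul q a x σ, map_smul, smul_add, Finsupp.smul_single, smul_eq_mul,
      Complex.real_smul]

private theorem ZP_eq (q : List ℕ → V →ₗ[ℝ] ℂ) (x : V) (σ : List ℕ) :
    (ZP q x σ) ^ ((1 : ℝ) / 3) = LG G1 (yv q x σ) := by
  rw [← yv_sum, ← LG1]
  have h0 := LG_nonneg good1 (yv q x σ)
  rw [← Real.rpow_natCast, ← Real.rpow_mul h0]
  norm_num

theorem sm_ZP (q : List ℕ → V →ₗ[ℝ] ℂ) (σ : List ℕ) :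
    Sm (fun x : V => (ZP q x σ) ^ ((1 : ℝ) / 3)) := by
  simp only [ZP_eq]
  refine ⟨fun x => LG_nonneg good1 _, fun a x => ?_, fun x y => ?_, fun x h => ?_⟩
  · rw [yv_smul, LG_smul good1, Complex.norm_real, Real.norm_eq_abs]
  · rw [yv_add]
    exact LG_add_le good1 _ _
  · have e1 : yv q (x - h) σ = yv q x σ - yv q h σ := by
      have h1 := yv_add q (x - h) h σ
      rw [sub_add_cancel] at h1
      rw [h1, add_sub_cancel_right]
    rw [yv_add, e1]
    exact smooth_sq good1 _ _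

theorem sm_B (S : TS V) (ρ : List ℕ) : Sm (S.B ρ) := sm_ZP S.q (evp ρ)

private theorem cube_root_cube {r : ℝ} (h : 0 ≤ r) : (r ^ ((1 : ℝ) / 3)) ^ 3 = r := by
  rw [← Real.rpow_natCast, ← Real.rpow_mul h]
  norm_num

private theorem cube_root_le {r s : ℝ} (h : 0 ≤ r) (hs : 0 ≤ s) (hrs : r ≤ s ^ 3) :
    r ^ ((1 : ℝ) / 3) ≤ s := by
  refine le_of_pow_le_pow_left₀ (n := 3) (by norm_num) hs ?_
  rwa [cube_root_cube h]

theorem B_le_N (S : TS V) {ρ : List ℕ} (h : ρ ∈ S.Nd) (x : V) : S.B ρ x ≤ S.N x := by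
  unfold TS.B
  refine cube_root_le (ZP_nonneg _ _ _) (S.Nnn x) ?_
  unfold evp
  split_ifs with he
  · exact S.ZN ρ h he x
  · cases ρ with
    | nil => exact absurd (by simp) he
    | cons n σ =>
      rw [List.tail_cons]
      refine S.ZN σ (S.tail n σ h) ?_ x
      rw [List.length_cons, Nat.even_add_one, not_not] at he
      exact he

private theorem set_fin (S : TS V) (x : V) :
    {r | ∃ σ ∈ S.Nd, Even σ.length ∧ r = ZP S.q x σ}.Finite := by
  refine (S.Nd.finite_toSet.image (fun σ => ZP S.q x σ)).subset ?_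
  rintro r ⟨σ, h1, _, rfl⟩
  exact ⟨σ, h1, rfl⟩

private theorem set_ne (S : TS V) (x : V) :
    {r | ∃ σ ∈ S.Nd, Even σ.length ∧ r = ZP S.q x σ}.Nonempty :=
  ⟨_, [], S.nil, by simp, rfl⟩

theorem Z_nonneg (S : TS V) (x : V) : 0 ≤ S.Z x := by
  unfold TS.Z
  apply Real.rpow_nonneg
  apply Real.sSup_nonneg
  rintro r ⟨σ, _, _, rfl⟩
  exact ZP_nonneg _ _ _

theorem Z_exists (S : TS V) (x : V) : ∃ σ ∈ S.Nd, Even σ.length ∧ S.Z x ^ 3 = ZP S.q x σ := by
  obtain ⟨σ, h1, h2, h3⟩ := (set_ne S x).csSup_mem (set_fin S x)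
  refine ⟨σ, h1, h2, ?_⟩
  unfold TS.Z
  rw [cube_root_cube, h3]
  rw [h3]
  exact ZP_nonneg _ _ _

theorem ZP_le_Z (S : TS V) {σ : List ℕ} (h : σ ∈ S.Nd) (he : Even σ.length) (x : V) :
    ZP S.q x σ ≤ S.Z x ^ 3 := by
  have h1 : ZP S.q x σ ≤ sSup {r | ∃ σ ∈ S.Nd, Even σ.length ∧ r = ZP S.q x σ} :=
    le_csSup (set_fin S x).bddAbove ⟨σ, h, he, rfl⟩
  unfold TS.Z
  rw [cube_root_cube ((ZP_nonneg _ _ _).trans h1)]
  exact h1

private theorem ZP_root_le (S : TS V) {σ : List ℕ} (h : σ ∈ S.Nd) (he : Even σ.length) (x : V) :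
    (ZP S.q x σ) ^ ((1 : ℝ) / 3) ≤ S.Z x :=
  cube_root_le (ZP_nonneg _ _ _) (Z_nonneg S x) (ZP_le_Z S h he x)

private theorem Z_exists' (S : TS V) (x : V) :
    ∃ σ ∈ S.Nd, Even σ.length ∧ S.Z x = (ZP S.q x σ) ^ ((1 : ℝ) / 3) := by
  obtain ⟨σ, h1, h2, h3⟩ := Z_exists S x
  refine ⟨σ, h1, h2, ?_⟩
  rw [← h3, ← Real.rpow_natCast, ← Real.rpow_mul (Z_nonneg S x)]
  norm_num

theorem Z_smul (S : TS V) (a : ℝ) (x : V) : S.Z (a • x) = |a| * S.Z x := by
  apply le_antisymm
  · obtain ⟨σ, h1, h2, h3⟩ := Z_exists' S (a • x)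
    have h4 := (sm_ZP S.q σ).smul a x
    rw [h3, h4]
    exact mul_le_mul_of_nonneg_left (ZP_root_le S h1 h2 x) (abs_nonneg a)
  · obtain ⟨σ, h1, h2, h3⟩ := Z_exists' S x
    have h4 := (sm_ZP S.q σ).smul a x
    rw [h3, ← h4]
    exact ZP_root_le S h1 h2 (a • x)

theorem Z_add (S : TS V) (x y : V) : S.Z (x + y) ≤ S.Z x + S.Z y := by
  obtain ⟨σ, h1, h2, h3⟩ := Z_exists' S (x + y)
  have h4 := (sm_ZP S.q σ).add x y
  rw [h3]
  exact h4.trans (add_le_add (ZP_root_le S h1 h2 x) (ZP_root_le S h1 h2 y))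

theorem Z_le_N (S : TS V) (x : V) : S.Z x ≤ S.N x := by
  obtain ⟨σ, h1, h2, h3⟩ := Z_exists' S x
  rw [h3]
  exact cube_root_le (ZP_nonneg _ _ _) (S.Nnn x) (S.ZN σ h1 h2 x)

end Pool.Agent.HB
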