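import Pool.Agent.HB.M.Basic
import Pool.Agent.HB.M.Cosh

/-!
# HB.M.Max: maximal inequality after an activation

PROOF (`max_after`).  If `th < 0`: `Bad → Act` and `2 e^{3-th} ≥ 1`.  Let `th ≥ 0`, `ε = e³/cosh(th) ≤ 2 e^{3-th}`, `lam > 0`.
State machine (use an inductive type `wait x | run y u | bad | done`):
`Φ(wait x) = 0`, `Φ(run y u) = ε cosh(B y/lam) e^{-3u/lam²} - ε`, `Φ(bad) = 1 - ε`, `Φ(done) = -ε`.
`step (wait x) h = if δ < v (x+h) then run 0 0 else wait (x+h)`;
`step (run y u) h = if lam² < u + N(h)² then done else if th·lam < B(y+h) then bad else run (y+h) (u+N(h)²)`;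
`bad`, `done` absorbing.  Start: `if δ < v 0 then run 0 0 else wait 0`; `Φ(start) = 0` (`B 0 = 0`).
Supermartingale: for `run` with `u' = u + N(h)² ≤ lam²` every outcome satisfies
`Φ(next) ≤ ε cosh(B(y±h)/lam) e^{-3u'/lam²} - ε` (for `bad`: `ε cosh(th) e^{-3} = 1`), the average is at most
`ε e^{3B(h)²/lam²} cosh(B y/lam) e^{-3u'/lam²} - ε ≤ Φ(run y u)` (`cosh_step`, `B h ≤ N h`).  `Φ(run) ≥ -ε`.
Final value: `Φ(final) ≥ 1_Bad - ε 1_Act` (if `Bad` the final state is `bad`; if `Act` then `Φ ≥ -ε`; if not `Act` the state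
is `wait`).  `Ex_super` gives `Ex(1_Bad) - ε Ex(1_Act) ≤ 0`.
PROOF (`act_prob`).  States `wait x | act x`, `Φ(wait x) = 0`, `Φ(act x) = δ^12 - v(x)^12`; `v` convex (`2 v x ≤ v(x+h)+v(x-h)`) so
`Φ` is a supermartingale; at the activation `Φ ≤ 0`.  Final: `Φ ≥ δ^12 1_Act - v(sum)^12`.
PROOF (`exp_L`).  State `(x, u)`, `Φ = cosh(L x) e^{-3u} - 1`, `Ex Φ ≤ 0`.  If `var N w = 0` then `N d = 0`, `L d = 0` for all
increments, `L(sum) = 0`, `Φ = 0`.  If `var > 0` (and `≤ 1`): `Φ ≥ cosh(L) e^{-3} - 1`.  So
`Ex(cosh(L sum) 1_{var>0}) ≤ e³ Ex 1_{var>0}` and `L^12 ≤ 12! cosh L`.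
-/

open Finset Real

namespace Pool.Agent.HB

variable {V : Type} [AddCommGroup V] [Module ℝ V]


namespace MaxAux

theorem Sm_zero {B : V → ℝ} (hB : Sm B) : B 0 = 0 := by
  have := hB.smul 0 0
  simpa using this

theorem ind_le {P Q : List V → Prop} {w w' : List V} (h : P w → Q w') : ind P w ≤ ind Q w' := by
  classical
  unfold ind
  by_cases h1 : P w
  · simp [h1, h h1]
  · simp only [h1, if_false]
    split_ifs <;> norm_num

theorem ind_nonneg (P : List V → Prop) (w : List V) : 0 ≤ ind P w := by
  classical
  unfold ind; split_ifs <;> norm_num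

theorem ind_le_one (P : List V → Prop) (w : List V) : ind P w ≤ 1 := by
  classical
  unfold ind; split_ifs <;> norm_num

theorem ind_true {P : List V → Prop} {w : List V} (h : P w) : ind P w = 1 := by
  classical
  simp [ind, h]

theorem ind_false {P : List V → Prop} {w : List V} (h : ¬ P w) : ind P w = 0 := by
  classical
  simp [ind, h]

theorem AllP_le [Neg V] (T : Tr V) {f g : List V → ℝ} (h : ∀ w, f w ≤ g w) :
    AllP T (fun w => f w ≤ g w) := AllP_of T h

/-- states of the machine -/
inductive St (V : Type) : Type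
  | wait (x : V) | run (y : V) (u : ℝ) | bad | done

open Classical in
/-- steps -/
noncomputable def step (B N v : V → ℝ) (δ lam th : ℝ) : St V → V → St V
  | .wait x, h => if δ < v (x + h) then .run 0 0 else .wait (x + h)
  | .run y u, h => if lam ^ 2 < u + N h ^ 2 then .done
      else if th * lam < B (y + h) then .bad else .run (y + h) (u + N h ^ 2)
  | .bad, _ => .bad
  | .done, _ => .done

/-- potential -/
noncomputable def Phi (B : V → ℝ) (lam ε : ℝ) : St V → ℝ
  | .wait _ => 0
  | .run y u => ε * cosh (1 / lam * B y) * exp (-(3 * u / lam ^ 2)) - ε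
  | .bad => 1 - ε
  | .done => -ε

variable {B N v : V → ℝ} {δ lam th ε : ℝ}

theorem Phi_super (hB : Sm B) (hBN : ∀ x, B x ≤ N x) (hN : ∀ x, N (-x) = N x)
    (hlam : 0 < lam) (hth : 0 ≤ th) (hε : ε = exp 3 / cosh th) (s : St V) (h : V) :
    (Phi B lam ε (step B N v δ lam th s h) + Phi B lam ε (step B N v δ lam th s (-h))) / 2 ≤
      Phi B lam ε s := by
  classical
  have hε0 : 0 < ε := by rw [hε]; exact div_pos (exp_pos _) (cosh_pos _)
  have hrun0 : Phi B lam ε (.run 0 0) = 0 := by
    simp [Phi, Sm_zero hB]
  cases s with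
  | wait x =>
    have h1 : ∀ k : V, Phi B lam ε (step B N v δ lam th (.wait x) k) = 0 := by
      intro k
      simp only [step]
      split_ifs
      · exact hrun0
      · rfl
    rw [h1, h1]; simp [Phi]
  | bad => simp [step]
  | done => simp [step]
  | run y u =>
    by_cases hu : lam ^ 2 < u + N h ^ 2
    · have h1 : ∀ k : V, N k = N h → step B N v δ lam th (.run y u) k = .done := by
        intro k hk
        simp only [step, hk, if_pos hu]
      rw [h1 h rfl, h1 (-h) (hN h)]
      simp only [Phi]
      have : 0 ≤ ε * cosh (1 / lam * B y) * exp (-(3 * u / lam ^ 2)) := by positivity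
      linarith
    · push Not at hu
      have hE : ∀ k : V, N k = N h → Phi B lam ε (step B N v δ lam th (.run y u) k) ≤
          ε * cosh (1 / lam * B (y + k)) * exp (-(3 * (u + N h ^ 2) / lam ^ 2)) - ε := by
        intro k hk
        simp only [step, hk, if_neg (not_lt.2 hu)]
        split_ifs with h2
        · simp only [Phi]
          have h3 : cosh th ≤ cosh (1 / lam * B (y + k)) := by
            rw [cosh_le_cosh, abs_of_nonneg hth, abs_of_nonneg (by
              have := hB.nn (y + k); positivity)]
            rw [one_div, inv_mul_eq_div, le_div_iff₀ hlam]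
            exact h2.le
          have h4 : exp (-3) ≤ exp (-(3 * (u + N h ^ 2) / lam ^ 2)) := by
            apply exp_le_exp.2
            have : 3 * (u + N h ^ 2) / lam ^ 2 ≤ 3 := by
              rw [div_le_iff₀ (by positivity)]; linarith
            linarith
          have h5 : ε * cosh th * exp (-3) = 1 := by
            rw [hε, div_mul_cancel₀ _ (cosh_pos th).ne', ← exp_add]; simp
          have h6 : ε * cosh th * exp (-3) ≤
              ε * cosh (1 / lam * B (y + k)) * exp (-(3 * (u + N h ^ 2) / lam ^ 2)) := by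
            apply mul_le_mul _ h4 (exp_pos _).le (by positivity)
            exact mul_le_mul_of_nonneg_left h3 hε0.le
          linarith
        · simp only [Phi]; exact le_rfl
      have e1 := hE h rfl
      have e2 := hE (-h) (hN h)
      rw [← sub_eq_add_neg] at e2
      have e3 := cosh_step hB (1 / lam) y h
      set E := exp (-(3 * (u + N h ^ 2) / lam ^ 2)) with hEdef
      have e4 : exp (3 * (1 / lam) ^ 2 * B h ^ 2) * E ≤ exp (-(3 * u / lam ^ 2)) := by
        rw [hEdef, ← exp_add]
        apply exp_le_exp.2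
        have h7 : B h ^ 2 ≤ N h ^ 2 := pow_le_pow_left₀ (hB.nn h) (hBN h) 2
        have h8 : 3 * (1 / lam) ^ 2 * B h ^ 2 ≤ 3 * (1 / lam) ^ 2 * N h ^ 2 :=
          mul_le_mul_of_nonneg_left h7 (by positivity)
        have h9 : -(3 * (u + N h ^ 2) / lam ^ 2) = -(3 * u / lam ^ 2) - 3 * (1 / lam) ^ 2 * N h ^ 2 := by
          field_simp; ring
        rw [h9]; linarith
      have hc : 0 < cosh (1 / lam * B y) := cosh_pos _
      have hPr : Phi B lam ε (.run y u) =
        ε * cosh (1 / lam * B y) * exp (-(3 * u / lam ^ 2)) - ε := rfl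
      rw [hPr]
      have hEp : 0 < E := exp_pos _
      calc _ ≤ ε * ((cosh (1 / lam * B (y + h)) + cosh (1 / lam * B (y - h))) / 2) * E - ε := by
            linarith
        _ ≤ ε * (exp (3 * (1 / lam) ^ 2 * B h ^ 2) * cosh (1 / lam * B y)) * E - ε := by
            have := mul_le_mul_of_nonneg_right (mul_le_mul_of_nonneg_left e3 hε0.le) hEp.le
            linarith
        _ = ε * cosh (1 / lam * B y) * (exp (3 * (1 / lam) ^ 2 * B h ^ 2) * E) - ε := by ring
        _ ≤ ε * cosh (1 / lam * B y) * exp (-(3 * u / lam ^ 2)) - ε := by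
            have := mul_le_mul_of_nonneg_left e4 (show 0 ≤ ε * cosh (1 / lam * B y) by positivity)
            linarith

theorem foldl_bad (w : List V) : w.foldl (step B N v δ lam th) .bad = .bad := by
  induction w with
  | nil => rfl
  | cons d w ih => simpa [List.foldl_cons, step] using ih

theorem foldl_done (w : List V) : w.foldl (step B N v δ lam th) .done = .done := by
  induction w with
  | nil => rfl
  | cons d w ih => simpa [List.foldl_cons, step] using ih

/-- bad event after the activation -/
def RunBad (B N : V → ℝ) (lam th : ℝ) (y : V) (u : ℝ) (w : List V) : Prop :=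
  ∃ w2 w3, w = w2 ++ w3 ∧ u + var N w2 ≤ lam ^ 2 ∧ th * lam < B (y + w2.sum)

theorem run_final (hε0 : 0 < ε) (w : List V) (y : V) (u : ℝ) (hy : B y ≤ th * lam) :
    ind (RunBad B N lam th y u) w - ε ≤
      Phi B lam ε (w.foldl (step B N v δ lam th) (.run y u)) := by
  classical
  induction w generalizing y u with
  | nil =>
    rw [ind_false]
    · simp only [List.foldl_nil, Phi]
      have : 0 ≤ ε * cosh (1 / lam * B y) * exp (-(3 * u / lam ^ 2)) := by positivity
      linarith
    · rintro ⟨w2, w3, h1, _, h3⟩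
      have : w2 = [] := (List.append_eq_nil_iff.1 h1.symm).1
      rw [this] at h3; simp at h3; linarith
  | cons d w ih =>
    rw [List.foldl_cons]
    by_cases h1 : lam ^ 2 < u + N d ^ 2
    · simp only [step, if_pos h1]
      rw [foldl_done, ind_false]
      · simp [Phi]
      · rintro ⟨w2, w3, h2, h3, h4⟩
        cases w2 with
        | nil => simp at h4; linarith
        | cons e w2 =>
          simp only [List.cons_append, List.cons.injEq] at h2
          rw [var_cons, ← h2.1] at h3
          linarith [var_nonneg N w2]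
    · by_cases h2 : th * lam < B (y + d)
      · simp only [step, if_neg h1, if_pos h2]
        rw [foldl_bad]
        simp only [Phi]
        linarith [ind_le_one (RunBad B N lam th y u) (d :: w)]
      · simp only [step, if_neg h1, if_neg h2]
        refine le_trans ?_ (ih (y + d) (u + N d ^ 2) (not_lt.1 h2))
        apply sub_le_sub_right
        apply ind_le
        rintro ⟨w2, w3, h3, h4, h5⟩
        cases w2 with
        | nil => simp at h5; linarith
        | cons e w2 =>
          simp only [List.cons_append, List.cons.injEq] at h3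
          rw [var_cons, ← h3.1] at h4
          rw [← h3.1, List.sum_cons, ← add_assoc] at h5
          exact ⟨w2, w3, h3.2, by linarith, h5⟩

/-- activation after a start at `x` (nonempty prefix) -/
def ActF (v : V → ℝ) (δ : ℝ) (x : V) (w : List V) : Prop :=
  ∃ w1 w2, w = w1 ++ w2 ∧ w1 ≠ [] ∧ δ < v (x + w1.sum)

/-- bad event after a start at `x` -/
def BadF (B N v : V → ℝ) (δ lam th : ℝ) (x : V) (w : List V) : Prop :=
  ∃ w1 w2 w3, w = w1 ++ w2 ++ w3 ∧ w1 ≠ [] ∧ δ < v (x + w1.sum) ∧
    (∀ u s, w1 = u ++ s → s ≠ [] → u ≠ [] → v (x + u.sum) ≤ δ) ∧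
    var N w2 ≤ lam ^ 2 ∧ th * lam < B w2.sum

theorem wait_final (hB : Sm B) (hε0 : 0 < ε) (hlam : 0 < lam) (hth : 0 ≤ th) (w : List V) (x : V) :
    ind (BadF B N v δ lam th x) w - ε * ind (ActF v δ x) w ≤
      Phi B lam ε (w.foldl (step B N v δ lam th) (.wait x)) := by
  classical
  induction w generalizing x with
  | nil =>
    rw [ind_false, ind_false]
    · simp [Phi]
    · rintro ⟨w1, w2, h1, h2, _⟩
      exact h2 (List.append_eq_nil_iff.1 h1.symm).1
    · rintro ⟨w1, w2, w3, h1, h2, _⟩
      have := (List.append_eq_nil_iff.1 h1.symm).1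
      exact h2 (List.append_eq_nil_iff.1 this).1
  | cons d w ih =>
    rw [List.foldl_cons]
    by_cases h1 : δ < v (x + d)
    · simp only [step, if_pos h1]
      have h2 : ind (ActF v δ x) (d :: w) = 1 :=
        ind_true ⟨[d], w, rfl, by simp, by simpa using h1⟩
      rw [h2, mul_one]
      refine le_trans ?_ (run_final hε0 w 0 0 (by rw [Sm_zero hB]; positivity))
      apply sub_le_sub_right
      apply ind_le
      rintro ⟨w1, w2, w3, h3, h4, h5, h6, h7, h8⟩
      cases w1 with
      | nil => exact absurd rfl h4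
      | cons e w1 =>
        simp only [List.cons_append, List.cons.injEq] at h3
        have h9 : w1 = [] := by
          by_contra hne
          have := h6 [e] w1 rfl hne (by simp)
          rw [← h3.1] at this
          simp at this
          linarith
        rw [h9, List.nil_append] at h3
        exact ⟨w2, w3, h3.2, by simpa using h7, by simpa using h8⟩
    · simp only [step, if_neg h1]
      refine le_trans ?_ (ih (x + d))
      have h2 : ind (BadF B N v δ lam th x) (d :: w) ≤ ind (BadF B N v δ lam th (x + d)) w := by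
        apply ind_le
        rintro ⟨w1, w2, w3, h3, h4, h5, h6, h7, h8⟩
        cases w1 with
        | nil => exact absurd rfl h4
        | cons e w1 =>
          simp only [List.cons_append, List.cons.injEq] at h3
          rw [← h3.1] at h5 h6
          refine ⟨w1, w2, w3, h3.2, ?_, ?_, ?_, h7, h8⟩
          · rintro rfl
            simp at h5; exact h1 h5
          · rw [List.sum_cons, ← add_assoc] at h5; exact h5
          · intro u s hu hs hu'
            have := h6 (d :: u) s (by rw [hu]; rfl) hs (by simp)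
            rw [List.sum_cons, ← add_assoc] at this; exact this
      have h3 : ind (ActF v δ (x + d)) w ≤ ind (ActF v δ x) (d :: w) := by
        apply ind_le
        rintro ⟨w1, w2, h4, h5, h6⟩
        exact ⟨d :: w1, w2, by rw [h4]; rfl, by simp, by
          rw [List.sum_cons, ← add_assoc]; exact h6⟩
      have h4 := mul_le_mul_of_nonneg_left h3 hε0.le
      linarith

end MaxAux

open MaxAux

theorem max_after {B N v : V → ℝ} (hB : Sm B) (hBN : ∀ x, B x ≤ N x)
    (hN : ∀ x, N (-x) = N x) (δ lam th : ℝ) (hlam : 0 < lam) (T : Tr V) :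
    Ex T (ind (Bad B N v δ lam th)) ≤ 2 * exp (3 - th) * Ex T (ind (Act v δ)) := by
  classical
  have hEA : 0 ≤ Ex T (ind (Act v δ)) := by
    have := Ex_mono T (AllP_of T (fun w => ind_nonneg (Act v δ) w) :
      AllP T (fun w => (fun _ => (0:ℝ)) w ≤ ind (Act v δ) w))
    rwa [Ex_const] at this
  by_cases hth : th < 0
  · have h1 : Ex T (ind (Bad B N v δ lam th)) ≤ Ex T (ind (Act v δ)) := by
      apply Ex_mono T (AllP_of T fun w => ?_)
      apply ind_le
      rintro ⟨w1, w2, w3, h1, h2, _, _⟩
      exact ⟨w1, w2 ++ w3, by rw [h1, List.append_assoc], h2.1⟩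
    have h2 : 1 ≤ 2 * exp (3 - th) := by
      have : 1 ≤ exp (3 - th) := one_le_exp (by linarith)
      linarith
    nlinarith
  · push Not at hth
    set ε := exp 3 / cosh th with hε
    have hε0 : 0 < ε := div_pos (exp_pos _) (cosh_pos _)
    have hεle : ε ≤ 2 * exp (3 - th) := by
      rw [hε, div_le_iff₀ (cosh_pos _)]
      have h1 : exp th / 2 ≤ cosh th := by
        rw [cosh_eq]; linarith [exp_pos (-th)]
      have h2 : exp (3 - th) * exp th = exp 3 := by rw [← exp_add]; congr 1; ring
      have h3 := mul_le_mul_of_nonneg_left h1 (show 0 ≤ 2 * exp (3 - th) by positivity)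
      nlinarith
    set s0 : St V := if δ < v 0 then .run 0 0 else .wait 0 with hs0
    have hΦ0 : Phi B lam ε s0 = 0 := by
      rw [hs0]; split_ifs <;> simp [Phi, Sm_zero hB]
    have hsup := Ex_super (step B N v δ lam th) (Phi B lam ε)
      (Phi_super hB hBN hN hlam hth hε) T s0
    rw [hΦ0] at hsup
    have hfin : ∀ w : List V, ind (Bad B N v δ lam th) w + (-ε) * ind (Act v δ) w ≤
        Phi B lam ε (w.foldl (step B N v δ lam th) s0) := by
      intro w
      by_cases h0 : δ < v 0
      · rw [hs0, if_pos h0]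
        have hA : ind (Act v δ) w = 1 := ind_true ⟨[], w, rfl, by simpa using h0⟩
        rw [hA]
        have := run_final (v := v) (δ := δ) (N := N) hε0 w 0 0
          (show B 0 ≤ th * lam by rw [Sm_zero hB]; positivity)
        have h2 : ind (Bad B N v δ lam th) w ≤ ind (RunBad B N lam th 0 0) w := by
          apply ind_le
          rintro ⟨w1, w2, w3, h3, h4, h5, h6⟩
          have : w1 = [] := by
            by_contra hne
            have := h4.2 [] w1 rfl hne
            simp at this; linarith
          rw [this, List.nil_append] at h3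
          exact ⟨w2, w3, h3, by simpa using h5, by simpa using h6⟩
        linarith
      · rw [hs0, if_neg h0]
        have := wait_final (v := v) (δ := δ) (N := N) hB hε0 hlam hth w 0
        have h2 : ind (Bad B N v δ lam th) w ≤ ind (BadF B N v δ lam th 0) w := by
          apply ind_le
          rintro ⟨w1, w2, w3, h3, h4, h5, h6⟩
          refine ⟨w1, w2, w3, h3, ?_, by simpa using h4.1, ?_, h5, h6⟩
          · rintro rfl
            have := h4.1; simp at this; exact h0 this
          · intro u s hu hs _
            simpa using h4.2 u s hu hs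
        have h3 : ind (ActF v δ 0) w ≤ ind (Act v δ) w := by
          apply ind_le
          rintro ⟨w1, w2, h4, _, h6⟩
          exact ⟨w1, w2, h4, by simpa using h6⟩
        have h4 := mul_le_mul_of_nonneg_left h3 hε0.le
        linarith
    have hE := Ex_mono T (AllP_of T hfin)
    rw [Ex_add, Ex_smul] at hE
    have hE2 : Ex T (fun w => ind (Bad B N v δ lam th) w) = Ex T (ind (Bad B N v δ lam th)) := rfl
    have hE3 : Ex T (fun w => ind (Act v δ) w) = Ex T (ind (Act v δ)) := rfl
    have h5 := mul_le_mul_of_nonneg_right hεle hEA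
    linarith

namespace MaxAux

/-- states for the activation -/
inductive Sa (V : Type) : Type
  | wait (x : V) | act (x : V)

open Classical in
/-- steps -/
noncomputable def stepa (v : V → ℝ) (δ : ℝ) : Sa V → V → Sa V
  | .wait x, h => if δ < v (x + h) then .act (x + h) else .wait (x + h)
  | .act x, h => .act (x + h)

/-- potential -/
noncomputable def Pa (v : V → ℝ) (δ : ℝ) : Sa V → ℝ
  | .wait _ => 0
  | .act x => δ ^ 12 - v x ^ 12

theorem foldl_act {v : V → ℝ} {δ : ℝ} (w : List V) (x : V) :
    w.foldl (stepa v δ) (.act x) = .act (x + w.sum) := by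
  induction w generalizing x with
  | nil => simp
  | cons d w ih => rw [List.foldl_cons, List.sum_cons, ← add_assoc, ← ih]; rfl

theorem waita_final {v : V → ℝ} {δ : ℝ} (hδ : 0 ≤ δ) (h0 : ∀ x, 0 ≤ v x) (w : List V) (x : V)
    (hx : v x ≤ δ) :
    δ ^ 12 * ind (fun w => ∃ w1 w2, w = w1 ++ w2 ∧ δ < v (x + w1.sum)) w +
      (-1) * v (x + w.sum) ^ 12 ≤ Pa v δ (w.foldl (stepa v δ) (.wait x)) := by
  classical
  induction w generalizing x with
  | nil =>
    rw [ind_false]
    · have := h0 x
      simp only [List.sum_nil, add_zero, List.foldl_nil, Pa]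
      have : 0 ≤ v x ^ 12 := by positivity
      linarith
    · rintro ⟨w1, w2, h1, h2⟩
      have : w1 = [] := (List.append_eq_nil_iff.1 h1.symm).1
      rw [this] at h2; simp at h2; linarith
  | cons d w ih =>
    rw [List.foldl_cons, List.sum_cons, ← add_assoc]
    by_cases h1 : δ < v (x + d)
    · simp only [stepa, if_pos h1]
      rw [foldl_act]
      simp only [Pa]
      have h2 := ind_le_one (fun w => ∃ w1 w2, w = w1 ++ w2 ∧ δ < v (x + w1.sum)) (d :: w)
      have h3 := mul_le_mul_of_nonneg_left h2 (show 0 ≤ δ ^ 12 by positivity)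
      linarith
    · simp only [stepa, if_neg h1]
      refine le_trans ?_ (ih (x + d) (not_lt.1 h1))
      apply add_le_add_left
      apply mul_le_mul_of_nonneg_left _ (by positivity)
      apply ind_le
      rintro ⟨w1, w2, h3, h4⟩
      cases w1 with
      | nil => simp at h4; linarith
      | cons e w1 =>
        simp only [List.cons_append, List.cons.injEq] at h3
        refine ⟨w1, w2, h3.2, ?_⟩
        rw [← h3.1, List.sum_cons, ← add_assoc] at h4; exact h4

end MaxAux

theorem act_prob {v : V → ℝ} (h0 : ∀ x, 0 ≤ v x) (h1 : ∀ (a : ℝ) x, v (a • x) = |a| * v x)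
    (h2 : ∀ x y, v (x + y) ≤ v x + v y) (δ : ℝ) (hδ : 0 ≤ δ) (T : Tr V) :
    δ ^ 12 * Ex T (ind (Act v δ)) ≤ Ex T (fun w => v w.sum ^ 12) := by
  classical
  have hv0 : v 0 = 0 := by simpa using h1 0 0
  have hsup : ∀ s h, (Pa v δ (stepa v δ s h) + Pa v δ (stepa v δ s (-h))) / 2 ≤ Pa v δ s := by
    intro s h
    cases s with
    | wait x =>
      have h3 : ∀ k : V, Pa v δ (stepa v δ (.wait x) k) ≤ 0 := by
        intro k
        simp only [stepa]
        split_ifs with h4
        · simp only [Pa]
          have := pow_le_pow_left₀ hδ h4.le 12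
          linarith
        · simp [Pa]
      have a1 := h3 h
      have a2 := h3 (-h)
      simp only [Pa] at a1 a2 ⊢
      linarith
    | act x =>
      simp only [stepa, Pa]
      have h3 : 2 * v x ≤ v (x + h) + v (x + -h) := by
        have := h2 (x + h) (x + -h)
        have h4 : x + h + (x + -h) = (2:ℝ) • x := by rw [two_smul]; abel
        rw [h4, h1] at this
        norm_num at this
        linarith
      have h5 := add_pow_le (h0 (x + h)) (h0 (x + -h)) 12
      have h6 : (2 * v x) ^ 12 ≤ (v (x + h) + v (x + -h)) ^ 12 :=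
        pow_le_pow_left₀ (by linarith [h0 x]) h3 12
      norm_num at h5
      have h7 : (2 * v x) ^ 12 = 4096 * v x ^ 12 := by ring
      linarith
  have hE := Ex_super (stepa v δ) (Pa v δ) hsup T (.wait 0)
  have hfin : ∀ w : List V, δ ^ 12 * ind (Act v δ) w + (-1) * v w.sum ^ 12 ≤
      Pa v δ (w.foldl (stepa v δ) (.wait 0)) := by
    intro w
    have := waita_final hδ h0 w 0 (by rw [hv0]; exact hδ)
    simp only [zero_add] at this
    exact this
  have hE2 := Ex_mono T (AllP_of T hfin)
  rw [Ex_add, Ex_smul, Ex_smul] at hE2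
  have : Pa v δ (.wait 0) = 0 := rfl
  rw [this] at hE
  have hE3 : Ex T (fun w => ind (Act v δ) w) = Ex T (ind (Act v δ)) := rfl
  linarith

theorem MaxAux.foldl_pair (N : V → ℝ) (w : List V) (x : V) (u : ℝ) :
    w.foldl (fun (s : V × ℝ) h => (s.1 + h, s.2 + N h ^ 2)) (x, u) =
      (x + w.sum, u + var N w) := by
  induction w generalizing x u with
  | nil => simp [var]
  | cons d w ih => rw [List.foldl_cons, ih, List.sum_cons, var_cons, add_assoc, add_assoc]

theorem MaxAux.pow_le_cosh (x : ℝ) : x ^ 12 ≤ (Nat.factorial 12 : ℝ) * cosh x := by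
  have h1 := Real.hasSum_cosh x
  have h2 : x ^ (2 * 6) / ((2 * 6).factorial : ℝ) ≤ cosh x := by
    apply le_hasSum h1 6
    intro j _
    have : 0 ≤ x ^ (2 * j) := by rw [pow_mul]; positivity
    positivity
  rw [div_le_iff₀ (by positivity)] at h2
  rw [mul_comm]; exact h2

theorem MaxAux.sum_zero {L N : V → ℝ} (hL : Sm L) (hLN : ∀ x, L x ≤ N x) (w : List V)
    (h : var N w = 0) : L w.sum = 0 := by
  induction w with
  | nil => simpa using Sm_zero hL
  | cons d w ih =>
    rw [var_cons] at h
    have h1 : N d ^ 2 = 0 := by nlinarith [sq_nonneg (N d), var_nonneg N w]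
    have h2 : var N w = 0 := by nlinarith [sq_nonneg (N d), var_nonneg N w]
    have h3 : N d = 0 := by simpa using h1
    have h4 := hL.add d w.sum
    rw [ih h2] at h4
    have h5 := hLN d
    have h6 := hL.nn (d + w.sum)
    rw [List.sum_cons]
    linarith

theorem exp_L {L N : V → ℝ} (hL : Sm L) (hLN : ∀ x, L x ≤ N x) (hN : ∀ x, N (-x) = N x)
    (T : Tr V) (hT : AllP T (fun w => var N w ≤ 1)) :
    Ex T (fun w => L w.sum ^ 12) ≤
      (Nat.factorial 12 : ℝ) * exp 3 * Ex T (ind (fun w => 0 < var N w)) := by
  classical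
  have hsup := Ex_super (fun (s : V × ℝ) h => (s.1 + h, s.2 + N h ^ 2))
    (fun s => cosh (L s.1) * exp (-(3 * s.2)) - 1) (by
      rintro ⟨x, u⟩ h
      simp only [hN]
      have e3 := cosh_step hL 1 x h
      simp only [one_mul, one_pow, mul_one] at e3
      rw [sub_eq_add_neg x h] at e3
      have e4 : exp (3 * L h ^ 2) * exp (-(3 * (u + N h ^ 2))) ≤ exp (-(3 * u)) := by
        rw [← exp_add]
        apply exp_le_exp.2
        have := pow_le_pow_left₀ (hL.nn h) (hLN h) 2
        linarith
      have hc : 0 < cosh (L x) := cosh_pos _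
      have hEp : 0 < exp (-(3 * (u + N h ^ 2))) := exp_pos _
      have e5 := mul_le_mul_of_nonneg_right e3 hEp.le
      have e6 := mul_le_mul_of_nonneg_left e4 hc.le
      nlinarith) T (0, 0)
  simp only [Sm_zero hL, cosh_zero, mul_zero, neg_zero, exp_zero, mul_one, sub_self] at hsup
  have h1 : Ex T (fun w => exp (-3) * (cosh (L w.sum) * ind (fun w => 0 < var N w) w) +
      (-1) * ind (fun w => 0 < var N w) w) ≤ 0 := by
    refine le_trans (Ex_mono T ?_) hsup
    refine AllP_mono T hT fun w hw => ?_
    simp only [foldl_pair, zero_add]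
    by_cases h2 : 0 < var N w
    · rw [ind_true (P := fun w => 0 < var N w) h2]
      have h3 : exp (-3) ≤ exp (-(3 * var N w)) := exp_le_exp.2 (by linarith)
      have := mul_le_mul_of_nonneg_left h3 (cosh_pos (L w.sum)).le
      linarith
    · rw [ind_false (P := fun w => 0 < var N w) h2]
      have h3 : var N w = 0 := le_antisymm (not_lt.1 h2) (var_nonneg N w)
      rw [h3]
      have := one_le_cosh (L w.sum)
      simp
  rw [Ex_add, Ex_smul, Ex_smul] at h1
  have h2 : Ex T (fun w => L w.sum ^ 12) ≤ Ex T (fun w => (Nat.factorial 12 : ℝ) *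
      (cosh (L w.sum) * ind (fun w => 0 < var N w) w)) := by
    apply Ex_mono T (AllP_of T fun w => ?_)
    by_cases h2 : 0 < var N w
    · rw [ind_true (P := fun w => 0 < var N w) h2, mul_one]
      exact pow_le_cosh _
    · rw [ind_false (P := fun w => 0 < var N w) h2]
      have h3 : var N w = 0 := le_antisymm (not_lt.1 h2) (var_nonneg N w)
      rw [MaxAux.sum_zero hL hLN w h3]; simp
  rw [Ex_smul] at h2
  have h3 : Ex T (fun w => cosh (L w.sum) * ind (fun w => 0 < var N w) w) ≤
      exp 3 * Ex T (ind (fun w => 0 < var N w)) := by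
    have h4 : exp 3 * exp (-3) = 1 := by rw [← exp_add]; simp
    have hE3 : Ex T (fun w => ind (fun w => 0 < var N w) w) =
      Ex T (ind (fun w => 0 < var N w)) := rfl
    rw [hE3] at h1
    have h5 := mul_le_mul_of_nonneg_left h1 (exp_pos 3).le
    set A := Ex T (fun w => cosh (L w.sum) * ind (fun w => 0 < var N w) w) with hA
    have h6 : exp 3 * (exp (-3) * A) = A := by rw [← mul_assoc, h4, one_mul]
    rw [mul_add, h6, mul_zero] at h5
    linarith
  have h4 := mul_le_mul_of_nonneg_left h3 (show (0:ℝ) ≤ (Nat.factorial 12 : ℝ) by positivity)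
  rw [mul_assoc]
  exact h2.trans h4

theorem MaxAux.sm_two_aux {L : V → ℝ} (hL : Sm L) (T : Tr V) (x : V) :
    Ex T (fun w => L (x + w.sum) ^ 2) ≤ L x ^ 2 + 5 * Ex T (var L) := by
  induction T generalizing x with
  | leaf => simp [Ex, var]
  | node h l r hl hr =>
    simp only [Ex, List.sum_cons, ← add_assoc]
    have h1 := hl (x + h)
    have h2 := hr (x + -h)
    have h3 := hL.sm x h
    rw [sub_eq_add_neg] at h3
    have hneg : L (-h) = L h := by
      have := hL.smul (-1) h
      simpa using this
    have h4 : Ex l (fun w => var L (h :: w)) = L h ^ 2 + Ex l (var L) := by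
      have : (fun w => var L (h :: w)) = fun w => L h ^ 2 + var L w := by
        funext w; exact var_cons L h w
      rw [this, Ex_add l (fun _ => L h ^ 2) (var L), Ex_const]
    have h5 : Ex r (fun w => var L (-h :: w)) = L h ^ 2 + Ex r (var L) := by
      have : (fun w => var L (-h :: w)) = fun w => L h ^ 2 + var L w := by
        funext w; rw [var_cons L (-h) w, hneg]
      rw [this, Ex_add r (fun _ => L h ^ 2) (var L), Ex_const]
    rw [h4, h5]
    linarith

/-- second moment of a 2-smooth seminorm -/
theorem sm_two {L : V → ℝ} (hL : Sm L) (T : Tr V) :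
    Ex T (fun w => L w.sum ^ 2) ≤ 5 * Ex T (var L) := by
  have := MaxAux.sm_two_aux hL T 0
  simp only [zero_add, Sm_zero hL] at this
  linarith

end Pool.Agent.HB
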