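import Pool.Agent.HB.M.Ext
import Pool.Agent.HB.S.Nrm
import Pool.Agent.HB.S.Code

/-!
# HB.M.Sys: second moments for the boundary norms

PROOF of `nrm_two`.  If `j < i0` or (no matter) the operation is absent, `nrm = Lf` on the arc (`nrm_off` with `arc_unique`) and
`sm_two` applies (`Sm (Lf p)` from `LG_smul`, `LG_add_le`, `smooth_sq`).  Let `i0 ≤ j`.
(1) For a finite set `Nd` of valid nodes of the operation `j`, closed under tails and containing `[]`, build `TS CV` (CV as a real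
module): `h = p.N (lc j)`, `L = Lf p`, `v ρ = Lc p (code j ρ)`, `q (n::m::σ) x = pr (ev τ (H n)) x + pr (ev τ (H m)) x` (real linear; `0` on
other lists), `N x = (Lf p x ^3 + S3 p H j τ x)^{1/3}`.  `v12`: `code_inj` and `sum_Lc_pow`.  `q1`: `pr (H m) ≤ Lc (code σ)`,
`pr (H n) ≤ Lc (code (m::σ))` (`Val`).  `q2`: `Lc_le_L`.  `len`: `val_length`.  `ZN`: `PE_le_S3`.  `ZP q x σ = PE H τ x σ`.
(2) Given a tree `T`, for each path `w` choose (finitely many paths, `AllP_fin`) an even valid `σ_w` with `PE H τ (w.sum) σ_w ≥ ZZ3 (w.sum) - η`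
(any `η > 0`); `Nd` = all suffixes of all `σ_w`.  Then `ZZ3(w.sum) ≤ Z(w.sum)³ + η`, so `Ex (ZZ3^{2/3}) ≤ Ex (Z²) + η^{2/3}`, and by `ext_two`
`Ex (ZZ3(w.sum)^{2/3}) ≤ C1 N_{lc j}⁴ Ex (∑ (L(d)³ + S3(d))^{2/3})`.
(3) `nrm³ = L³ + psi S3 ≤ 25 L³ + psi ZZ3` (`S3_le_ZZ3`), `nrm² ≤ 9 L² + psi^{2/3} ZZ3^{2/3}` (`25^{2/3} ≤ 9`); `Ex L² ≤ 5 Ex var L`,
`psi^{2/3} (L³+S3)^{2/3} ≤ psi^{2/3} (L² + S3^{2/3}) ≤ 2 nrm²`.  So `Ex (nrm²) ≤ (45 + 2 C1 N⁴) Ex (var nrm)`.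
-/

open Finset Real

namespace Pool.Agent.HB

theorem sm_Lf (p : Par) : Sm (Lf p) where
  nn x := Lf_nonneg' p x
  smul a x := by
    have h1 : a • x = (a : ℂ) • x := by
      ext i
      rw [Finsupp.smul_apply, Finsupp.smul_apply, Complex.real_smul, smul_eq_mul]
    rw [h1]
    refine (LG_smul (good_gam p) (a : ℂ) x).trans ?_
    rw [Complex.norm_real, Real.norm_eq_abs]
  add x y := LG_add_le (good_gam p) x y
  sm x h := smooth_sq (good_gam p) x h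

private lemma sys_smul (a : ℝ) (x : CV) : a • x = (a : ℂ) • x := by
  ext i
  rw [Finsupp.smul_apply, Finsupp.smul_apply, Complex.real_smul, smul_eq_mul]

/-- The pairing as a real linear functional. -/
private noncomputable def sysPr (g : CV) : CV →ₗ[ℝ] ℂ where
  toFun x := pr g x
  map_add' x y := pr_add_right g x y
  map_smul' a x := by
    rw [sys_smul, pr_smul_right, RingHom.id_apply, Complex.real_smul]

private noncomputable def sysQ (H : ℕ → Pol) (τ : ℂ) : List ℕ → CV →ₗ[ℝ] ℂ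
  | n :: m :: _ => sysPr (ev τ (H n)) + sysPr (ev τ (H m))
  | _ => 0

private lemma sysQ_apply (H : ℕ → Pol) (τ : ℂ) (n m : ℕ) (σ : List ℕ) (x : CV) :
    sysQ H τ (n :: m :: σ) x = pr (ev τ (H n)) x + pr (ev τ (H m)) x := rfl

private lemma sys_ZP (H : ℕ → Pol) (τ : ℂ) (x : CV) : ∀ σ, ZP (sysQ H τ) x σ = PE H τ x σ
  | n :: m :: σ => by
    rw [ZP, PE, sys_ZP H τ x σ, sysQ_apply]
  | [] => rfl
  | [_] => rfl

private lemma sys_suffix {p : Par} {H : ℕ → Pol} {j : ℕ} {σ' : List ℕ} :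
    ∀ {σ : List ℕ}, σ' <:+ σ → Val p H j σ → Val p H j σ'
  | [], h, _ => by
    rw [List.suffix_nil.1 h]
    trivial
  | n :: σ, h, hv => by
    rcases List.suffix_cons_iff.1 h with h1 | h1
    · rw [h1]
      exact hv
    · exact sys_suffix h1 (val_tail hv)

/-- Nodes: a finite set of valid nodes, closed under tails. -/
private structure SysN (p : Par) (H : ℕ → Pol) (j : ℕ) where
  Nd : Finset (List ℕ)
  nil : [] ∈ Nd
  tail : ∀ n σ, (n :: σ) ∈ Nd → σ ∈ Nd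
  val : ∀ σ ∈ Nd, Val p H j σ

private noncomputable def sysNrm (p : Par) (H : ℕ → Pol) (j : ℕ) (τ : ℂ) (x : CV) : ℝ :=
  (Lf p x ^ 3 + S3 p H j τ x) ^ ((1 : ℝ) / 3)

private lemma sys_sum_nonneg {p : Par} {H : ℕ → Pol} {j : ℕ} {τ : ℂ} (hτ : Arc p j τ) (x : CV) :
    0 ≤ Lf p x ^ 3 + S3 p H j τ x :=
  add_nonneg (pow_nonneg (Lf_nonneg' p x) 3) (S3_nonneg hτ x)

private lemma sysNrm_cube {p : Par} {H : ℕ → Pol} {j : ℕ} {τ : ℂ} (hτ : Arc p j τ) (x : CV) :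
    sysNrm p H j τ x ^ 3 = Lf p x ^ 3 + S3 p H j τ x := cbrt_cube (sys_sum_nonneg hτ x)

private lemma sysNrm_nonneg {p : Par} {H : ℕ → Pol} {j : ℕ} {τ : ℂ} (hτ : Arc p j τ) (x : CV) :
    0 ≤ sysNrm p H j τ x := Real.rpow_nonneg (sys_sum_nonneg hτ x) _

private noncomputable def sysTS {p : Par} {H : ℕ → Pol} {j : ℕ} {τ : ℂ} (hτ : Arc p j τ) (D : SysN p H j) :
    TS CV where
  Nd := D.Nd
  nil := D.nil
  tail := D.tail
  h := p.N (lc j)
  h1 := by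
    have := par_N_ge p (lc j)
    omega
  len σ hσ := val_length (D.val σ hσ)
  L := Lf p
  hL := sm_Lf p
  v ρ := Lc p (code j ρ)
  vnn ρ x := LG_nonneg (good_gamc p _) x
  vsmul ρ a x := by
    rw [sys_smul]
    refine (LG_smul (good_gamc p _) (a : ℂ) x).trans ?_
    rw [Complex.norm_real, Real.norm_eq_abs]
  vadd ρ x y := LG_add_le (good_gamc p _) x y
  v12 x := by
    have h1 := sum_Lc_pow p (D.Nd.image (code j)) x
    rwa [Finset.sum_image fun a _ b _ h => code_inj j h] at h1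
  q := sysQ H τ
  q1 n m σ h x := by
    have hv := D.val _ h
    rw [sysQ_apply]
    have h1 := hv.2.2.2 τ hτ x
    have h2 := (val_tail hv).2.2.2 τ hτ x
    refine (norm_add_le _ _).trans ?_
    linarith
  q2 n m σ h x := by
    have hv := D.val _ h
    rw [sysQ_apply]
    have h1 := (hv.2.2.2 τ hτ x).trans (Lc_le_L p _ x)
    have h2 := ((val_tail hv).2.2.2 τ hτ x).trans (Lc_le_L p _ x)
    refine (norm_add_le _ _).trans ?_
    linarith
  N := sysNrm p H j τ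
  Nnn x := sysNrm_nonneg hτ x
  Nsmul a x := by
    have h1 : Lf p (a • x) = |a| * Lf p x := (sm_Lf p).smul a x
    have h2 : S3 p H j τ (a • x) = |a| ^ 3 * S3 p H j τ x := by
      rw [sys_smul, S3_smul hτ, Complex.norm_real, Real.norm_eq_abs]
    unfold sysNrm
    rw [h1, h2, mul_pow, ← mul_add, Real.mul_rpow (by positivity) (sys_sum_nonneg hτ x),
      cube_cbrt (abs_nonneg a)]
  LN x := by
    refine le_of_pow_le_pow_left₀ (n := 3) (by norm_num) (sysNrm_nonneg hτ x) ?_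
    rw [sysNrm_cube hτ]
    linarith [S3_nonneg (H := H) hτ x]
  ZN σ hσ he x := by
    rw [sysNrm_cube hτ, sys_ZP]
    have h1 := PE_le_S3 hτ (D.val σ hσ) he x
    have h2 := pow_nonneg (Lf_nonneg' p x) 3
    linarith

private lemma sys_sq_le {a b : ℝ} (ha : 0 ≤ a) (h : a ^ 3 ≤ b) : a ^ 2 ≤ b ^ ((2 : ℝ) / 3) := by
  have h1 : (a ^ 3) ^ ((2 : ℝ) / 3) = a ^ 2 := by
    rw [← Real.rpow_natCast, ← Real.rpow_mul ha, ← Real.rpow_natCast]
    congr 1
    norm_num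
  rw [← h1]
  exact Real.rpow_le_rpow (by positivity) h (by norm_num)

private lemma sys_cube_rpow {a : ℝ} (ha : 0 ≤ a) : (a ^ 3) ^ ((2 : ℝ) / 3) = a ^ 2 := by
  rw [← Real.rpow_natCast, ← Real.rpow_mul ha, ← Real.rpow_natCast]
  congr 1
  norm_num

private lemma sys_sub {a b : ℝ} (ha : 0 ≤ a) (hb : 0 ≤ b) :
    (a + b) ^ ((2 : ℝ) / 3) ≤ a ^ ((2 : ℝ) / 3) + b ^ ((2 : ℝ) / 3) :=
  Real.rpow_add_le_add_rpow ha hb (by norm_num) (by norm_num)

/-- Choice of the nodes for finitely many vectors. -/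
private lemma sys_nodes {p : Par} {H : ℕ → Pol} {j : ℕ} {τ : ℂ} (hτ : Arc p j τ) {A : Set (List CV)}
    (hA : A.Finite) {η : ℝ} (hη : 0 < η) :
    ∃ D : SysN p H j, ∀ w ∈ A, ZZ3 p H j τ w.sum ≤ (sysTS hτ D).Z w.sum ^ 3 + η := by
  classical
  have hch : ∀ w : List CV, ∃ σ : List ℕ, Val p H j σ ∧ Even σ.length ∧
      ZZ3 p H j τ w.sum ≤ PE H τ w.sum σ + η := by
    intro w
    have hne : {r | ∃ σ : List ℕ, Val p H j σ ∧ Even σ.length ∧ r = PE H τ w.sum σ}.Nonempty :=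
      ⟨_, [], trivial, Even.zero, rfl⟩
    obtain ⟨r, ⟨σ, h1, h2, rfl⟩, h3⟩ := exists_lt_of_lt_csSup hne
      (show ZZ3 p H j τ w.sum - η < sSup _ from sub_lt_self _ hη)
    exact ⟨σ, h1, h2, by linarith⟩
  choose σ hv he hle using hch
  let Nd : Finset (List ℕ) := insert [] (hA.toFinset.biUnion fun w => (σ w).tails.toFinset)
  have hmem : ∀ ρ, ρ ∈ Nd ↔ ρ = [] ∨ ∃ w ∈ A, ρ <:+ σ w := by
    intro ρ
    simp only [Nd, Finset.mem_insert, Finset.mem_biUnion, Set.Finite.mem_toFinset,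
      List.mem_toFinset, List.mem_tails]
  have htail : ∀ n ρ, (n :: ρ) ∈ Nd → ρ ∈ Nd := by
    intro n ρ h
    rw [hmem] at h ⊢
    rcases h with h | ⟨w, hw, h⟩
    · exact absurd h (List.cons_ne_nil _ _)
    · exact Or.inr ⟨w, hw, (List.suffix_cons n ρ).trans h⟩
  have hval : ∀ ρ ∈ Nd, Val p H j ρ := by
    intro ρ h
    rw [hmem] at h
    rcases h with rfl | ⟨w, _, h⟩
    · trivial
    · exact sys_suffix h (hv w)
  refine ⟨⟨Nd, (hmem []).2 (Or.inl rfl), htail, hval⟩, fun w hw => ?_⟩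
  refine (hle w).trans (add_le_add ?_ le_rfl)
  have h1 := ZP_le_Z (sysTS hτ ⟨Nd, (hmem []).2 (Or.inl rfl), htail, hval⟩)
    (σ := σ w) ((hmem _).2 (Or.inr ⟨w, hw, List.suffix_refl _⟩)) (he w) w.sum
  refine le_trans (le_of_eq ?_) h1
  exact (sys_ZP H τ w.sum (σ w)).symm

private lemma sys_var_mono {N N' : CV → ℝ} (h0 : ∀ x, 0 ≤ N x) (h : ∀ x, N x ≤ N' x)
    (w : List CV) : var N w ≤ var N' w := by
  induction w with
  | nil => exact le_rfl
  | cons d w ih =>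
    rw [var_cons, var_cons]
    exact add_le_add (pow_le_pow_left₀ (h0 d) (h d) 2) ih

private lemma sys_var_psi {N N' : CV → ℝ} {P : ℝ} (h : ∀ x, P * N x ^ 2 ≤ N' x ^ 2)
    (w : List CV) : P * var N w ≤ var N' w := by
  induction w with
  | nil => simp [var]
  | cons d w ih =>
    rw [var_cons, var_cons, mul_add]
    exact add_le_add (h d) ih

private lemma sys_core {p : Par} {H : ℕ → Pol} {i0 j : ℕ} {τ : ℂ} (hτ : Arc p j τ) (hj : i0 ≤ j)
    {C1 : ℝ} (hC1 : 0 < C1)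
    (hE : ∀ (S : TS CV) (T : Tr CV), Ex T (fun w => S.Z w.sum ^ 2) ≤
      C1 * (S.h : ℝ) ^ 4 * Ex T (var S.N)) (T : Tr CV) :
    Ex T (fun w => nrm p H i0 τ w.sum ^ 2) ≤
      (45 + C1 * (p.N (lc j) : ℝ) ^ 4) * Ex T (var (nrm p H i0 τ)) := by
  refine le_of_forall_pos_le_add fun ε hε => ?_
  obtain ⟨A, hA, hTA⟩ := AllP_fin T
  set η : ℝ := ε ^ ((3 : ℝ) / 2) with hη
  have hη0 : 0 < η := Real.rpow_pos_of_pos hε _
  have hηε : η ^ ((2 : ℝ) / 3) = ε := by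
    rw [hη, ← Real.rpow_mul hε.le]
    norm_num
  obtain ⟨D, hD⟩ := sys_nodes (H := H) hτ hA hη0
  set S := sysTS hτ D with hS
  have hψ0 := psi_nonneg p j τ
  have hψ1 := psi_le_one p j τ
  set P : ℝ := psi p j τ ^ ((2 : ℝ) / 3) with hP
  have hP0 : 0 ≤ P := Real.rpow_nonneg hψ0 _
  have hP1 : P ≤ 1 := Real.rpow_le_one hψ0 hψ1 (by norm_num)
  have key : ∀ w ∈ A, nrm p H i0 τ w.sum ^ 2 ≤
      9 * Lf p w.sum ^ 2 + (P * S.Z w.sum ^ 2 + ε) := by
    intro w hw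
    have hL := Lf_nonneg' p w.sum
    have hZ := Z_nonneg S w.sum
    have h1 := S3_le_ZZ3 (H := H) hτ w.sum
    have h2 := hD w hw
    have h3 : nrm p H i0 τ w.sum ^ 3 ≤
        25 * Lf p w.sum ^ 3 + psi p j τ * (S.Z w.sum ^ 3 + η) := by
      rw [nrm_arc hτ hj]
      have h4 : psi p j τ * S3 p H j τ w.sum ≤
          psi p j τ * (24 * Lf p w.sum ^ 3 + (S.Z w.sum ^ 3 + η)) :=
        mul_le_mul_of_nonneg_left (h1.trans (add_le_add le_rfl h2)) hψ0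
      have h5 : psi p j τ * (24 * Lf p w.sum ^ 3) ≤ 1 * (24 * Lf p w.sum ^ 3) :=
        mul_le_mul_of_nonneg_right hψ1 (by positivity)
      rw [mul_add] at h4
      linarith
    have h6 := sys_sq_le (nrm_nonneg' hτ.1 w.sum) h3
    refine h6.trans ?_
    refine (sys_sub (by positivity) (by positivity)).trans ?_
    have h7 : (25 * Lf p w.sum ^ 3) ^ ((2 : ℝ) / 3) ≤ 9 * Lf p w.sum ^ 2 := by
      rw [Real.mul_rpow (by norm_num) (by positivity), sys_cube_rpow hL]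
      refine mul_le_mul_of_nonneg_right ?_ (by positivity)
      have h8 : (25 : ℝ) ^ ((2 : ℝ) / 3) ≤ (27 : ℝ) ^ ((2 : ℝ) / 3) :=
        Real.rpow_le_rpow (by norm_num) (by norm_num) (by norm_num)
      have h9 : (27 : ℝ) ^ ((2 : ℝ) / 3) = 9 := by
        rw [show (27 : ℝ) = 3 ^ 3 by norm_num, sys_cube_rpow (show (0 : ℝ) ≤ 3 by norm_num)]
        norm_num
      linarith
    have h10 : (psi p j τ * (S.Z w.sum ^ 3 + η)) ^ ((2 : ℝ) / 3) ≤ P * S.Z w.sum ^ 2 + ε := by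
      rw [Real.mul_rpow hψ0 (by positivity)]
      have h11 := sys_sub (a := S.Z w.sum ^ 3) (b := η) (by positivity) hη0.le
      rw [sys_cube_rpow hZ, hηε] at h11
      calc P * (S.Z w.sum ^ 3 + η) ^ ((2 : ℝ) / 3) ≤ P * (S.Z w.sum ^ 2 + ε) :=
            mul_le_mul_of_nonneg_left h11 hP0
        _ = P * S.Z w.sum ^ 2 + P * ε := mul_add _ _ _
        _ ≤ P * S.Z w.sum ^ 2 + 1 * ε := by gcongr
        _ = _ := by rw [one_mul]
    exact add_le_add h7 h10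
  have h12 : Ex T (fun w => nrm p H i0 τ w.sum ^ 2) ≤
      Ex T (fun w => 9 * Lf p w.sum ^ 2 + (P * S.Z w.sum ^ 2 + ε)) :=
    Ex_mono T (AllP_mono T hTA fun w hw => key w hw)
  have h13 : Ex T (fun w => 9 * Lf p w.sum ^ 2 + (P * S.Z w.sum ^ 2 + ε)) =
      9 * Ex T (fun w => Lf p w.sum ^ 2) + (P * Ex T (fun w => S.Z w.sum ^ 2) + ε) := by
    rw [Ex_add T (fun w => 9 * Lf p w.sum ^ 2) (fun w => P * S.Z w.sum ^ 2 + ε),
      Ex_add T (fun w => P * S.Z w.sum ^ 2) (fun _ => ε), Ex_const,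
      Ex_smul T 9 (fun w => Lf p w.sum ^ 2), Ex_smul T P (fun w => S.Z w.sum ^ 2)]
  have h14 := sm_two (sm_Lf p) T
  have h15 : Ex T (var (Lf p)) ≤ Ex T (var (nrm p H i0 τ)) :=
    Ex_mono T (AllP_of T fun w => sys_var_mono (Lf_nonneg' p) (fun x => L_le_nrm hτ.1 x) w)
  have h16 := hE S T
  have hh : S.h = p.N (lc j) := rfl
  rw [hh] at h16
  have h17 : P * Ex T (var S.N) ≤ Ex T (var (nrm p H i0 τ)) := by
    rw [← Ex_smul]
    refine Ex_mono T (AllP_of T fun w => sys_var_psi (fun x => ?_) w)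
    have hN : S.N x = sysNrm p H j τ x := rfl
    rw [hN]
    have e1 : sysNrm p H j τ x ^ 2 = (Lf p x ^ 3 + S3 p H j τ x) ^ ((2 : ℝ) / 3) := by
      rw [← sysNrm_cube hτ, sys_cube_rpow (sysNrm_nonneg hτ x)]
    rw [e1, hP, ← Real.mul_rpow hψ0 (sys_sum_nonneg hτ x),
      ← sys_cube_rpow (nrm_nonneg' (p := p) (H := H) (i0 := i0) hτ.1 x)]
    refine Real.rpow_le_rpow (mul_nonneg hψ0 (sys_sum_nonneg hτ x)) ?_ (by norm_num)
    rw [nrm_arc hτ hj, mul_add]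
    have : psi p j τ * Lf p x ^ 3 ≤ 1 * Lf p x ^ 3 :=
      mul_le_mul_of_nonneg_right hψ1 (pow_nonneg (Lf_nonneg' p x) 3)
    linarith
  have h18 : P * Ex T (fun w => S.Z w.sum ^ 2) ≤
      C1 * (p.N (lc j) : ℝ) ^ 4 * Ex T (var (nrm p H i0 τ)) := by
    calc P * Ex T (fun w => S.Z w.sum ^ 2)
        ≤ P * (C1 * (p.N (lc j) : ℝ) ^ 4 * Ex T (var S.N)) :=
          mul_le_mul_of_nonneg_left h16 hP0
      _ = C1 * (p.N (lc j) : ℝ) ^ 4 * (P * Ex T (var S.N)) := by ring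
      _ ≤ _ := mul_le_mul_of_nonneg_left h17 (by positivity)
  rw [h13] at h12
  linarith

theorem nrm_two : ∃ C2 : ℝ, 0 < C2 ∧ ∀ (p : Par) (H : ℕ → Pol) (i0 j : ℕ) (τ : ℂ), Arc p j τ →
    ∀ T : Tr CV, Ex T (fun w => nrm p H i0 τ w.sum ^ 2) ≤
      C2 * (p.N (lc j) : ℝ) ^ 4 * Ex T (var (nrm p H i0 τ)) := by
  obtain ⟨C1, hC1, hE⟩ := ext_two
  refine ⟨45 + C1, by linarith, fun p H i0 j τ hτ T => ?_⟩
  have hN : (1 : ℝ) ≤ (p.N (lc j) : ℝ) := by
    have := par_N_ge p (lc j)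
    have : 1 ≤ p.N (lc j) := by omega
    exact_mod_cast this
  have hN4 : (1 : ℝ) ≤ (p.N (lc j) : ℝ) ^ 4 := one_le_pow₀ hN
  have hV : 0 ≤ Ex T (var (nrm p H i0 τ)) := by
    have h1 := Ex_mono T (f := fun _ => (0 : ℝ)) (g := var (nrm p H i0 τ))
      (AllP_of T fun w => var_nonneg _ w)
    rwa [Ex_const] at h1
  by_cases hj : i0 ≤ j
  · refine (sys_core hτ hj hC1 (fun S T => hE CV S T) T).trans ?_
    refine mul_le_mul_of_nonneg_right ?_ hV
    nlinarith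
  · have hoff : nrm p H i0 τ = Lf p := by
      funext x
      exact nrm_off hτ.1 (fun j' hj' ha => hj (arc_unique p ha hτ ▸ hj')) x
    rw [hoff] at hV ⊢
    refine (sm_two (sm_Lf p) T).trans (mul_le_mul_of_nonneg_right ?_ hV)
    nlinarith

end Pool.Agent.HB
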