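import Pool.Agent.HB.M.UniB

/-!
# HB.M.Uni: fourth moment of `Z` for martingales of bounded variation

PROOF.  `A = {var > 0}`.  Off `A`: `N d = 0` for all increments, `Z(sum) ≤ ∑ Z(d) ≤ ∑ N(d) = 0`.  `Ev s` decreases in `s`, and for a given
path `Ev s` fails for large `s` (finitely many splittings, finite `Nd`); `s*(w)` = least natural `s` with `¬ Ev s w`.
`Z ≤ 8h(1+2s*)` (`uniB`).  Let `Q = 4(h+1)e³·2^{12h}·12!·e³`, `s0 = ⌈log Q⌉₊`, so `Ex 1_{Ev s} ≤ e^{-(s-s0)} P(A)` for natural `s ≥ s0` (`uniA`), and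
`s0 ≤ C h`.  With `S` an upper bound for `s*` on the paths of `T` (`AllP_bdd`):
`(1+2s*)⁴ ≤ (1+2s0)⁴ + ∑_{s0 ≤ s < S} (3+2s)⁴ 1_{Ev s}`.  On `A`, taking expectations (`Ev s ⊆ A`: an activation needs `v ρ > 0`,
`v ρ ≤ L ≤ N` by `v12`): `Ex (Z⁴) ≤ (8h)⁴ ((1+2s0)⁴ + ∑_{j≥0} (3+2s0+2j)⁴ e^{-j}) P(A) ≤ (8h)⁴ C (3+2s0)⁴ P(A) ≤ C0 h⁸ P(A)`
(`(3+2s0+2j) ≤ (3+2s0)(1+j)`).
-/

open Finset Real

namespace Pool.Agent.HB

section
variable {V : Type} [AddCommGroup V] [Module ℝ V]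

omit [Module ℝ V] in
/-- a seminorm of a sum -/
theorem semi_sum {F N : V → ℝ} (h0 : F 0 ≤ 0) (hadd : ∀ x y, F (x + y) ≤ F x + F y)
    (hFN : ∀ x, F x ≤ N x) (w : List V) : F w.sum ≤ (w.map N).sum := by
  induction w with
  | nil => simpa using h0
  | cons d w ih =>
    rw [List.sum_cons, List.map_cons, List.sum_cons]
    have h1 := hadd d w.sum
    have h2 := hFN d
    linarith

omit [AddCommGroup V] [Module ℝ V] in
theorem mapN_nonneg {N : V → ℝ} (hN : ∀ x, 0 ≤ N x) (w : List V) : 0 ≤ (w.map N).sum := by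
  induction w with
  | nil => simp
  | cons d w ih =>
    rw [List.map_cons, List.sum_cons]
    have := hN d
    linarith

omit [AddCommGroup V] [Module ℝ V] in
theorem mapN_zero {N : V → ℝ} (w : List V) (h : var N w ≤ 0) : (w.map N).sum = 0 := by
  induction w with
  | nil => simp
  | cons d w ih =>
    rw [var_cons] at h
    have h1 := var_nonneg N w
    have h2 : N d ^ 2 ≤ 0 := by linarith
    have h3 : N d = 0 := by
      have := sq_nonneg (N d)
      exact pow_eq_zero_iff (two_ne_zero) |>.1 (le_antisymm h2 this)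
    rw [List.map_cons, List.sum_cons, h3, zero_add]
    exact ih (by nlinarith [sq_nonneg (N d)])

theorem TS.Z_zero (S : TS V) : S.Z 0 = 0 := by
  have h := Z_smul S 0 0
  rw [abs_zero, zero_mul, zero_smul] at h
  exact h

theorem Sm.zero {B : V → ℝ} (hB : Sm B) : B 0 = 0 := by
  have h := hB.smul 0 0
  rw [abs_zero, zero_mul, zero_smul] at h
  exact h

/-- `Ev s` fails for large `s` -/
theorem not_Ev_large (S : TS V) (w : List V) {s : ℝ} (hs : 2 ^ S.h * (w.map S.N).sum ≤ s) :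
    ¬ S.Ev s w := by
  have key : ∀ B v : V → ℝ, Sm B → (∀ x, B x ≤ S.N x) → ∀ l ≤ S.h, ∀ δ : ℝ,
      ¬ Bad B S.N v δ ((1 / 2) ^ l) s w := by
    rintro B v hB hBN l hl δ ⟨w1, w2, w3, hw, _, _, hbig⟩
    have h1 := semi_sum hB.zero.le hB.add hBN w2
    have h2 : (w2.map S.N).sum ≤ (w.map S.N).sum := by
      rw [hw, List.map_append, List.map_append, List.sum_append, List.sum_append]
      have := mapN_nonneg S.Nnn w1
      have := mapN_nonneg S.Nnn w3
      linarith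
    have hs0 : 0 ≤ s := le_trans (mul_nonneg (by positivity) (mapN_nonneg S.Nnn w)) hs
    have h3 : (1 / 2 : ℝ) ^ S.h ≤ (1 / 2) ^ l := pow_le_pow_of_le_one (by norm_num) (by norm_num) hl
    have h4 : s * (1 / 2 : ℝ) ^ S.h ≤ s * (1 / 2) ^ l := mul_le_mul_of_nonneg_left h3 hs0
    have h5 : (w.map S.N).sum ≤ s * (1 / 2 : ℝ) ^ S.h := by
      have h6 : (w.map S.N).sum = 2 ^ S.h * (w.map S.N).sum * (1 / 2 : ℝ) ^ S.h := by
        have : (2 : ℝ) ^ S.h * (1 / 2) ^ S.h = 1 := by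
          rw [← mul_pow]
          norm_num
        calc (w.map S.N).sum = (2 ^ S.h * (1 / 2) ^ S.h) * (w.map S.N).sum := by
              rw [this, one_mul]
          _ = _ := by ring
      rw [h6]
      exact mul_le_mul_of_nonneg_right hs (by positivity)
    linarith
  rintro ⟨ρ, hρ, l, hl, h | h⟩
  · exact key _ _ (sm_B S ρ) (B_le_N S hρ) l hl _ h
  · exact key _ _ S.hL S.LN l hl _ h

theorem layer (S : TS V) (w : List V) (hw : var S.N w ≤ 1) (s0 : ℕ) (k : ℕ)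
    (h : ¬ S.Ev ((s0 + k : ℕ) : ℝ) w) :
    S.Z w.sum ^ 4 ≤ (8 * S.h) ^ 4 * ((1 + 2 * s0) ^ 4 +
      ∑ j ∈ range k, (3 + 2 * ((s0 + j : ℕ) : ℝ)) ^ 4 * ind (S.Ev ((s0 + j : ℕ) : ℝ)) w) := by
  induction k with
  | zero =>
    have h1 := uniB S w hw ((s0 + 0 : ℕ) : ℝ) (Nat.cast_nonneg _) h
    have h2 := pow_le_pow_left₀ (Z_nonneg S _) h1 4
    rw [Finset.range_zero, Finset.sum_empty, add_zero, ← mul_pow]
    simpa using h2
  | succ k ih =>
    rw [Finset.sum_range_succ]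
    have hpos : ∀ j, 0 ≤ (3 + 2 * ((s0 + j : ℕ) : ℝ)) ^ 4 * ind (S.Ev ((s0 + j : ℕ) : ℝ)) w :=
      fun j => mul_nonneg (by positivity) (ind_nonneg _ _)
    by_cases hE : S.Ev ((s0 + k : ℕ) : ℝ) w
    · have h1 := uniB S w hw ((s0 + (k + 1) : ℕ) : ℝ) (Nat.cast_nonneg _) h
      have h2 := pow_le_pow_left₀ (Z_nonneg S _) h1 4
      refine h2.trans ?_
      rw [mul_pow]
      refine mul_le_mul_of_nonneg_left ?_ (by positivity)
      have e1 : ind (S.Ev ((s0 + k : ℕ) : ℝ)) w = 1 := by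
        unfold ind
        rw [if_pos hE]
      rw [e1, mul_one]
      have e2 : (1 + 2 * ((s0 + (k + 1) : ℕ) : ℝ)) = 3 + 2 * ((s0 + k : ℕ) : ℝ) := by
        push_cast
        ring
      rw [e2]
      have e3 := Finset.sum_nonneg fun j (_ : j ∈ range k) => hpos j
      have e4 : (0 : ℝ) ≤ (1 + 2 * (s0 : ℝ)) ^ 4 := by positivity
      linarith
    · refine (ih hE).trans (mul_le_mul_of_nonneg_left ?_ (by positivity))
      have := hpos k
      linarith

end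

theorem twelve_fact : (Nat.factorial 12 : ℝ) ≤ 2 ^ 30 := by
  have : Nat.factorial 12 ≤ 2 ^ 30 := by decide
  exact_mod_cast this

theorem two_pow_le_exp (k : ℕ) : (2 : ℝ) ^ k ≤ exp k := by
  have h1 : (2 : ℝ) ≤ exp 1 := by
    have := Real.add_one_le_exp (1 : ℝ)
    linarith
  calc (2 : ℝ) ^ k ≤ exp 1 ^ k := pow_le_pow_left₀ (by norm_num) h1 k
    _ = exp k := by rw [← Real.exp_nat_mul, mul_one]

/-- the constant of `uniA` -/
theorem Q_le {h : ℕ} (hh : 1 ≤ h) :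
    4 * ((h : ℝ) + 1) * exp 3 * (2 ^ (12 * h) * Nat.factorial 12 * exp 3) ≤
      exp ((60 * h : ℕ) : ℝ) := by
  have hh' : (1 : ℝ) ≤ h := by exact_mod_cast hh
  have h1 : 4 * ((h : ℝ) + 1) ≤ exp ((4 * h : ℕ) : ℝ) := by
    have e1 : (h : ℝ) + 1 ≤ exp h := Real.add_one_le_exp _
    have e2 : (4 : ℝ) ≤ exp ((3 * h : ℕ) : ℝ) := by
      have e3 := two_pow_le_exp 2
      have e4 : exp ((2 : ℕ) : ℝ) ≤ exp ((3 * h : ℕ) : ℝ) := by
        refine Real.exp_le_exp.2 ?_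
        push_cast
        linarith
      linarith
    calc 4 * ((h : ℝ) + 1) ≤ exp ((3 * h : ℕ) : ℝ) * exp h :=
          mul_le_mul e2 e1 (by positivity) (Real.exp_pos _).le
      _ = exp ((4 * h : ℕ) : ℝ) := by
          rw [← Real.exp_add]
          congr 1
          push_cast
          ring
  have h2 : exp 3 ≤ exp ((3 * h : ℕ) : ℝ) := by
    refine Real.exp_le_exp.2 ?_
    push_cast
    linarith
  have h3 := two_pow_le_exp (12 * h)
  have h4 : (Nat.factorial 12 : ℝ) ≤ exp ((30 * h : ℕ) : ℝ) := by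
    have e1 := two_pow_le_exp 30
    have e2 : exp ((30 : ℕ) : ℝ) ≤ exp ((30 * h : ℕ) : ℝ) := by
      refine Real.exp_le_exp.2 ?_
      push_cast
      linarith
    exact twelve_fact.trans (e1.trans e2)
  calc 4 * ((h : ℝ) + 1) * exp 3 * (2 ^ (12 * h) * Nat.factorial 12 * exp 3)
      ≤ exp ((4 * h : ℕ) : ℝ) * exp ((3 * h : ℕ) : ℝ) * (exp ((12 * h : ℕ) : ℝ) *
        exp ((30 * h : ℕ) : ℝ) * exp ((3 * h : ℕ) : ℝ)) := by
        refine mul_le_mul (mul_le_mul h1 h2 (Real.exp_pos _).le (Real.exp_pos _).le)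
          (mul_le_mul (mul_le_mul h3 h4 (Nat.cast_nonneg _) (Real.exp_pos _).le) h2
            (Real.exp_pos _).le (by positivity)) (by positivity) (by positivity)
    _ = exp ((52 * h : ℕ) : ℝ) := by
        rw [← Real.exp_add, ← Real.exp_add, ← Real.exp_add, ← Real.exp_add]
        congr 1
        push_cast
        ring
    _ ≤ exp ((60 * h : ℕ) : ℝ) := by
        refine Real.exp_le_exp.2 ?_
        push_cast
        linarith

theorem summable_four : Summable fun j : ℕ => (1 + (j : ℝ)) ^ 4 * exp (-(j : ℝ)) := by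
  have h1 := Real.summable_pow_mul_exp_neg_nat_mul 4 (r := 1) one_pos
  have h2 := (summable_nat_add_iff 1).2 h1
  refine (h2.mul_left (exp 1)).congr fun j => ?_
  push_cast
  have h3 : exp (-(j : ℝ)) = exp 1 * exp (-1 * ((j : ℝ) + 1)) := by
    rw [← Real.exp_add]
    congr 1
    ring
  rw [h3]
  ring

theorem uni : ∃ C0 : ℝ, 0 < C0 ∧ ∀ (V : Type) [AddCommGroup V] [Module ℝ V] (S : TS V) (T : Tr V),
    AllP T (fun w => var S.N w ≤ 1) →
    Ex T (fun w => S.Z w.sum ^ 4) ≤ C0 * (S.h : ℝ) ^ 8 * Ex T (ind (fun w => 0 < var S.N w)) := by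
  set C' : ℝ := ∑' j : ℕ, (1 + (j : ℝ)) ^ 4 * exp (-(j : ℝ)) with hC'
  have hC'0 : 0 ≤ C' := tsum_nonneg fun j => by positivity
  refine ⟨8 ^ 4 * 123 ^ 4 * (1 + C'), by positivity, ?_⟩
  intro V _ _ S T hT
  set p := Ex T (ind (fun w => 0 < var S.N w)) with hp
  have hp0 : 0 ≤ p := by
    rw [hp, ← Ex_const T 0]
    exact Ex_mono T (AllP_of T fun w => ind_nonneg _ _)
  have hh : (1 : ℝ) ≤ S.h := by exact_mod_cast S.h1
  set s0 := 60 * S.h with hs0
  -- probability of the events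
  have hEv : ∀ j : ℕ, Ex T (ind (S.Ev ((s0 + j : ℕ) : ℝ))) ≤ exp (-(j : ℝ)) * p := by
    intro j
    refine (uniA S T hT _).trans (mul_le_mul_of_nonneg_right ?_ hp0)
    have h1 : exp (3 - ((s0 + j : ℕ) : ℝ)) =
        exp 3 * (exp (-((s0 : ℕ) : ℝ)) * exp (-(j : ℝ))) := by
      rw [← Real.exp_add, ← Real.exp_add]
      congr 1
      push_cast
      ring
    have h2 := Q_le S.h1
    have h3 : exp ((60 * S.h : ℕ) : ℝ) * exp (-((s0 : ℕ) : ℝ)) = 1 := by
      rw [← Real.exp_add, hs0, add_neg_cancel, Real.exp_zero]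
    calc 4 * ((S.h : ℝ) + 1) * exp (3 - ((s0 + j : ℕ) : ℝ)) *
          (2 ^ (12 * S.h) * Nat.factorial 12 * exp 3)
        = (4 * ((S.h : ℝ) + 1) * exp 3 * (2 ^ (12 * S.h) * Nat.factorial 12 * exp 3)) *
          (exp (-((s0 : ℕ) : ℝ)) * exp (-(j : ℝ))) := by
          rw [h1]
          ring
      _ ≤ exp ((60 * S.h : ℕ) : ℝ) * (exp (-((s0 : ℕ) : ℝ)) * exp (-(j : ℝ))) :=
          mul_le_mul_of_nonneg_right h2 (by positivity)
      _ = exp (-(j : ℝ)) := by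
          rw [← mul_assoc, h3, one_mul]
  obtain ⟨B, hB⟩ := AllP_bdd T (fun w => 2 ^ S.h * (w.map S.N).sum)
  obtain ⟨k, hk⟩ := exists_nat_ge B
  have hpt : AllP T (fun w => S.Z w.sum ^ 4 ≤ (8 * S.h) ^ 4 * ((1 + 2 * s0) ^ 4 *
      ind (fun w => 0 < var S.N w) w +
      ∑ j ∈ range k, (3 + 2 * ((s0 + j : ℕ) : ℝ)) ^ 4 * ind (S.Ev ((s0 + j : ℕ) : ℝ)) w)) := by
    refine AllP_mono T (AllP_and T hT hB) ?_
    rintro w ⟨hw1, hw2⟩
    have hnot : ¬ S.Ev ((s0 + k : ℕ) : ℝ) w := by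
      refine not_Ev_large S w (hw2.trans (hk.trans ?_))
      exact_mod_cast Nat.le_add_left k s0
    have h1 := layer S w hw1 s0 k hnot
    by_cases hA : 0 < var S.N w
    · have e1 : ind (fun w => 0 < var S.N w) w = 1 := by
        unfold ind
        rw [if_pos hA]
      rw [e1, mul_one]
      exact h1
    · have e1 : ind (fun w => 0 < var S.N w) w = 0 := by
        unfold ind
        rw [if_neg hA]
      have e2 : S.Z w.sum ≤ 0 := by
        have := semi_sum S.Z_zero.le (Z_add S) (Z_le_N S) w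
        rw [mapN_zero w (not_lt.1 hA)] at this
        exact this
      have e3 : S.Z w.sum = 0 := le_antisymm e2 (Z_nonneg S _)
      rw [e1, e3]
      have e4 := Finset.sum_nonneg fun j (_ : j ∈ range k) =>
        mul_nonneg (show (0 : ℝ) ≤ (3 + 2 * ((s0 + j : ℕ) : ℝ)) ^ 4 by positivity)
          (ind_nonneg (S.Ev ((s0 + j : ℕ) : ℝ)) w)
      have e5 : (0 : ℝ) ≤ (8 * (S.h : ℝ)) ^ 4 := by positivity
      nlinarith
  have h1 := Ex_mono T hpt
  refine h1.trans ?_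
  rw [Ex_smul, Ex_add, Ex_smul, Ex_sum]
  have h2 : ∑ j ∈ range k, Ex T (fun w => (3 + 2 * ((s0 + j : ℕ) : ℝ)) ^ 4 *
      ind (S.Ev ((s0 + j : ℕ) : ℝ)) w) ≤ (123 * S.h) ^ 4 * C' * p := by
    have h3 : ∀ j ∈ range k, Ex T (fun w => (3 + 2 * ((s0 + j : ℕ) : ℝ)) ^ 4 *
        ind (S.Ev ((s0 + j : ℕ) : ℝ)) w) ≤
        (123 * S.h) ^ 4 * p * ((1 + (j : ℝ)) ^ 4 * exp (-(j : ℝ))) := by
      intro j _
      rw [Ex_smul]
      have e1 : 3 + 2 * ((s0 + j : ℕ) : ℝ) ≤ (123 * S.h) * (1 + j) := by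
        rw [hs0]
        push_cast
        have : (0 : ℝ) ≤ j := Nat.cast_nonneg _
        nlinarith
      calc (3 + 2 * ((s0 + j : ℕ) : ℝ)) ^ 4 * Ex T (ind (S.Ev ((s0 + j : ℕ) : ℝ)))
          ≤ ((123 * S.h) * (1 + j)) ^ 4 * (exp (-(j : ℝ)) * p) := by
            refine mul_le_mul (pow_le_pow_left₀ (by positivity) e1 4) (hEv j) ?_ (by positivity)
            rw [← Ex_const T 0]
            exact Ex_mono T (AllP_of T fun w => ind_nonneg _ _)
        _ = _ := by ring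
    refine (Finset.sum_le_sum h3).trans ?_
    rw [← Finset.mul_sum]
    have h4 : ∑ j ∈ range k, (1 + (j : ℝ)) ^ 4 * exp (-(j : ℝ)) ≤ C' :=
      summable_four.sum_le_tsum _ (fun j _ => by positivity)
    calc (123 * (S.h : ℝ)) ^ 4 * p * ∑ j ∈ range k, (1 + (j : ℝ)) ^ 4 * exp (-(j : ℝ))
        ≤ (123 * (S.h : ℝ)) ^ 4 * p * C' := mul_le_mul_of_nonneg_left h4 (by positivity)
      _ = _ := by ring
  have h5 : (1 + 2 * (s0 : ℝ)) ^ 4 ≤ (123 * S.h) ^ 4 := by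
    refine pow_le_pow_left₀ (by positivity) ?_ 4
    rw [hs0]
    push_cast
    linarith
  calc (8 * (S.h : ℝ)) ^ 4 * ((1 + 2 * (s0 : ℝ)) ^ 4 * p + ∑ j ∈ range k,
        Ex T (fun w => (3 + 2 * ((s0 + j : ℕ) : ℝ)) ^ 4 * ind (S.Ev ((s0 + j : ℕ) : ℝ)) w))
      ≤ (8 * (S.h : ℝ)) ^ 4 * ((123 * S.h) ^ 4 * p + (123 * S.h) ^ 4 * C' * p) :=
        mul_le_mul_of_nonneg_left (add_le_add (mul_le_mul_of_nonneg_right h5 hp0) h2)
          (by positivity)
    _ = _ := by ring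

end Pool.Agent.HB
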