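import Pool.Agent.HB.M.Max
import Pool.Agent.HB.M.L3

/-!
# HB.M.UniA: probability of a large increment after some activation

PROOF.  `ind (Ev s) ≤ ∑_{ρ∈Nd} ∑_{l≤h} (ind Bad_{B ρ} + ind Bad_L)`, by `max_after` (`B ρ ≤ N`, `L ≤ N`, `N(-x) = N x` from `Nsmul`)
each term has expectation `≤ 2 e^{3-s} P(Act (v ρ) δ)`, `δ = 2^{-h}`.  `∑_ρ P(Act ρ) ≤ δ^{-12} ∑_ρ Ex (v ρ (sum)^12)` (`act_prob`)
`≤ δ^{-12} Ex (L(sum)^12)` (`v12`) `≤ 2^{12h} 12! e³ P(var > 0)` (`exp_L`).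
-/

open Finset Real

namespace Pool.Agent.HB

variable {V : Type} [AddCommGroup V] [Module ℝ V]

/-- some increment after the activation of some node is large -/
def TS.Ev (S : TS V) (s : ℝ) (w : List V) : Prop :=
  ∃ ρ ∈ S.Nd, ∃ l : ℕ, l ≤ S.h ∧
    (Bad (S.B ρ) S.N (S.v ρ) ((1 / 2) ^ S.h) ((1 / 2) ^ l) s w ∨
      Bad S.L S.N (S.v ρ) ((1 / 2) ^ S.h) ((1 / 2) ^ l) s w)

omit [AddCommGroup V] [Module ℝ V] in
theorem ind_nonneg (P : List V → Prop) (w : List V) : 0 ≤ ind P w := by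
  unfold ind
  split_ifs <;> norm_num

theorem TS.N_neg (S : TS V) (x : V) : S.N (-x) = S.N x := by
  have h := S.Nsmul (-1) x
  rw [neg_one_smul, abs_neg, abs_one, one_mul] at h
  exact h

theorem uniA (S : TS V) (T : Tr V) (hT : AllP T (fun w => var S.N w ≤ 1)) (s : ℝ) :
    Ex T (ind (S.Ev s)) ≤ 4 * (S.h + 1) * exp (3 - s) * (2 ^ (12 * S.h) * Nat.factorial 12 * exp 3) *
      Ex T (ind (fun w => 0 < var S.N w)) := by
  classical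
  have h1 : Ex T (ind (S.Ev s)) ≤ Ex T (fun w => ∑ ρ ∈ S.Nd, ∑ l ∈ range (S.h + 1),
      (ind (Bad (S.B ρ) S.N (S.v ρ) ((1 / 2) ^ S.h) ((1 / 2) ^ l) s) w +
        ind (Bad S.L S.N (S.v ρ) ((1 / 2) ^ S.h) ((1 / 2) ^ l) s) w)) := by
    refine Ex_mono T (AllP_of T fun w => ?_)
    by_cases h : S.Ev s w
    · obtain ⟨ρ, hρ, l, hl, h2⟩ := h
      have e1 : ind (S.Ev s) w = 1 := by
        unfold ind
        rw [if_pos ⟨ρ, hρ, l, hl, h2⟩]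
      rw [e1]
      have e2 : (1 : ℝ) ≤ ind (Bad (S.B ρ) S.N (S.v ρ) ((1 / 2) ^ S.h) ((1 / 2) ^ l) s) w +
          ind (Bad S.L S.N (S.v ρ) ((1 / 2) ^ S.h) ((1 / 2) ^ l) s) w := by
        rcases h2 with h2 | h2
        · have e3 : ind (Bad (S.B ρ) S.N (S.v ρ) ((1 / 2) ^ S.h) ((1 / 2) ^ l) s) w = 1 := by
            unfold ind
            rw [if_pos h2]
          have e4 := ind_nonneg (Bad S.L S.N (S.v ρ) ((1 / 2) ^ S.h) ((1 / 2) ^ l) s) w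
          linarith
        · have e3 : ind (Bad S.L S.N (S.v ρ) ((1 / 2) ^ S.h) ((1 / 2) ^ l) s) w = 1 := by
            unfold ind
            rw [if_pos h2]
          have e4 := ind_nonneg (Bad (S.B ρ) S.N (S.v ρ) ((1 / 2) ^ S.h) ((1 / 2) ^ l) s) w
          linarith
      refine e2.trans ?_
      have e5 : ∀ ρ l, 0 ≤ ind (Bad (S.B ρ) S.N (S.v ρ) ((1 / 2) ^ S.h) ((1 / 2) ^ l) s) w +
          ind (Bad S.L S.N (S.v ρ) ((1 / 2) ^ S.h) ((1 / 2) ^ l) s) w := fun ρ l =>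
        add_nonneg (ind_nonneg _ _) (ind_nonneg _ _)
      refine le_trans (Finset.single_le_sum (f := fun l =>
        ind (Bad (S.B ρ) S.N (S.v ρ) ((1 / 2) ^ S.h) ((1 / 2) ^ l) s) w +
          ind (Bad S.L S.N (S.v ρ) ((1 / 2) ^ S.h) ((1 / 2) ^ l) s) w) (fun l _ => e5 ρ l)
          (Finset.mem_range.2 (Nat.lt_succ_of_le hl))) ?_
      exact Finset.single_le_sum (f := fun ρ => ∑ l ∈ range (S.h + 1),
        (ind (Bad (S.B ρ) S.N (S.v ρ) ((1 / 2) ^ S.h) ((1 / 2) ^ l) s) w +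
          ind (Bad S.L S.N (S.v ρ) ((1 / 2) ^ S.h) ((1 / 2) ^ l) s) w))
        (fun ρ _ => Finset.sum_nonneg fun l _ => e5 ρ l) hρ
    · have e1 : ind (S.Ev s) w = 0 := by
        unfold ind
        rw [if_neg h]
      rw [e1]
      exact Finset.sum_nonneg fun ρ _ => Finset.sum_nonneg fun l _ =>
        add_nonneg (ind_nonneg _ _) (ind_nonneg _ _)
  have h2 : Ex T (fun w => ∑ ρ ∈ S.Nd, ∑ l ∈ range (S.h + 1),
      (ind (Bad (S.B ρ) S.N (S.v ρ) ((1 / 2) ^ S.h) ((1 / 2) ^ l) s) w +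
        ind (Bad S.L S.N (S.v ρ) ((1 / 2) ^ S.h) ((1 / 2) ^ l) s) w)) =
      ∑ ρ ∈ S.Nd, ∑ l ∈ range (S.h + 1),
      (Ex T (ind (Bad (S.B ρ) S.N (S.v ρ) ((1 / 2) ^ S.h) ((1 / 2) ^ l) s)) +
        Ex T (ind (Bad S.L S.N (S.v ρ) ((1 / 2) ^ S.h) ((1 / 2) ^ l) s))) := by
    rw [Ex_sum]
    refine Finset.sum_congr rfl fun ρ _ => ?_
    rw [Ex_sum]
    refine Finset.sum_congr rfl fun l _ => ?_
    exact Ex_add T _ _
  have h3 : ∑ ρ ∈ S.Nd, ∑ l ∈ range (S.h + 1),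
      (Ex T (ind (Bad (S.B ρ) S.N (S.v ρ) ((1 / 2) ^ S.h) ((1 / 2) ^ l) s)) +
        Ex T (ind (Bad S.L S.N (S.v ρ) ((1 / 2) ^ S.h) ((1 / 2) ^ l) s))) ≤
      ∑ ρ ∈ S.Nd, ∑ l ∈ range (S.h + 1),
        4 * exp (3 - s) * Ex T (ind (Act (S.v ρ) ((1 / 2) ^ S.h))) := by
    refine Finset.sum_le_sum fun ρ hρ => Finset.sum_le_sum fun l _ => ?_
    have e1 := max_after (v := S.v ρ) (sm_B S ρ) (B_le_N S hρ) S.N_neg ((1 / 2) ^ S.h)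
      ((1 / 2) ^ l) s (by positivity) T
    have e2 := max_after (v := S.v ρ) S.hL S.LN S.N_neg ((1 / 2) ^ S.h)
      ((1 / 2) ^ l) s (by positivity) T
    linarith
  have h4 : ∑ ρ ∈ S.Nd, ∑ l ∈ range (S.h + 1),
        4 * exp (3 - s) * Ex T (ind (Act (S.v ρ) ((1 / 2) ^ S.h))) =
      4 * (S.h + 1) * exp (3 - s) * ∑ ρ ∈ S.Nd, Ex T (ind (Act (S.v ρ) ((1 / 2) ^ S.h))) := by
    rw [Finset.mul_sum]
    refine Finset.sum_congr rfl fun ρ _ => ?_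
    rw [Finset.sum_const, Finset.card_range, nsmul_eq_mul]
    push_cast
    ring
  have h5 : ((1 / 2 : ℝ) ^ S.h) ^ 12 * ∑ ρ ∈ S.Nd, Ex T (ind (Act (S.v ρ) ((1 / 2) ^ S.h))) ≤
      (Nat.factorial 12 : ℝ) * exp 3 * Ex T (ind (fun w => 0 < var S.N w)) := by
    rw [Finset.mul_sum]
    calc ∑ ρ ∈ S.Nd, ((1 / 2 : ℝ) ^ S.h) ^ 12 * Ex T (ind (Act (S.v ρ) ((1 / 2) ^ S.h)))
        ≤ ∑ ρ ∈ S.Nd, Ex T (fun w => S.v ρ w.sum ^ 12) :=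
          Finset.sum_le_sum fun ρ _ =>
            act_prob (S.vnn ρ) (S.vsmul ρ) (S.vadd ρ) ((1 / 2) ^ S.h) (by positivity) T
      _ = Ex T (fun w => ∑ ρ ∈ S.Nd, S.v ρ w.sum ^ 12) :=
          (Ex_sum T S.Nd (fun ρ w => S.v ρ w.sum ^ 12)).symm
      _ ≤ Ex T (fun w => S.L w.sum ^ 12) := Ex_mono T (AllP_of T fun w => S.v12 w.sum)
      _ ≤ _ := exp_L S.hL S.LN S.N_neg T hT
  have h6 : ∑ ρ ∈ S.Nd, Ex T (ind (Act (S.v ρ) ((1 / 2) ^ S.h))) ≤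
      2 ^ (12 * S.h) * Nat.factorial 12 * exp 3 * Ex T (ind (fun w => 0 < var S.N w)) := by
    have e1 : (2 : ℝ) ^ (12 * S.h) * ((1 / 2 : ℝ) ^ S.h) ^ 12 = 1 := by
      rw [← pow_mul, mul_comm S.h 12, ← mul_pow]
      norm_num
    calc ∑ ρ ∈ S.Nd, Ex T (ind (Act (S.v ρ) ((1 / 2) ^ S.h)))
        = 2 ^ (12 * S.h) * (((1 / 2 : ℝ) ^ S.h) ^ 12 *
          ∑ ρ ∈ S.Nd, Ex T (ind (Act (S.v ρ) ((1 / 2) ^ S.h)))) := by
          rw [← mul_assoc, e1, one_mul]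
      _ ≤ 2 ^ (12 * S.h) * ((Nat.factorial 12 : ℝ) * exp 3 *
          Ex T (ind (fun w => 0 < var S.N w))) := mul_le_mul_of_nonneg_left h5 (by positivity)
      _ = _ := by ring
  calc Ex T (ind (S.Ev s)) ≤ 4 * (S.h + 1) * exp (3 - s) *
        ∑ ρ ∈ S.Nd, Ex T (ind (Act (S.v ρ) ((1 / 2) ^ S.h))) := by
        rw [← h4]
        exact (h1.trans h2.le).trans h3
    _ ≤ 4 * (S.h + 1) * exp (3 - s) * (2 ^ (12 * S.h) * Nat.factorial 12 * exp 3 *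
        Ex T (ind (fun w => 0 < var S.N w))) := mul_le_mul_of_nonneg_left h6 (by positivity)
    _ = _ := by ring

end Pool.Agent.HB
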