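import Pool.Agent.HB.M.UniA
import Pool.Agent.HB.M.Det

/-!
# HB.M.UniB: if no increment after an activation is large then `Z` is small

PROOF.  Let `w = (d_0, ..., d_{n-1})`, `δ = 2^{-h}`, `κ = 4^{-h}`, choose (`Z_exists`) an even `σ ∈ Nd` with `Z(w.sum)³ = ZP q (w.sum) σ`,
`|σ| = 2P`, `P ≤ 2^h`.  Let `σ_l` be the suffix of `σ` of length `l` (`σ.drop (2P - l)`), `l < 2P`; `v l = S.v σ_l`, `q i = S.q σ_{2i+2}`;
`ZP q x σ = ∑_{i<P} ‖q i x‖³`, and `B σ_l = (∑_{i<l/2} ‖q i x‖³)^{1/3}`.  `b l` = index of the first step after which `v l > δ`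
(`b l + 1` = length of the first prefix with `v l (sum) > δ`; the empty prefix has `v l 0 = 0 ≤ δ`), `b l = n` if there is none.
Apply `det_lemma` with `d u`, `s u = N(d u)²`, `L`, `δ`, `κ`, `D = 1 + 2s`.
`hinc`, `hincL`: let `F = B σ_l` or `L`, `b = b l < n`, `b ≤ t ≤ n`.  If `t = b` the sum is empty.  Otherwise `∑_{[b,t)} d = d_b + y`,
`y = w2.sum` with `w = w1 ++ w2 ++ w3`, `w1 = w.take (b+1)` (`First (v l) δ w1`), `w2` = steps `b+1..t-1`.  `F(d_b) ≤ N(d_b)`.
Let `e = var N w2 ≤ 1` and `l'` the largest `l' ≤ h` with `e ≤ 4^{-l'}`.  Since `¬ Ev s w`: `F y ≤ s 2^{-l'}`, which is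
`≤ s 2^{-h}` (`l' = h`) or `≤ 2 s √e` (`e > 4^{-l'-1}`); so `F y ≤ 2s √(e + κ)` and
`F(∑_{[b,t)} d) ≤ N(d_b) + 2s √(e+κ) ≤ (1+2s) √(∑_{[b,t)} s_u + κ)`.
Conclusion: `Z ≤ 2 δ P^{1/3} + (h+3)(1+2s) √(1+Pκ) ≤ 2 + (h+3)(1+2s)√2 ≤ 8 h (1+2s)`.
-/

open Finset Real

namespace Pool.Agent.HB

variable {V : Type} [AddCommGroup V] [Module ℝ V]

set_option linter.unusedSectionVars false

/-- the suffix of length `l` -/
def suf (σ : List ℕ) (l : ℕ) : List ℕ := σ.drop (σ.length - l)

theorem suf_self (σ : List ℕ) : suf σ σ.length = σ := by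
  simp [suf]

theorem suf_cons (a : ℕ) (σ : List ℕ) {l : ℕ} (h : l ≤ σ.length) : suf (a :: σ) l = suf σ l := by
  unfold suf
  have h1 : (a :: σ).length - l = (σ.length - l) + 1 := by
    rw [List.length_cons]
    omega
  rw [h1, List.drop_succ_cons]

theorem suf_length {σ : List ℕ} {l : ℕ} (h : l ≤ σ.length) : (suf σ l).length = l := by
  unfold suf
  rw [List.length_drop]
  omega

theorem suf_suf {σ : List ℕ} {k l : ℕ} (h : l ≤ k) (hk : k ≤ σ.length) :
    suf (suf σ k) l = suf σ l := by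
  have h1 := suf_length hk
  unfold suf at h1 ⊢
  rw [h1, List.drop_drop]
  congr 1
  omega

theorem suf_succ {σ : List ℕ} {l : ℕ} (h : l < σ.length) : ∃ a, suf σ (l + 1) = a :: suf σ l := by
  unfold suf
  have h1 : σ.length - (l + 1) < σ.length := by omega
  refine ⟨σ[σ.length - (l + 1)], ?_⟩
  rw [List.drop_eq_getElem_cons h1]
  congr 2
  omega

theorem suf_mem (S : TS V) {σ : List ℕ} (hσ : σ ∈ S.Nd) (l : ℕ) : suf σ l ∈ S.Nd := by
  have key : ∀ k (σ : List ℕ), σ ∈ S.Nd → σ.drop k ∈ S.Nd := by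
    intro k
    induction k with
    | zero => intro σ h; simpa using h
    | succ k ih =>
      intro σ h
      cases σ with
      | nil => simpa using h
      | cons a σ =>
        rw [List.drop_succ_cons]
        exact ih σ (S.tail a σ h)
  exact key _ σ hσ

theorem ZP_eq (q : List ℕ → V →ₗ[ℝ] ℂ) (x : V) : ∀ (P : ℕ) (σ : List ℕ), σ.length = 2 * P →
    ZP q x σ = ∑ i ∈ range P, ‖q (suf σ (2 * i + 2)) x‖ ^ 3 := by
  intro P
  induction P with
  | zero =>
    intro σ h
    have h1 : σ = [] := List.length_eq_zero_iff.1 (by simpa using h)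
    subst h1
    simp [ZP]
  | succ P ih =>
    intro σ h
    match σ, h with
    | [], h => simp at h
    | [a], h => simp at h; omega
    | n :: m :: σ, h =>
      have h1 : σ.length = 2 * P := by
        simp only [List.length_cons] at h
        omega
      rw [Finset.sum_range_succ]
      have h2 : suf (n :: m :: σ) (2 * P + 2) = n :: m :: σ := by
        have : 2 * P + 2 = (n :: m :: σ).length := by
          simp only [List.length_cons]
          omega
        rw [this, suf_self]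
      rw [h2]
      unfold ZP
      rw [ih σ h1, add_comm]
      congr 1
      refine Finset.sum_congr rfl fun i hi => ?_
      rw [Finset.mem_range] at hi
      rw [suf_cons _ _ (by simp only [List.length_cons]; omega), suf_cons _ _ (by omega)]

theorem evp_suf {σ : List ℕ} {l : ℕ} (h : l ≤ σ.length) : evp (suf σ l) = suf σ (2 * (l / 2)) := by
  unfold evp
  rw [suf_length h]
  split_ifs with h1
  · congr 1
    obtain ⟨k, hk⟩ := h1
    omega
  · rw [Nat.not_even_iff_odd] at h1
    obtain ⟨k, hk⟩ := h1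
    have h2 : 2 * (l / 2) = 2 * k := by omega
    rw [h2, hk]
    obtain ⟨a, ha⟩ := suf_succ (σ := σ) (l := 2 * k) (by omega)
    rw [ha, List.tail_cons]

theorem B_suf_cube (S : TS V) {σ : List ℕ} {l : ℕ} (h : l ≤ σ.length) (x : V) :
    S.B (suf σ l) x ^ 3 = ∑ i ∈ range (l / 2), ‖S.q (suf σ (2 * i + 2)) x‖ ^ 3 := by
  unfold TS.B
  rw [evp_suf h]
  have h1 : (suf σ (2 * (l / 2))).length = 2 * (l / 2) := suf_length (by omega)
  have h2 := ZP_nonneg S.q x (suf σ (2 * (l / 2)))
  rw [← Real.rpow_natCast, ← Real.rpow_mul h2]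
  norm_num
  rw [ZP_eq S.q x (l / 2) _ h1]
  refine Finset.sum_congr rfl fun i hi => ?_
  rw [Finset.mem_range] at hi
  rw [suf_suf (by omega) (by omega)]

/-- sums over intervals of a list -/
theorem sum_take (w : List V) {t : ℕ} (ht : t ≤ w.length) :
    ∑ u ∈ range t, w.getD u 0 = (w.take t).sum := by
  induction t with
  | zero => simp
  | succ t ih =>
    rw [Finset.sum_range_succ, ih (by omega), List.take_add_one, List.sum_append]
    congr 1
    rw [List.getD_eq_getElem?_getD, List.getElem?_eq_getElem (by omega)]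
    simp

theorem sum_seg (w : List V) {a t : ℕ} (hat : a ≤ t) (ht : t ≤ w.length) :
    ∑ u ∈ Ico a t, w.getD u 0 = ((w.drop a).take (t - a)).sum := by
  have h1 := Finset.sum_range_add_sum_Ico (fun u => w.getD u 0) hat
  rw [sum_take w (by omega), sum_take w ht] at h1
  have h2 : w.take t = w.take a ++ (w.drop a).take (t - a) := by
    rw [← List.take_add, Nat.add_sub_cancel' hat]
  rw [h2, List.sum_append] at h1
  exact add_left_cancel h1

theorem var_append (N : V → ℝ) (w1 w2 : List V) : var N (w1 ++ w2) = var N w1 + var N w2 := by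
  simp [var]

theorem var_take (N : V → ℝ) (w : List V) {t : ℕ} (ht : t ≤ w.length) :
    ∑ u ∈ range t, N (w.getD u 0) ^ 2 = var N (w.take t) := by
  induction t with
  | zero => simp [var]
  | succ t ih =>
    rw [Finset.sum_range_succ, ih (by omega), List.take_add_one, var_append]
    congr 1
    rw [List.getD_eq_getElem?_getD, List.getElem?_eq_getElem (by omega)]
    simp [var]

theorem var_seg (N : V → ℝ) (w : List V) {a t : ℕ} (hat : a ≤ t) (ht : t ≤ w.length) :
    ∑ u ∈ Ico a t, N (w.getD u 0) ^ 2 = var N ((w.drop a).take (t - a)) := by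
  have h1 := Finset.sum_range_add_sum_Ico (fun u => N (w.getD u 0) ^ 2) hat
  rw [var_take N w (by omega), var_take N w ht] at h1
  have h2 : w.take t = w.take a ++ (w.drop a).take (t - a) := by
    rw [← List.take_add, Nat.add_sub_cancel' hat]
  rw [h2, var_append] at h1
  exact add_left_cancel h1

/-- the increments after an activation are small -/
theorem inc_small {F N v : V → ℝ} (hF : Sm F) (hFN : ∀ x, F x ≤ N x) {δ s : ℝ} (hs : 0 ≤ s)
    {h : ℕ} {w : List V} (hw : var N w ≤ 1)
    (hbad : ∀ l ≤ h, ¬ Bad F N v δ ((1 / 2) ^ l) s w) {b t : ℕ} (hbt : b ≤ t)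
    (ht : t ≤ w.length) (_ : b < w.length) (hfirst : First v δ (w.take (b + 1))) :
    F (∑ u ∈ Ico b t, w.getD u 0) ≤
      (1 + 2 * s) * √(∑ u ∈ Ico b t, N (w.getD u 0) ^ 2 + (1 / 4) ^ h) := by
  have hF0 : F 0 = 0 := by
    have := hF.smul 0 0
    rw [abs_zero, zero_mul, zero_smul] at this
    exact this
  rcases hbt.eq_or_lt with h1 | h1
  · rw [h1, Finset.Ico_self, Finset.sum_empty, hF0]
    positivity
  have hsplit : ∑ u ∈ Ico b t, w.getD u 0 =
      w.getD b 0 + ∑ u ∈ Ico (b + 1) t, w.getD u 0 := Finset.sum_eq_sum_Ico_succ_bot h1 _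
  have hsplit2 : ∑ u ∈ Ico b t, N (w.getD u 0) ^ 2 =
      N (w.getD b 0) ^ 2 + ∑ u ∈ Ico (b + 1) t, N (w.getD u 0) ^ 2 :=
    Finset.sum_eq_sum_Ico_succ_bot h1 _
  set e := ∑ u ∈ Ico (b + 1) t, N (w.getD u 0) ^ 2 with he
  have he0 : 0 ≤ e := Finset.sum_nonneg fun u _ => sq_nonneg _
  have hev : e = var N ((w.drop (b + 1)).take (t - (b + 1))) := var_seg N w (by omega) ht
  set y := ∑ u ∈ Ico (b + 1) t, w.getD u 0 with hy
  have hyv : y = ((w.drop (b + 1)).take (t - (b + 1))).sum := sum_seg w (by omega) ht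
  have he1 : e ≤ 1 := by
    refine le_trans ?_ hw
    have h2 : w = w.take (b + 1) ++ ((w.drop (b + 1)).take (t - (b + 1)) ++
        (w.drop (b + 1)).drop (t - (b + 1))) := by
      rw [List.take_append_drop, List.take_append_drop]
    rw [hev]
    nth_rewrite 2 [h2]
    rw [var_append, var_append]
    have h3 := var_nonneg N (w.take (b + 1))
    have h4 := var_nonneg N ((w.drop (b + 1)).drop (t - (b + 1)))
    linarith
  have hwsplit : w = w.take (b + 1) ++ (w.drop (b + 1)).take (t - (b + 1)) ++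
      (w.drop (b + 1)).drop (t - (b + 1)) := by
    rw [List.append_assoc, List.take_append_drop, List.take_append_drop]
  have hsmall : ∀ l ≤ h, e ≤ (1 / 4) ^ l → F y ≤ s * (1 / 2) ^ l := by
    intro l hl hel
    by_contra hcon
    push Not at hcon
    refine hbad l hl ⟨w.take (b + 1), (w.drop (b + 1)).take (t - (b + 1)),
      (w.drop (b + 1)).drop (t - (b + 1)), hwsplit, hfirst, ?_, ?_⟩
    · rw [← hev, ← pow_mul, mul_comm, pow_mul]
      norm_num
      exact hel
    · rw [← hyv]
      exact hcon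
  have hFy : F y ≤ 2 * s * √(e + (1 / 4) ^ h) := by
    have hP0 : e ≤ (1 / 4) ^ 0 := by simpa using he1
    obtain ⟨l, hl1, hl2, hl3⟩ : ∃ l ≤ h, e ≤ (1 / 4 : ℝ) ^ l ∧
        (l = h ∨ (1 / 4 : ℝ) ^ (l + 1) < e) := by
      by_cases hall : ∀ l ≤ h, e ≤ (1 / 4 : ℝ) ^ l
      · exact ⟨h, le_rfl, hall h le_rfl, Or.inl rfl⟩
      · push Not at hall
        classical
        have hex : ∃ l, l ≤ h ∧ (1 / 4 : ℝ) ^ l < e := hall
        have hspec := Nat.find_spec hex
        have hmin := fun k (hk : k < Nat.find hex) => Nat.find_min hex hk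
        have hne : Nat.find hex ≠ 0 := by
          intro h0
          rw [h0] at hspec
          exact absurd hP0 (not_le.2 hspec.2)
        obtain ⟨k, hk⟩ := Nat.exists_eq_succ_of_ne_zero hne
        refine ⟨k, by omega, ?_, Or.inr ?_⟩
        · have h5 := hmin k (by omega)
          by_contra h6
          push Not at h6
          exact h5 ⟨by omega, h6⟩
        · have := hspec.2
          rw [hk] at this
          exact this
    have h2 := hsmall l hl1 hl2
    rcases hl3 with h3 | h3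
    · have h4 : (1 / 2 : ℝ) ^ l = √((1 / 4) ^ h) := by
        rw [h3]
        have : (1 / 4 : ℝ) ^ h = ((1 / 2) ^ h) ^ 2 := by
          rw [← pow_mul, mul_comm, pow_mul]
          norm_num
        rw [this, Real.sqrt_sq (by positivity)]
      have h5 : √((1 / 4 : ℝ) ^ h) ≤ √(e + (1 / 4) ^ h) := Real.sqrt_le_sqrt (by linarith)
      rw [h4] at h2
      have h6 : s * √((1 / 4 : ℝ) ^ h) ≤ s * √(e + (1 / 4) ^ h) :=
        mul_le_mul_of_nonneg_left h5 hs
      have h7 : 0 ≤ s * √(e + (1 / 4) ^ h) := by positivity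
      linarith
    · have h4 : (1 / 2 : ℝ) ^ (l + 1) ≤ √(e + (1 / 4) ^ h) := by
        refine Real.le_sqrt_of_sq_le ?_
        have : ((1 / 2 : ℝ) ^ (l + 1)) ^ 2 = (1 / 4) ^ (l + 1) := by
          rw [← pow_mul, mul_comm, pow_mul]
          norm_num
        rw [this]
        have h8 : (0 : ℝ) ≤ (1 / 4) ^ h := by positivity
        linarith
      have h6 : s * (1 / 2 : ℝ) ^ (l + 1) ≤ s * √(e + (1 / 4) ^ h) :=
        mul_le_mul_of_nonneg_left h4 hs
      rw [pow_succ] at h6
      linarith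
  rw [hsplit, hsplit2]
  have h2 := hF.add (w.getD b 0) y
  have h3 := hFN (w.getD b 0)
  have hκ : (0 : ℝ) ≤ (1 / 4) ^ h := by positivity
  have h4 : N (w.getD b 0) ≤ √(N (w.getD b 0) ^ 2 + e + (1 / 4) ^ h) :=
    Real.le_sqrt_of_sq_le (by linarith)
  have h5 : √(e + (1 / 4) ^ h) ≤ √(N (w.getD b 0) ^ 2 + e + (1 / 4) ^ h) :=
    Real.sqrt_le_sqrt (by nlinarith [sq_nonneg (N (w.getD b 0))])
  have h6 : 2 * s * √(e + (1 / 4) ^ h) ≤ 2 * s * √(N (w.getD b 0) ^ 2 + e + (1 / 4) ^ h) :=
    mul_le_mul_of_nonneg_left h5 (by positivity)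
  linarith

theorem uniB (S : TS V) (w : List V) (hw : var S.N w ≤ 1) (s : ℝ) (hs : 0 ≤ s)
    (h : ¬ S.Ev s w) : S.Z w.sum ≤ 8 * S.h * (1 + 2 * s) := by
  classical
  obtain ⟨σ, hσ, hev, hZ⟩ := Z_exists S w.sum
  obtain ⟨P, hP⟩ := hev
  have hP2 : σ.length = 2 * P := by omega
  have hlen := S.len σ hσ
  set n := w.length with hn
  set δ : ℝ := (1 / 2) ^ S.h with hδ
  set κ : ℝ := (1 / 4) ^ S.h with hκ
  -- activation times
  let Q : ℕ → ℕ → Prop := fun l t => t < n ∧ δ < S.v (suf σ l) (w.take (t + 1)).sum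
  let b : ℕ → ℕ := fun l => if hx : ∃ t, Q l t then Nat.find hx else n
  have hb : ∀ l, b l ≤ n := by
    intro l
    simp only [b]
    split_ifs with hx
    · exact (Nat.find_spec hx).1.le
    · exact le_rfl
  have hv0 : ∀ ρ, S.v ρ 0 = 0 := by
    intro ρ
    have := S.vsmul ρ 0 0
    rw [abs_zero, zero_mul, zero_smul] at this
    exact this
  have hδ0 : 0 < δ := by positivity
  have hbefore : ∀ l, ∀ t ≤ b l, S.v (suf σ l) (w.take t).sum ≤ δ := by
    intro l t ht
    rcases Nat.eq_zero_or_pos t with h0 | h0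
    · rw [h0, List.take_zero, List.sum_nil, hv0]
      exact hδ0.le
    · obtain ⟨k, hk⟩ := Nat.exists_eq_succ_of_ne_zero h0.ne'
      by_contra hcon
      push Not at hcon
      rw [hk] at hcon
      have hbl := hb l
      have hQ : Q l k := ⟨by omega, hcon⟩
      have hx : ∃ t, Q l t := ⟨k, hQ⟩
      have h1 : b l = Nat.find hx := by
        simp only [b]
        rw [dif_pos hx]
      have h2 := Nat.find_min' hx hQ
      omega
  have hact : ∀ l, b l < n → First (S.v (suf σ l)) δ (w.take (b l + 1)) := by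
    intro l hl
    have hx : ∃ t, Q l t := by
      by_contra hcon
      have h1 : b l = n := by
        simp only [b]
        rw [dif_neg hcon]
      omega
    have h1 : b l = Nat.find hx := by
      simp only [b]
      rw [dif_pos hx]
    refine ⟨?_, ?_⟩
    · rw [h1]
      exact (Nat.find_spec hx).2
    · intro u s' hus hs'
      have h2 : u = w.take u.length := by
        have h3 : u = (w.take (b l + 1)).take u.length := by
          rw [hus, List.take_left]
        rw [List.take_take] at h3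
        have h4 : u.length ≤ b l + 1 := by
          have h5 := congrArg List.length hus
          rw [List.length_append, List.length_take] at h5
          omega
        rw [min_eq_left h4] at h3
        exact h3
      rw [h2]
      refine hbefore l _ ?_
      have h5 := congrArg List.length hus
      rw [List.length_append, List.length_take] at h5
      have h6 : 0 < s'.length := List.length_pos_iff.2 hs'
      omega
  have hκ0 : 0 ≤ κ := by positivity
  have key := det_lemma n P S.h (by omega) (fun u => w.getD u 0) (fun u => S.N (w.getD u 0) ^ 2)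
    (fun u => sq_nonneg _) (by rw [var_take S.N w le_rfl, List.take_length]; exact hw)
    (fun i => (S.q (suf σ (2 * i + 2))).toAddMonoidHom) (fun l => S.v (suf σ l)) S.L δ (1 + 2 * s)
    κ hδ0.le (by positivity) hκ0 b hb
    (by
      intro i hi x
      obtain ⟨a, ha⟩ := suf_succ (σ := σ) (l := 2 * i) (by omega)
      obtain ⟨c, hc⟩ := suf_succ (σ := σ) (l := 2 * i + 1) (by omega)
      have h1 := suf_mem S hσ (2 * i + 2)
      rw [hc, ha] at h1
      have h2 := S.q1 c a _ h1 x
      rw [← ha, ← hc] at h2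
      exact h2)
    (by
      intro i hi x
      obtain ⟨a, ha⟩ := suf_succ (σ := σ) (l := 2 * i) (by omega)
      obtain ⟨c, hc⟩ := suf_succ (σ := σ) (l := 2 * i + 1) (by omega)
      have h1 := suf_mem S hσ (2 * i + 2)
      rw [hc, ha] at h1
      have h2 := S.q2 c a _ h1 x
      rw [← ha, ← hc] at h2
      exact h2)
    (by
      intro l hl t ht
      have h1 := hb l
      rw [sum_take w (by omega)]
      exact hbefore l t ht)
    (by
      intro l hl hbl t ht hbt
      have h1 := inc_small (sm_B S (suf σ l)) (B_le_N S (suf_mem S hσ l)) hs hw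
        (δ := δ) (v := S.v (suf σ l)) (h := S.h)
        (fun l' hl' hbad => h ⟨suf σ l, suf_mem S hσ l, l', hl', Or.inl hbad⟩) hbt ht hbl
        (hact l hbl)
      have h2 := pow_le_pow_left₀ ((sm_B S (suf σ l)).nn _) h1 3
      rw [B_suf_cube S (by omega)] at h2
      exact h2)
    (by
      intro l hl hbl t ht hbt
      exact inc_small S.hL S.LN hs hw (δ := δ) (v := S.v (suf σ l)) (h := S.h)
        (fun l' hl' hbad => h ⟨suf σ l, suf_mem S hσ l, l', hl', Or.inr hbad⟩) hbt ht hbl
        (hact l hbl))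
  have hZ' : S.Z w.sum ^ 3 ≤ (2 * δ * (P : ℝ) ^ ((1 : ℝ) / 3) +
      (S.h + 3) * (1 + 2 * s) * √(1 + P * κ)) ^ 3 := by
    rw [hZ, ZP_eq S.q _ P σ hP2]
    have h1 : ∑ u ∈ range n, w.getD u 0 = w.sum := by
      rw [sum_take w le_rfl, List.take_length]
    simp only [h1] at key
    exact key
  have hX0 : 0 ≤ 2 * δ * (P : ℝ) ^ ((1 : ℝ) / 3) +
      (S.h + 3) * (1 + 2 * s) * √(1 + P * κ) := by positivity
  have hZ2 : S.Z w.sum ≤ 2 * δ * (P : ℝ) ^ ((1 : ℝ) / 3) +
      (S.h + 3) * (1 + 2 * s) * √(1 + P * κ) := le_of_pow_le_pow_left₀ (by norm_num) hX0 hZ'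
  refine hZ2.trans ?_
  have hPh : (P : ℝ) ≤ 2 ^ S.h := by
    have : P ≤ 2 ^ S.h := by omega
    exact_mod_cast this
  have e1 : δ * (P : ℝ) ^ ((1 : ℝ) / 3) ≤ 1 := by
    have e2 : (P : ℝ) ^ ((1 : ℝ) / 3) ≤ 2 ^ S.h := by
      rcases Nat.eq_zero_or_pos P with h0 | h0
      · rw [h0]
        simp
      · have h1 : (1 : ℝ) ≤ P := by exact_mod_cast h0
        calc (P : ℝ) ^ ((1 : ℝ) / 3) ≤ (P : ℝ) ^ (1 : ℝ) :=
              Real.rpow_le_rpow_of_exponent_le h1 (by norm_num)
          _ = P := Real.rpow_one _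
          _ ≤ _ := hPh
    calc δ * (P : ℝ) ^ ((1 : ℝ) / 3) ≤ δ * 2 ^ S.h := mul_le_mul_of_nonneg_left e2 hδ0.le
      _ = 1 := by
        rw [hδ, ← mul_pow]
        norm_num
  have e3 : (P : ℝ) * κ ≤ 1 := by
    calc (P : ℝ) * κ ≤ 2 ^ S.h * κ := mul_le_mul_of_nonneg_right hPh hκ0
      _ = (1 / 2) ^ S.h := by
        rw [hκ, ← mul_pow]
        norm_num
      _ ≤ 1 := pow_le_one₀ (by norm_num) (by norm_num)
  have e4 : √(1 + P * κ) ≤ 3 / 2 := by
    rw [Real.sqrt_le_left (by norm_num)]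
    linarith
  have hh : (1 : ℝ) ≤ S.h := by exact_mod_cast S.h1
  have e5 : (S.h + 3) * (1 + 2 * s) * √(1 + P * κ) ≤ (4 * S.h) * (1 + 2 * s) * (3 / 2) := by
    refine mul_le_mul (mul_le_mul_of_nonneg_right (by linarith) (by positivity)) e4
      (Real.sqrt_nonneg _) (by positivity)
  nlinarith [mul_nonneg (show (0 : ℝ) ≤ S.h by positivity) hs]

end Pool.Agent.HB
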